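import Mathlib

/-!
# The cardinals: `lam` is the strong limit cardinal `ℶ_ω`, `θ` is its successor
-/

set_option autoImplicit false

namespace Pool.Agent.Helper82.LG

open Cardinal
open scoped Cardinal Ordinal

/-- the ordinals -/
abbrev O := Ordinal.{0}

/-- the coordinates: a level and an index -/
abbrev X := O × O

/-- the singular cardinal -/
noncomputable def lam : Cardinal.{0} := ℶ_ ω

/-- the successor of `lam`, as an ordinal -/
noncomputable def θ : O := (Order.succ lam).ord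

theorem aleph0_le_lam : ℵ₀ ≤ lam := aleph0_le_beth _

theorem beth_lt_lam (n : ℕ) : ℶ_ (n : O) < lam := beth_lt_beth.2 (Ordinal.natCast_lt_omega0 n)

theorem exists_lt_beth {c : Cardinal.{0}} (h : c < lam) : ∃ n : ℕ, c < ℶ_ (n : O) := by
  unfold lam at h
  rw [beth_limit Ordinal.isSuccLimit_omega0] at h
  have : Nonempty (Set.Iio (ω : O)) := ⟨⟨0, Ordinal.omega0_pos⟩⟩
  obtain ⟨⟨a, ha⟩, h1⟩ := exists_lt_of_lt_ciSup h
  obtain ⟨n, rfl⟩ := Ordinal.lt_omega0.1 ha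
  exact ⟨n, h1⟩

theorem isRegular_succ_lam : (Order.succ lam).IsRegular := isRegular_succ aleph0_le_lam

theorem cof_theta : θ.cof = Order.succ lam := isRegular_succ_lam.cof_ord

theorem lam_ord_lt_theta : lam.ord < θ := ord_lt_ord.2 (Order.lt_succ lam)

theorem isSuccLimit_theta : Order.IsSuccLimit θ :=
  isSuccLimit_ord (aleph0_le_lam.trans (Order.le_succ _))

theorem succ_lt_theta {β : O} (h : β < θ) : Order.succ β < θ := isSuccLimit_theta.succ_lt h

theorem theta_pos : 0 < θ := isSuccLimit_theta.bot_lt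

theorem card_lt_theta {β : O} (h : β < θ) : β.card ≤ lam := by
  unfold θ at h
  rw [lt_ord] at h
  exact Order.lt_succ_iff.1 h

theorem lt_theta {β : O} (h : β.card ≤ lam) : β < θ := by
  unfold θ
  rw [lt_ord]
  exact Order.lt_succ_iff.2 h

/-! ### sets of size at most `lam` -/

section
variable {Y Z : Type 1}

/-- sets with at most `lam` elements -/
def Sz (A : Set Y) : Prop := #A ≤ lift.{1} lam

theorem aleph0_le_llam : ℵ₀ ≤ lift.{1} lam := by
  rw [Cardinal.aleph0_le_lift]; exact aleph0_le_lam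

theorem Sz.mono {A B : Set Y} (h : A ⊆ B) (hB : Sz B) : Sz A := (mk_le_mk_of_subset h).trans hB

theorem sz_countable {A : Set Y} (h : A.Countable) : Sz A :=
  (mk_le_aleph0_iff.2 h.to_subtype).trans aleph0_le_llam

theorem sz_empty : Sz (∅ : Set Y) := sz_countable Set.countable_empty

theorem sz_singleton (a : Y) : Sz {a} := sz_countable (Set.countable_singleton a)

theorem Sz.union {A B : Set Y} (hA : Sz A) (hB : Sz B) : Sz (A ∪ B) := by
  refine (mk_union_le A B).trans ?_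
  calc #A + #B ≤ lift.{1} lam + lift.{1} lam := add_le_add hA hB
    _ = lift.{1} lam := add_eq_self aleph0_le_llam

theorem Sz.insert {A : Set Y} (hA : Sz A) (a : Y) : Sz (insert a A) := by
  rw [Set.insert_eq]
  exact (sz_singleton a).union hA

theorem Sz.image {A : Set Y} (hA : Sz A) (f : Y → Z) : Sz (f '' A) := mk_image_le.trans hA

theorem Sz.biUnion {I : Set Y} (hI : Sz I) (A : Y → Set Z) (h : ∀ i ∈ I, Sz (A i)) :
    Sz (⋃ i ∈ I, A i) := by
  rw [Set.biUnion_eq_iUnion]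
  unfold Sz
  refine (mk_iUnion_le _).trans ?_
  have h1 : ⨆ i : I, #(A i) ≤ lift.{1} lam := ciSup_le' fun i => h i.1 i.2
  calc #I * ⨆ i : I, #(A i) ≤ lift.{1} lam * lift.{1} lam := mul_le_mul' hI h1
    _ = lift.{1} lam := mul_eq_self aleph0_le_llam

theorem sz_iUnion_nat (A : ℕ → Set Z) (h : ∀ i, Sz (A i)) : Sz (⋃ i, A i) := by
  have : (⋃ i, A i) = ⋃ i ∈ (Set.univ : Set (ULift.{1} ℕ)), A i.down := by
    ext x
    simp only [Set.mem_iUnion, Set.mem_univ, exists_true_left]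
    exact ⟨fun ⟨i, hi⟩ => ⟨⟨i⟩, hi⟩, fun ⟨i, hi⟩ => ⟨i.down, hi⟩⟩
  rw [this]
  exact Sz.biUnion (sz_countable (Set.to_countable _)) _ fun i _ => h i.down

theorem Sz.small {A : Set Y} (hA : Sz A) : Small.{0} A := by
  unfold Sz at hA
  obtain ⟨c, hc⟩ := mem_range_lift_of_le hA
  rw [small_iff_lift_mk_lt_univ, ← hc]
  rw [Cardinal.lift_id]
  exact lift_lt_univ c

theorem sz_Iio {β : O} (h : β < θ) : Sz (Set.Iio β) := by
  unfold Sz
  rw [mk_Iio_ordinal, lift_le]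
  exact card_lt_theta h

theorem Sz.sSup_lt {A : Set O} (hA : Sz A) (h : ∀ a ∈ A, a < θ) : sSup A < θ := by
  refine Ordinal.sSup_lt_of_lt_cof ?_ h
  rw [← Ordinal.lift_cof, cof_theta]
  exact lt_of_le_of_lt hA (lift_lt.2 (Order.lt_succ lam))

theorem Sz.bdd {A : Set O} (hA : Sz A) : BddAbove A := by
  have := hA.small
  exact Ordinal.bddAbove_of_small

/-- a set of ordinals below `θ` with at most `lam` elements is bounded below `θ` -/
theorem Sz.exists_bound {A : Set O} (hA : Sz A) (h : ∀ a ∈ A, a < θ) : ∃ b < θ, ∀ a ∈ A, a ≤ b :=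
  ⟨sSup A, hA.sSup_lt h, fun _ ha => le_csSup hA.bdd ha⟩

theorem not_sz_Iio_theta : ¬ Sz (Set.Iio θ) := by
  intro h
  unfold Sz at h
  rw [mk_Iio_ordinal, lift_le] at h
  unfold θ at h
  rw [card_ord] at h
  exact absurd (Order.lt_succ lam) (not_lt.2 h)

/-- decomposition of a set into small pieces -/
theorem Sz.exists_dec {A : Set Y} (hA : Sz A) : ∃ D : ℕ → Set Y, (⋃ n, D n) = A ∧
    ∀ n, #(D n) ≤ lift.{1} (ℶ_ (n : O)) := by
  have h1 : #A ≤ #(Set.Iio lam.ord) := by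
    rw [mk_Iio_ordinal, card_ord]; exact hA
  obtain ⟨f⟩ := h1
  refine ⟨fun n => {a | ∃ h : a ∈ A, (f ⟨a, h⟩).1 < (ℶ_ (n : O)).ord}, ?_, fun n => ?_⟩
  · ext a
    simp only [Set.mem_iUnion, Set.mem_ofPred_eq]
    constructor
    · rintro ⟨n, h, _⟩
      exact h
    · intro h
      have h2 : (f ⟨a, h⟩).1 < lam.ord := (f ⟨a, h⟩).2
      rw [lt_ord] at h2
      obtain ⟨n, hn⟩ := exists_lt_beth h2
      exact ⟨n, h, lt_ord.2 hn⟩
  · have h3 : #({a | ∃ h : a ∈ A, (f ⟨a, h⟩).1 < (ℶ_ (n : O)).ord} : Set Y) ≤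
        #(Set.Iio (ℶ_ (n : O)).ord) := by
      refine ⟨⟨fun a => ⟨(f ⟨a.1, a.2.choose⟩).1, a.2.choose_spec⟩, fun a b hab => ?_⟩⟩
      have h4 : f ⟨a.1, a.2.choose⟩ = f ⟨b.1, b.2.choose⟩ :=
        Subtype.ext (congrArg (fun z : Set.Iio (ℶ_ (n : O)).ord => z.1) hab)
      have h5 : (⟨a.1, a.2.choose⟩ : A) = ⟨b.1, b.2.choose⟩ := f.injective h4
      exact Subtype.ext (congrArg (fun z : A => z.1) h5)
    refine h3.trans ?_
    rw [mk_Iio_ordinal, card_ord]

end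

/-- the truncation of a family of digit sequences -/
noncomputable def trc (Us : ℕ → Set X) (n : ℕ) (x : X → ℕ → ℕ) : X → ℕ → ℕ := by
  classical
  exact fun ξ i => if i < n ∧ ξ ∈ Us i then x ξ i else 0

/-- there are at most `lam` truncated families -/
theorem sz_trc (Us : ℕ → Set X) (n : ℕ) (hU : ∀ i < n, #(Us i) ≤ lift.{1} (ℶ_ (i : O))) :
    Sz (Set.range (trc Us n)) := by
  classical
  -- the index set
  let J : Set (X × ULift.{1} ℕ) := {p | p.2.down < n ∧ p.1 ∈ Us p.2.down}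
  have hJ : #J ≤ lift.{1} (ℶ_ (n : O)) := by
    have h1 : J ⊆ ⋃ i : {i : ULift.{1} ℕ // i.down < n}, (fun ξ => (ξ, i.1)) '' Us i.1.down := by
      rintro ⟨ξ, i⟩ ⟨h1, h2⟩
      exact Set.mem_iUnion.2 ⟨⟨i, h1⟩, ξ, h2, rfl⟩
    refine (mk_le_mk_of_subset h1).trans ((mk_iUnion_le _).trans ?_)
    have h2 : ⨆ i : {i : ULift.{1} ℕ // i.down < n},
        #((fun ξ => (ξ, i.1)) '' Us i.1.down : Set (X × ULift.{1} ℕ)) ≤ lift.{1} (ℶ_ (n : O)) := by
      refine ciSup_le' fun i => mk_image_le.trans ((hU _ i.2).trans (lift_le.2 ?_))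
      exact beth_le_beth.2 (by exact_mod_cast i.2.le)
    have h3 : #{i : ULift.{1} ℕ // i.down < n} ≤ ℵ₀ := mk_le_aleph0
    have h4 : ℵ₀ ≤ lift.{1} (ℶ_ (n : O)) := by
      rw [Cardinal.aleph0_le_lift]; exact aleph0_le_beth _
    calc _ ≤ lift.{1} (ℶ_ (n : O)) * lift.{1} (ℶ_ (n : O)) := mul_le_mul' (h3.trans h4) h2
      _ = _ := mul_eq_self h4
  have h5 : #(Set.range (trc Us n)) ≤ #(J → ULift.{1} ℕ) := by
    refine ⟨⟨fun x p => ⟨x.1 p.1.1 p.1.2.down⟩, ?_⟩⟩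
    rintro ⟨_, x, rfl⟩ ⟨_, y, rfl⟩ h
    refine Subtype.ext (funext fun ξ => funext fun i => ?_)
    show (if i < n ∧ ξ ∈ Us i then x ξ i else 0) = (if i < n ∧ ξ ∈ Us i then y ξ i else 0)
    by_cases hi : i < n ∧ ξ ∈ Us i
    · have h6 := congrArg ULift.down (congrFun h ⟨(ξ, ⟨i⟩), hi⟩)
      change (if i < n ∧ ξ ∈ Us i then x ξ i else 0) = (if i < n ∧ ξ ∈ Us i then y ξ i else 0) at h6
      exact h6
    · rw [if_neg hi, if_neg hi]
  refine h5.trans ?_
  have h4 : ℵ₀ ≤ lift.{1} (ℶ_ (n : O)) := by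
    rw [Cardinal.aleph0_le_lift]; exact aleph0_le_beth _
  have h6 : #(J → ULift.{1} ℕ) = ℵ₀ ^ #J := by
    rw [← power_def, mk_uLift, mk_nat, lift_aleph0]
  rw [h6]
  calc ℵ₀ ^ #J ≤ ℵ₀ ^ lift.{1} (ℶ_ (n : O)) := power_le_power_left aleph0_ne_zero hJ
    _ ≤ lift.{1} (ℶ_ (n : O)) ^ lift.{1} (ℶ_ (n : O)) := power_le_power_right h4
    _ = 2 ^ lift.{1} (ℶ_ (n : O)) := power_self_eq h4
    _ = lift.{1} (ℶ_ ((n + 1 : ℕ) : O)) := by
      rw [Nat.cast_add, Nat.cast_one, beth_add_one, lift_power, Cardinal.lift_ofNat]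
    _ ≤ lift.{1} lam := lift_le.2 (beth_lt_lam _).le

end Pool.Agent.Helper82.LG
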