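import Pool.Agent.Helper82.LG.Names

set_option autoImplicit false

/-!
# Boolean facts with explicit names
-/

namespace Pool.Agent.Helper82.LG

open Cardinal
open scoped Cardinal Ordinal
open Helper23
open Helper23.CK
open Helper23.WT (iffV bElim bOr bMP bImp bNot bAbs bAll bEx bIff bIff_mp bIff_mpr bLeft bRight
  bCases bContra)
open Helper23.CK.Nm

section
variable {P : Type 1} [Preorder P]

theorem mem_ordn_succ (x : Nm P) (β : O) :
    mem x (ordn (β + 1)) = eq x (ordn β) ⊔ mem x (ordn β) := by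
  rw [mem_ordn]
  refine le_antisymm (iSup_le fun γ => ?_) (sup_le ?_ ?_)
  · have h : γ.1 ≤ β := Order.lt_add_one_iff.1 γ.2
    rcases lt_or_eq_of_le h with h | h
    · refine le_trans ?_ le_sup_right
      rw [mem_ordn]
      exact le_iSup (fun γ : Set.Iio β => eq x (ordn γ.1)) ⟨γ.1, h⟩
    · rw [h]
      exact le_sup_left
  · exact le_iSup (fun γ : Set.Iio (β + 1) => eq x (ordn γ.1))
      ⟨β, Set.mem_Iio.2 (Order.lt_add_one_iff.2 le_rfl)⟩
  · rw [mem_ordn]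
    exact iSup_le fun γ => le_iSup (fun γ : Set.Iio (β + 1) => eq x (ordn γ.1))
      ⟨γ.1, Set.mem_Iio.2 (Order.lt_add_one_iff.2 (le_of_lt γ.2))⟩

theorem eq_nat_ordn (n : ℕ) {Γ : RO P} : Γ ≤ eq (nat n) (ordn (n : O)) := by
  induction n generalizing Γ with
  | zero =>
    refine bExt (fun x Δ _ h => ?_) (fun x Δ _ h => ?_)
    · have h' : Δ ≤ mem x emp := h
      rw [mem_emp] at h'
      exact h'.trans bot_le
    · rw [Nat.cast_zero, mem_ordn] at h
      refine bElim h fun γ _ _ _ => ?_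
      exact absurd γ.2 (not_lt.2 (bot_le : (0 : O) ≤ γ.1))
  | succ n ih =>
    rw [Nat.cast_add, Nat.cast_one]
    refine bExt (fun x Δ _ h => ?_) (fun x Δ _ h => ?_)
    · rw [mem_nat_succ] at h
      rw [mem_ordn_succ]
      refine bOr h (fun Δ' _ h' => ?_) (fun Δ' _ h' => ?_)
      · exact (bTrans h' ih).trans le_sup_left
      · exact (bMemR ih h').trans le_sup_right
    · rw [mem_ordn_succ] at h
      rw [mem_nat_succ]
      refine bOr h (fun Δ' _ h' => ?_) (fun Δ' _ h' => ?_)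
      · exact (bTrans h' (bSymm ih)).trans le_sup_left
      · exact (bMemR (bSymm ih) h').trans le_sup_right

theorem eq_omg_ordn {Γ : RO P} : Γ ≤ eq omg (ordn (ω : O)) := by
  refine bExt (fun x Δ _ h => ?_) (fun x Δ _ h => ?_)
  · rw [mem_omg] at h
    rw [mem_ordn]
    refine bElim h fun n Δ' _ h' => ?_
    exact bEx ⟨(n : O), Ordinal.natCast_lt_omega0 n⟩ (bTrans h' (eq_nat_ordn n))
  · rw [mem_ordn] at h
    rw [mem_omg]
    refine bElim h fun γ Δ' _ h' => ?_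
    obtain ⟨n, hn⟩ := Ordinal.lt_omega0.1 γ.2
    rw [hn] at h'
    exact bEx n (bTrans h' (bSymm (eq_nat_ordn n)))

theorem omega_lt_lam : (ω : O) < lam.ord := by
  rw [← ord_aleph0, ord_lt_ord]
  have h := beth_lt_lam 0
  rwa [Nat.cast_zero, beth_zero] at h

/-- an injection of ordinals gives a list -/
theorem list_of {α β : O} (g : Set.Iio β → Set.Iio α) (hg : Function.Injective g) {Γ : RO P} :
    Γ ≤ ⨆ c, ListB c (ordn α) (ordn β) := by
  refine bEx (mk (Set.Iio β) (fun γ => opair (ordn (g γ).1) (ordn γ.1)) (fun _ => ⊤)) (le_inf ?_ ?_)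
  · refine funB_pairs (a := fun γ : Set.Iio β => ordn (g γ).1) (b := fun γ : Set.Iio β => ordn γ.1)
      fun i j Γ _ _ h => ?_
    by_cases hij : i = j
    · rw [hij]; exact bRefl _
    · exact (eq_ordn (fun h' => hij (hg (Subtype.ext h'))) h).trans bot_le
  · refine le_iInf fun x => bImp fun Δ _ h2 => ?_
    rw [mem_ordn] at h2
    refine bElim h2 fun γ Δ' h3 h4 => ?_
    refine bEx (ordn (g γ).1) (le_inf (ordn_mem_ordn (g γ).2) ?_)
    exact bPairs (a := fun γ : Set.Iio β => ordn (g γ).1) (b := fun γ : Set.Iio β => ordn γ.1) γ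
      le_top (bRefl _) h4

/-- a cofinal sequence gives cofinality `ω` -/
theorem cof_of {a : Nm P} {α : O} (s : ℕ → O) (hs : ∀ n, s n < α) (hc : ∀ β < α, ∃ n, β < s n)
    {Γ : RO P} (h : Γ ≤ eq a (ordn α)) : Γ ≤ CofB a := by
  have hin : ∀ n, ∀ Δ ≤ Γ, Δ ≤ mem (ordn (s n)) a := fun n Δ hΔ =>
    bMemR (bSymm (hΔ.trans h)) (ordn_mem_ordn (hs n))
  refine bEx (mk (ULift.{1} ℕ) (fun n => opair (nat n.down) (ordn (s n.down))) (fun _ => ⊤))
    (le_inf ?_ (le_inf ?_ ?_))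
  · refine funB_pairs (a := fun n : ULift.{1} ℕ => nat n.down)
      (b := fun n : ULift.{1} ℕ => ordn (s n.down)) fun i j Γ _ _ h => ?_
    by_cases hij : i = j
    · rw [hij]; exact bRefl _
    · exact (eq_nat_nat (fun h' => hij (ULift.ext _ _ h')) h).trans bot_le
  · refine le_iInf fun x => bImp fun Δ hΔ h2 => ?_
    rw [mem_omg] at h2
    refine bElim h2 fun n Δ' h3 h4 => ?_
    refine bEx (ordn (s n)) (le_inf (hin n _ (h3.trans hΔ)) ?_)
    exact bPairs (a := fun n : ULift.{1} ℕ => nat n.down)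
      (b := fun n : ULift.{1} ℕ => ordn (s n.down)) ⟨n⟩ le_top h4 (bRefl _)
  · refine le_iInf fun b => bImp fun Δ hΔ h2 => ?_
    have h3 : Δ ≤ mem b (ordn α) := bMemR (hΔ.trans h) h2
    rw [mem_ordn] at h3
    refine bElim h3 fun γ Δ' h4 h5 => ?_
    obtain ⟨n, hn⟩ := hc γ.1 γ.2
    refine bEx (nat n) (le_inf nat_mem_omg (bEx (ordn (s n)) (le_inf (hin n _ (h4.trans hΔ))
      (le_inf ?_ ?_))))
    · exact bPairs (a := fun n : ULift.{1} ℕ => nat n.down)
        (b := fun n : ULift.{1} ℕ => ordn (s n.down)) ⟨n⟩ le_top (bRefl _) (bRefl _)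
    · exact bMemL (bSymm h5) (ordn_mem_ordn hn)

end

theorem omg_mem {Γ : RO PP} : Γ ≤ mem omg (ordn lam.ord) :=
  bMemL (bSymm eq_omg_ordn) (ordn_mem_ordn omega_lt_lam)

theorem list_below {β : O} (h : β < θ) {Γ : RO PP} :
    Γ ≤ ⨆ c, ListB c (ordn lam.ord) (ordn β) := by
  have h1 : #(Set.Iio β) ≤ #(Set.Iio lam.ord) := by
    rw [mk_Iio_ordinal, mk_Iio_ordinal, lift_le, card_ord]
    exact card_lt_theta h
  obtain ⟨g⟩ := h1
  exact list_of g g.injective

theorem cof_lam {Γ : RO PP} : Γ ≤ CofB (ordn lam.ord) := by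
  refine cof_of (α := lam.ord) (fun n => (ℶ_ (n : O)).ord) (fun n => ord_lt_ord.2 (beth_lt_lam n))
    (fun β hβ => ?_) (bRefl _)
  obtain ⟨n, hn⟩ := exists_lt_beth (lt_ord.1 hβ)
  exact ⟨n, lt_ord.2 hn⟩

/-! ### the generic set of ordinals -/

theorem exists_cofinal {β : O} (h : β.cof = ℵ₀) :
    ∃ s : ℕ → O, (∀ n, s n < β) ∧ ∀ γ < β, ∃ n, γ < s n := by
  have hl : Order.IsSuccLimit β := Ordinal.aleph0_le_cof.1 h.ge
  obtain ⟨ι, f, hf, hι⟩ := Ordinal.exists_lsub_cof β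
  rw [h] at hι
  obtain ⟨e⟩ := Cardinal.eq.1 (hι.trans Cardinal.mk_nat.symm)
  refine ⟨fun n => f (e.symm n), fun n => ?_, fun γ hγ => ?_⟩
  · rw [← hf]
    exact Ordinal.lt_lsub f _
  · have h1 := hl.succ_lt hγ
    rw [← hf, Ordinal.lt_lsub_iff] at h1
    obtain ⟨i, hi⟩ := h1
    exact ⟨e i, by simpa using (Order.lt_succ γ).trans_le hi⟩

theorem Sv_bot {β : O} (h : β.cof ≠ ℵ₀) : Sv β = ⊥ := by
  refine le_bot_iff.1 fun x hx => ?_
  obtain ⟨r, _, _, h2⟩ := (RO.mem_hull.1 hx) x le_rfl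
  exact (h (r.1.2.1.st_cof _ h2)).elim

theorem Sn_cof {Γ : RO PP} : Γ ≤ ⨅ α, mem α Sn ⇨ mem α (ordn θ) ⊓ CofB α := by
  refine le_iInf fun α => bImp fun Δ _ h => ?_
  unfold Sn at h
  rw [mem_mk] at h
  refine bElim h fun β Δ' _ h' => ?_
  by_cases hβ : β.1.cof = ℵ₀
  · obtain ⟨s, hs, hc⟩ := exists_cofinal hβ
    exact le_inf (bMemL (bSymm (bRight h')) (ordn_mem_ordn β.2)) (cof_of s hs hc (bRight h'))
  · have h2 := bLeft h'
    rw [Sv_bot hβ] at h2
    exact h2.trans bot_le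

/-! ### the Cohen reals -/

/-- the truth value of: the bit `x` is one -/
noncomputable def bitv (x : Bit) : RO PP :=
  RO.hull {p | x ∈ p.2.one} fun _ _ hq h => hq.2.1 h

/-- the Cohen real with index `β` -/
noncomputable def rn (β : O) : Nm PP :=
  mk (ULift.{1} ℕ) (fun n => nat n.down) (fun n => bitv (β, n.down))

theorem mem_rn (n : ℕ) (β : O) : mem (nat n) (rn β) = bitv (β, n) := by
  unfold rn
  rw [mem_mk]
  refine le_antisymm (iSup_le fun m => ?_) ?_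
  · by_cases h : m.down = n
    · rw [h]
      exact inf_le_left
    · exact (eq_nat_nat (fun h' => h h'.symm) inf_le_right).trans bot_le
  · exact bEx (⟨n⟩ : ULift.{1} ℕ) (le_inf le_rfl (bRefl _))

theorem not_mem_eq_rn {β β' : O} {q : PP} (h : q ∈ (eq (rn β) (rn β')).carrier) {n : ℕ}
    (h1 : (β, n) ∈ q.2.one) (h0 : (β', n) ∈ q.2.zer) : False := by
  have h2 : q ∈ (mem (nat n) (rn β)).carrier := by
    rw [mem_rn]
    exact RO.subset_hull h1
  have h3 : eq (rn β) (rn β') ⊓ mem (nat n) (rn β) ≤ mem (nat n) (rn β') :=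
    bMemR inf_le_left inf_le_right
  have h4 : q ∈ (mem (nat n) (rn β')).carrier := h3 ⟨h, h2⟩
  rw [mem_rn] at h4
  obtain ⟨r, hr, h5⟩ := (RO.mem_hull.1 h4) q le_rfl
  exact r.2.dj _ h5 (hr.2.2 h0)

theorem eq_rn {β β' : O} (hβ : β < θ) (hβ' : β' < θ) (hne : β ≠ β') {Γ : RO PP}
    (h : Γ ≤ eq (rn β) (rn β')) : Γ ≤ ⊥ := by
  classical
  intro p hp
  obtain ⟨n, hn⟩ := Infinite.exists_notMem_finset ((p.2.one ∪ p.2.zer).image Prod.snd)
  have hn0 : (β, n) ∉ p.2.zer := fun h' =>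
    hn (Finset.mem_image.2 ⟨_, Finset.mem_union_right _ h', rfl⟩)
  have hn1 : (β', n) ∉ p.2.one := fun h' =>
    hn (Finset.mem_image.2 ⟨_, Finset.mem_union_left _ h', rfl⟩)
  obtain ⟨d, hd, hdiff, _⟩ := p.2.exists_diff (x := (β, n)) (y := (β', n)) hβ hβ'
    (fun h' => hne (congrArg Prod.fst h')) hn0 hn1
  have hq : ((p.1, d) : PP) ≤ p := ⟨le_rfl, hd⟩
  have h1 : ((p.1, d) : PP) ∈ (eq (rn β) (rn β')).carrier := h (Γ.lower hq hp)
  rcases hdiff with ⟨h2, h3⟩ | ⟨h2, h3⟩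
  · exact (not_mem_eq_rn h1 h2 h3).elim
  · rw [eq_symm] at h1
    exact (not_mem_eq_rn h1 h3 h2).elim

theorem reals {Γ : RO PP} : Γ ≤ ⨆ f, FunB f ⊓
    ((⨅ x, mem x (ordn θ) ⇨ ⨆ A, (⨅ z, mem z A ⇨ mem z omg) ⊓ mem (opair x A) f) ⊓
      ⨅ x, ⨅ x', ⨅ A, mem (opair x A) f ⇨ (mem (opair x' A) f ⇨ eq x x')) := by
  refine bEx (mk (Set.Iio θ) (fun β => opair (ordn β.1) (rn β.1)) (fun _ => ⊤))
    (le_inf ?_ (le_inf ?_ ?_))
  · refine funB_pairs (a := fun β : Set.Iio θ => ordn β.1) (b := fun β : Set.Iio θ => rn β.1)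
      fun i j Γ _ _ h => ?_
    by_cases hij : i.1 = j.1
    · rw [hij]; exact bRefl _
    · exact (eq_ordn hij h).trans bot_le
  · refine le_iInf fun x => bImp fun Δ _ h => ?_
    rw [mem_ordn] at h
    refine bElim h fun β Δ' _ h' => ?_
    refine bEx (rn β.1) (le_inf (le_iInf fun z => bImp fun Δ'' _ h2 => ?_) ?_)
    · unfold rn at h2
      rw [mem_mk] at h2
      refine bElim h2 fun n Δ₁ _ h3 => ?_
      rw [mem_omg]
      exact bEx n.down (bRight h3)
    · exact bPairs (a := fun β : Set.Iio θ => ordn β.1) (b := fun β : Set.Iio θ => rn β.1) β le_top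
        h' (bRefl _)
  · refine le_iInf fun x => le_iInf fun x' => le_iInf fun A => bImp fun Δ _ h => bImp fun Δ' h1 h' => ?_
    rw [mem_pairs] at h h'
    refine bElim (h1.trans h) fun β Δ₁ h2 h3 => ?_
    refine bElim (h2.trans h') fun β' Δ₂ h4 h5 => ?_
    have h3' := h4.trans h3
    by_cases hb : β.1 = β'.1
    · have h6 := bLeft (bRight h5)
      rw [← hb] at h6
      exact bTrans (bLeft (bRight h3')) (bSymm h6)
    · exact (eq_rn β.2 β'.2 hb (bTrans (bSymm (bRight (bRight h3'))) (bRight (bRight h5)))).trans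
        bot_le

end Pool.Agent.Helper82.LG
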