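import Pool.Agent.Helper82.LG.Base

/-!
# The Cohen conditions: finite partial functions from `θ × ω` to `2`
-/

set_option autoImplicit false

namespace Pool.Agent.Helper82.LG

/-- the bits -/
abbrev Bit := O × ℕ

/-- finite partial functions from `θ × ω` to `2` -/
structure Co where
  one : Finset Bit
  zer : Finset Bit
  dj : ∀ x ∈ one, x ∉ zer
  b1 : ∀ x ∈ one, x.1 < θ
  b0 : ∀ x ∈ zer, x.1 < θ

namespace Co

theorem ext' {c d : Co} (h1 : c.one = d.one) (h2 : c.zer = d.zer) : c = d := by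
  cases c; cases d; cases h1; cases h2; rfl

instance : PartialOrder Co where
  le c d := d.one ⊆ c.one ∧ d.zer ⊆ c.zer
  le_refl _ := ⟨subset_rfl, subset_rfl⟩
  le_trans _ _ _ h h' := ⟨h'.1.trans h.1, h'.2.trans h.2⟩
  le_antisymm _ _ h h' := ext' (Finset.Subset.antisymm h'.1 h.1) (Finset.Subset.antisymm h'.2 h.2)

theorem le_def {c d : Co} : c ≤ d ↔ d.one ⊆ c.one ∧ d.zer ⊆ c.zer := Iff.rfl

/-- the empty condition -/
def emp : Co := ⟨∅, ∅, by simp, by simp, by simp⟩

theorem le_emp (c : Co) : c ≤ emp := ⟨by simp [emp], by simp [emp]⟩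

instance : Nonempty Co := ⟨emp⟩

/-- the domain is contained in `A` -/
def In (A : Set Bit) (c : Co) : Prop := (∀ x ∈ c.one, x ∈ A) ∧ ∀ x ∈ c.zer, x ∈ A

theorem In.mono {A B : Set Bit} {c : Co} (h : c.In A) (hAB : A ⊆ B) : c.In B :=
  ⟨fun x hx => hAB (h.1 x hx), fun x hx => hAB (h.2 x hx)⟩

theorem emp_in (A : Set Bit) : emp.In A := ⟨by simp [emp], by simp [emp]⟩

open Classical in
/-- the restriction of a condition -/
noncomputable def cut (A : Set Bit) (c : Co) : Co where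
  one := c.one.filter (· ∈ A)
  zer := c.zer.filter (· ∈ A)
  dj x h h' := c.dj x (Finset.mem_filter.1 h).1 (Finset.mem_filter.1 h').1
  b1 x h := c.b1 x (Finset.mem_filter.1 h).1
  b0 x h := c.b0 x (Finset.mem_filter.1 h).1

theorem mem_cut_one {A : Set Bit} {c : Co} {x : Bit} : x ∈ (cut A c).one ↔ x ∈ c.one ∧ x ∈ A := by
  unfold cut; simp

theorem mem_cut_zer {A : Set Bit} {c : Co} {x : Bit} : x ∈ (cut A c).zer ↔ x ∈ c.zer ∧ x ∈ A := by
  unfold cut; simp

theorem cut_in (A : Set Bit) (c : Co) : (cut A c).In A :=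
  ⟨fun _ hx => (mem_cut_one.1 hx).2, fun _ hx => (mem_cut_zer.1 hx).2⟩

theorem le_cut (A : Set Bit) (c : Co) : c ≤ cut A c :=
  ⟨fun _ hx => (mem_cut_one.1 hx).1, fun _ hx => (mem_cut_zer.1 hx).1⟩

theorem cut_mono (A : Set Bit) {c d : Co} (h : c ≤ d) : cut A c ≤ cut A d :=
  ⟨fun _ hx => mem_cut_one.2 ⟨h.1 (mem_cut_one.1 hx).1, (mem_cut_one.1 hx).2⟩,
    fun _ hx => mem_cut_zer.2 ⟨h.2 (mem_cut_zer.1 hx).1, (mem_cut_zer.1 hx).2⟩⟩

open Classical in
/-- the union of two compatible conditions -/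
noncomputable def un (c d : Co) (h1 : ∀ x ∈ c.one, x ∉ d.zer) (h2 : ∀ x ∈ d.one, x ∉ c.zer) : Co where
  one := c.one ∪ d.one
  zer := c.zer ∪ d.zer
  dj x h h' := by
    rcases Finset.mem_union.1 h with h | h <;> rcases Finset.mem_union.1 h' with h' | h'
    · exact c.dj x h h'
    · exact h1 x h h'
    · exact h2 x h h'
    · exact d.dj x h h'
  b1 x h := (Finset.mem_union.1 h).elim (c.b1 x) (d.b1 x)
  b0 x h := (Finset.mem_union.1 h).elim (c.b0 x) (d.b0 x)

theorem un_le_left {c d : Co} {h1 : ∀ x ∈ c.one, x ∉ d.zer} {h2 : ∀ x ∈ d.one, x ∉ c.zer} :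
    un c d h1 h2 ≤ c :=
  ⟨fun _ hx => Finset.mem_union_left _ hx, fun _ hx => Finset.mem_union_left _ hx⟩

theorem un_le_right {c d : Co} {h1 : ∀ x ∈ c.one, x ∉ d.zer} {h2 : ∀ x ∈ d.one, x ∉ c.zer} :
    un c d h1 h2 ≤ d :=
  ⟨fun _ hx => Finset.mem_union_right _ hx, fun _ hx => Finset.mem_union_right _ hx⟩

theorem un_in {A : Set Bit} {c d : Co} {h1 : ∀ x ∈ c.one, x ∉ d.zer} {h2 : ∀ x ∈ d.one, x ∉ c.zer}
    (hc : c.In A) (hd : d.In A) : (un c d h1 h2).In A :=
  ⟨fun x hx => (Finset.mem_union.1 hx).elim (hc.1 x) (hd.1 x),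
    fun x hx => (Finset.mem_union.1 hx).elim (hc.2 x) (hd.2 x)⟩

/-- a condition with domain in `A` below the restriction of `c` is compatible with `c` -/
theorem amal {A : Set Bit} {c d : Co} (hd : d.In A) (h : d ≤ cut A c) : ∃ e, e ≤ c ∧ e ≤ d := by
  refine ⟨un c d (fun x hx hx' => ?_) (fun x hx hx' => ?_), un_le_left, un_le_right⟩
  · exact d.dj x (h.1 (mem_cut_one.2 ⟨hx, hd.2 x hx'⟩)) hx'
  · exact d.dj x hx (h.2 (mem_cut_zer.2 ⟨hx', hd.1 x hx⟩))

theorem le_cut_of {A : Set Bit} {c d : Co} (hd : d.In A) (h : c ≤ d) : cut A c ≤ d :=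
  ⟨fun x hx => mem_cut_one.2 ⟨h.1 hx, hd.1 x hx⟩, fun x hx => mem_cut_zer.2 ⟨h.2 hx, hd.2 x hx⟩⟩

open Classical in
/-- the bit `x` is set to one -/
theorem exists_one (c : Co) {x : Bit} (hx : x.1 < θ) (h0 : x ∉ c.zer) : ∃ d ≤ c, x ∈ d.one ∧
    d.zer = c.zer ∧ ∀ A : Set Bit, c.In A → x ∈ A → d.In A := by
  refine ⟨⟨insert x c.one, c.zer, ?_, ?_, c.b0⟩, ⟨Finset.subset_insert _ _, subset_rfl⟩,
    Finset.mem_insert_self _ _, rfl, fun A hA hxA => ⟨fun y hy => ?_, hA.2⟩⟩
  · intro y hy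
    rcases Finset.mem_insert.1 hy with rfl | hy
    · exact h0
    · exact c.dj y hy
  · intro y hy
    rcases Finset.mem_insert.1 hy with rfl | hy
    · exact hx
    · exact c.b1 y hy
  · rcases Finset.mem_insert.1 hy with rfl | hy
    · exact hxA
    · exact hA.1 y hy

open Classical in
/-- the bit `x` is set to zero -/
theorem exists_zer (c : Co) {x : Bit} (hx : x.1 < θ) (h0 : x ∉ c.one) : ∃ d ≤ c, x ∈ d.zer ∧
    d.one = c.one ∧ ∀ A : Set Bit, c.In A → x ∈ A → d.In A := by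
  refine ⟨⟨c.one, insert x c.zer, ?_, c.b1, ?_⟩, ⟨subset_rfl, Finset.subset_insert _ _⟩,
    Finset.mem_insert_self _ _, rfl, fun A hA hxA => ⟨hA.1, fun y hy => ?_⟩⟩
  · intro y hy hy'
    rcases Finset.mem_insert.1 hy' with rfl | hy'
    · exact h0 hy
    · exact c.dj y hy hy'
  · intro y hy
    rcases Finset.mem_insert.1 hy with rfl | hy
    · exact hx
    · exact c.b0 y hy
  · rcases Finset.mem_insert.1 hy with rfl | hy
    · exact hxA
    · exact hA.2 y hy

/-- the bits `x` and `y` are decided in different ways -/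
def Diff (c : Co) (x y : Bit) : Prop := (x ∈ c.one ∧ y ∈ c.zer) ∨ (x ∈ c.zer ∧ y ∈ c.one)

theorem Diff.mono {c d : Co} {x y : Bit} (h : Diff c x y) (hd : d ≤ c) : Diff d x y :=
  h.imp (fun h => ⟨hd.1 h.1, hd.2 h.2⟩) (fun h => ⟨hd.2 h.1, hd.1 h.2⟩)

theorem exists_diff (c : Co) {x y : Bit} (hx : x.1 < θ) (hy : y.1 < θ) (hxy : x ≠ y)
    (hx0 : x ∉ c.zer) (hy1 : y ∉ c.one) :
    ∃ d ≤ c, Diff d x y ∧ ∀ A : Set Bit, c.In A → x ∈ A → y ∈ A → d.In A := by
  classical
  refine ⟨⟨insert x c.one, insert y c.zer, ?_, ?_, ?_⟩, ⟨Finset.subset_insert _ _,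
    Finset.subset_insert _ _⟩, Or.inl ⟨Finset.mem_insert_self _ _, Finset.mem_insert_self _ _⟩,
    fun A hA h1 h2 => ⟨fun z hz => ?_, fun z hz => ?_⟩⟩
  · intro z hz hz'
    rcases Finset.mem_insert.1 hz with rfl | hz <;> rcases Finset.mem_insert.1 hz' with rfl | hz'
    · exact hxy rfl
    · exact hx0 hz'
    · exact hy1 hz
    · exact c.dj z hz hz'
  · intro z hz
    rcases Finset.mem_insert.1 hz with rfl | hz
    · exact hx
    · exact c.b1 z hz
  · intro z hz
    rcases Finset.mem_insert.1 hz with rfl | hz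
    · exact hy
    · exact c.b0 z hz
  · rcases Finset.mem_insert.1 hz with rfl | hz
    · exact h1
    · exact hA.1 z hz
  · rcases Finset.mem_insert.1 hz with rfl | hz
    · exact h2
    · exact hA.2 z hz

/-- finitely many conditions have their domain in a finite set -/
theorem finite_in (B : Finset Bit) : {c : Co | c.In (B : Set Bit)}.Finite := by
  classical
  have h : {c : Co | c.In (B : Set Bit)} ⊆ (fun c : Co => (c.one, c.zer)) ⁻¹'
      ((B.powerset ×ˢ B.powerset : Finset _) : Set (Finset Bit × Finset Bit)) := by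
    intro c hc
    simp only [Set.mem_preimage, Finset.coe_product, Set.mem_prod, Finset.mem_coe,
      Finset.mem_powerset]
    exact ⟨fun x hx => hc.1 x hx, fun x hx => hc.2 x hx⟩
  refine Set.Finite.subset (Set.Finite.preimage ?_ (Finset.finite_toSet _)) h
  intro c _ d _ hcd
  exact ext' (congrArg Prod.fst hcd) (congrArg Prod.snd hcd)

theorem countable_in {A : Set Bit} (hA : A.Countable) : {c : Co | c.In A}.Countable := by
  classical
  have h1 : {s : Finset Bit | ∀ x ∈ s, x ∈ A}.Countable := by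
    have : Countable A := hA.to_subtype
    refine (Set.countable_range (fun s : Finset A => s.image Subtype.val)).mono ?_
    intro s hs
    refine ⟨s.attach.image (fun x => ⟨x.1, hs x.1 x.2⟩), ?_⟩
    ext x
    simp only [Finset.mem_image, Finset.mem_attach, true_and, Subtype.exists, Subtype.mk.injEq]
    constructor
    · rintro ⟨y, hy, ⟨z, hz, h1⟩, rfl⟩
      rw [← h1]; exact hz
    · intro hx
      exact ⟨x, hs x hx, ⟨x, hx, rfl⟩, rfl⟩
  refine Set.Countable.mono (s₂ := (fun c : Co => (c.one, c.zer)) ⁻¹'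
    ({s : Finset Bit | ∀ x ∈ s, x ∈ A} ×ˢ {s : Finset Bit | ∀ x ∈ s, x ∈ A})) ?_ ?_
  · intro c hc
    exact ⟨hc.1, hc.2⟩
  · refine Set.Countable.preimage_of_injOn (h1.prod h1) ?_
    intro c _ d _ hcd
    exact ext' (congrArg Prod.fst hcd) (congrArg Prod.snd hcd)

theorem exists_finset (A : ℕ → Finset Bit) (hA : Monotone A) (c : Co)
    (hc : c.In (⋃ n, (A n : Set Bit))) : ∃ n, c.In (A n : Set Bit) := by
  have key : ∀ s : Finset Bit, (∀ x ∈ s, x ∈ ⋃ n, (A n : Set Bit)) → ∃ n, ∀ x ∈ s, x ∈ A n := by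
    intro s
    classical
    induction s using Finset.induction_on with
    | empty => intro _; exact ⟨0, by simp⟩
    | insert a s _ ih =>
      intro h
      obtain ⟨n, hn⟩ := ih fun x hx => h x (Finset.mem_insert_of_mem hx)
      obtain ⟨m, hm⟩ := Set.mem_iUnion.1 (h a (Finset.mem_insert_self _ _))
      refine ⟨max n m, fun x hx => ?_⟩
      rcases Finset.mem_insert.1 hx with rfl | hx
      · exact hA (le_max_right n m) hm
      · exact hA (le_max_left n m) (hn x hx)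
  obtain ⟨n, hn⟩ := key c.one hc.1
  obtain ⟨m, hm⟩ := key c.zer hc.2
  exact ⟨max n m, fun x hx => hA (le_max_left n m) (hn x hx),
    fun x hx => hA (le_max_right n m) (hm x hx)⟩

end Co

end Pool.Agent.Helper82.LG
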