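import Pool.Agent.Helper23.CK.BA
import Pool.Agent.Helper82.LG.Co

set_option autoImplicit false

/-!
# Coding families of truth values by subsets of `lam`
-/

namespace Pool.Agent.Helper82.LG

open Cardinal
open Helper23.CK

/-- the countable set `A` of bits supports the truth value `b` -/
def Supp (A : Set Bit) (b : RO Co) : Prop := ∀ c ∈ b.carrier, Co.cut A c ∈ b.carrier

/-- the codes of the truth values with countable support -/
abbrev Kd : Type 1 := (ℕ → Set.Iio θ × ℕ) × Set (Finset ℕ × Finset ℕ)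

open Classical in
/-- a finite set of bits -/
noncomputable def bits (u : ℕ → Set.Iio θ × ℕ) (s : Finset ℕ) : Finset Bit :=
  s.image fun n => ((u n).1.1, (u n).2)

/-- the truth value with a given code -/
noncomputable def dec0 (k : Kd) : RO Co :=
  RO.hull {c | ∃ t ∈ k.2, bits k.1 t.1 ⊆ c.one ∧ bits k.1 t.2 ⊆ c.zer}
    fun _ _ hq ⟨t, ht, h1, h2⟩ => ⟨t, ht, h1.trans hq.1, h2.trans hq.2⟩

theorem exists_bits (u : ℕ → Set.Iio θ × ℕ) (F : Finset Bit)
    (hF : ∀ x ∈ F, ∃ n, ((u n).1.1, (u n).2) = x) : ∃ s, bits u s = F := by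
  classical
  induction F using Finset.induction_on with
  | empty => exact ⟨∅, by simp [bits]⟩
  | insert a F _ ih =>
    obtain ⟨s, hs⟩ := ih fun x hx => hF x (Finset.mem_insert_of_mem hx)
    obtain ⟨n, hn⟩ := hF a (Finset.mem_insert_self _ _)
    refine ⟨insert n s, ?_⟩
    unfold bits at hs ⊢
    rw [Finset.image_insert, hn, ← hs]

theorem dec0_surj {A : Set Bit} (hA : A.Countable) {b : RO Co} (hb : Supp A b) :
    ∃ k, dec0 k = b := by
  have hB : ({x : Set.Iio θ × ℕ | (x.1.1, x.2) ∈ A} ∪ {(⟨0, theta_pos⟩, 0)}).Countable := by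
    refine Set.Countable.union ?_ (Set.countable_singleton _)
    refine hA.preimage_of_injOn (f := fun x : Set.Iio θ × ℕ => ((x.1.1, x.2) : Bit)) ?_
    rintro ⟨⟨a, ha⟩, k⟩ _ ⟨⟨a', ha'⟩, k'⟩ _ h
    have h1 : a = a' := congrArg Prod.fst h
    have h2 : k = k' := congrArg Prod.snd h
    subst h1 h2
    rfl
  obtain ⟨u, hu⟩ := hB.exists_eq_range ⟨_, Or.inr rfl⟩
  have key : ∀ x : Bit, x ∈ A → x.1 < θ → ∃ n, ((u n).1.1, (u n).2) = x := by
    intro x hx hθ
    have h1 : ((⟨x.1, hθ⟩, x.2) : Set.Iio θ × ℕ) ∈ Set.range u := hu ▸ Or.inl hx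
    obtain ⟨n, hn⟩ := h1
    exact ⟨n, by rw [hn]⟩
  refine ⟨(u, {t | ∃ d ∈ b.carrier, d.one = bits u t.1 ∧ d.zer = bits u t.2}), RO.ext' ?_⟩
  ext c
  constructor
  · intro h
    refine (b.regular c).2 fun q hq => ?_
    obtain ⟨r, hr, t, ⟨d, hd, e1, e2⟩, h1, h2⟩ := h q hq
    refine ⟨r, hr, b.lower (show r ≤ d from ⟨?_, ?_⟩) hd⟩
    · rw [e1]; exact h1
    · rw [e2]; exact h2
  · intro h
    have hc := hb c h
    obtain ⟨s, hs⟩ := exists_bits u (Co.cut A c).one fun x hx =>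
      key x ((Co.cut_in A c).1 x hx) ((Co.cut A c).b1 x hx)
    obtain ⟨t, ht⟩ := exists_bits u (Co.cut A c).zer fun x hx =>
      key x ((Co.cut_in A c).2 x hx) ((Co.cut A c).b0 x hx)
    refine RO.subset_hull ⟨(s, t), ⟨Co.cut A c, hc, hs.symm, ht.symm⟩, ?_, ?_⟩
    · show bits u s ⊆ c.one
      rw [hs]; exact (Co.le_cut A c).1
    · show bits u t ⊆ c.zer
      rw [ht]; exact (Co.le_cut A c).2

theorem aleph0_le_two_power : ℵ₀ ≤ (2 : Cardinal.{1}) ^ lift.{1} lam :=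
  aleph0_le_llam.trans (cantor _).le

theorem mk_Kd : #Kd ≤ 2 ^ lift.{1} lam := by
  have h1 : #(Set.Iio θ × ℕ) ≤ 2 ^ lift.{1} lam := by
    rw [mk_prod, mk_Iio_ordinal]
    simp only [lift_uzero, mk_nat, lift_aleph0]
    refine (mul_le_mul' (?_ : _ ≤ (2 : Cardinal.{1}) ^ lift.{1} lam) aleph0_le_two_power).trans_eq
      (mul_eq_self aleph0_le_two_power)
    unfold θ
    rw [card_ord, lift_succ]
    exact Order.succ_le_of_lt (cantor _)
  have h2 : #(ℕ → Set.Iio θ × ℕ) ≤ 2 ^ lift.{1} lam := by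
    rw [mk_arrow]
    simp only [lift_uzero, mk_nat, lift_aleph0]
    calc #(Set.Iio θ × ℕ) ^ ℵ₀ ≤ (2 ^ lift.{1} lam) ^ ℵ₀ := power_le_power_right h1
      _ = 2 ^ lift.{1} lam := by rw [← power_mul, mul_aleph0_eq aleph0_le_llam]
  have h3 : lift.{1} #(Set (Finset ℕ × Finset ℕ)) ≤ 2 ^ lift.{1} lam := by
    rw [mk_set, lift_power, Cardinal.lift_ofNat]
    refine power_le_power_left two_ne_zero ?_
    rw [lift_le]
    exact (mk_le_aleph0).trans aleph0_le_lam
  rw [mk_prod, lift_uzero]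
  exact (mul_le_mul' h2 h3).trans_eq (mul_eq_self aleph0_le_two_power)

/-- all the families of truth values with countable supports are coded by subsets of `lam` -/
theorem exists_dcd : ∃ dcd : Set O → O → RO Co, ∀ f : O → RO Co,
    (∀ i < lam.ord, ∃ A : Set Bit, A.Countable ∧ Supp A (f i)) →
    ∃ X ⊆ Set.Iio lam.ord, ∀ i < lam.ord, dcd X i = f i := by
  classical
  have h1 : #(Set.Iio lam.ord → Kd) ≤ #(Set (Set.Iio lam.ord)) := by
    rw [mk_set, mk_arrow, mk_Iio_ordinal, card_ord]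
    simp only [lift_id]
    calc #Kd ^ lift.{1} lam ≤ (2 ^ lift.{1} lam) ^ lift.{1} lam := power_le_power_right mk_Kd
      _ = 2 ^ lift.{1} lam := by rw [← power_mul, mul_eq_self aleph0_le_llam]
  obtain ⟨e⟩ := h1
  have hne : Nonempty Kd := ⟨(fun _ => (⟨0, theta_pos⟩, 0), ∅)⟩
  have hsurj := Function.invFun_surjective e.injective
  refine ⟨fun X i => if h : i < lam.ord then
    dec0 (Function.invFun e {j : Set.Iio lam.ord | j.1 ∈ X} ⟨i, h⟩) else ⊤, fun f hf => ?_⟩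
  have hk : ∀ i : Set.Iio lam.ord, ∃ k, dec0 k = f i.1 := by
    intro i
    obtain ⟨A, hA, hb⟩ := hf i.1 i.2
    exact dec0_surj hA hb
  choose k hk using hk
  obtain ⟨X, hX⟩ := hsurj k
  refine ⟨Subtype.val '' X, ?_, fun i hi => ?_⟩
  · rintro _ ⟨j, _, rfl⟩
    exact j.2
  · have h2 : {j : Set.Iio lam.ord | j.1 ∈ Subtype.val '' X} = X := by
      ext j
      constructor
      · rintro ⟨j', h, e⟩
        exact (Subtype.ext e : j' = j) ▸ h
      · intro h
        exact ⟨j, h, rfl⟩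
    have h3 : (fun (X : Set O) (i : O) => if h : i < lam.ord then
        dec0 (Function.invFun e {j : Set.Iio lam.ord | j.1 ∈ X} ⟨i, h⟩) else ⊤)
        (Subtype.val '' X) i = dec0 (Function.invFun e
          {j : Set.Iio lam.ord | j.1 ∈ Subtype.val '' X} ⟨i, hi⟩) := dif_pos hi
    rw [h3, h2, hX]
    exact hk ⟨i, hi⟩

end Pool.Agent.Helper82.LG
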