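import Pool.Agent.Helper23.CK.Defs

set_option autoImplicit false

/-!
# Ladder guessing at a singular cardinal: the statements inside a model of set theory

All the definitions are statements about elements of a structure `(M, E)` (`E` is its membership
relation) that only quantify over `M`.  `IsFun E f A B` (`f` is a function from `A` to `B`),
`App E f x y` (`(x, y) ∈ f`) and `IsOmega E o` (`o = ω`) are defined in `WT.Defs`, `ZFC`,
`IsOrdinal`, `CardLe` and the membership relation `Mem M` of a set `M` are defined in `CK.Defs`.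
-/

universe u v

namespace Pool.Agent.Helper82.LG

open Helper23.WT (IsFun App IsOmega)
open Helper23.CK (IsOrdinal CardLe)

section

variable {M : Type v} (E : M → M → Prop)

/-- `l` is a cardinal: an ordinal that cannot be injected into a smaller ordinal -/
def IsCard (l : M) : Prop := IsOrdinal E l ∧ ∀ a, E a l → ¬ CardLe E l a

/-- `l` and `t` are cardinals and `t = l⁺`: every smaller ordinal can be injected into `l` -/
def IsSuccCard (l t : M) : Prop :=
  IsCard E l ∧ IsCard E t ∧ E l t ∧ ∀ a, E a t → CardLe E a l

/-- the ordinal `a` has cofinality `ω = o`: there is a function from `ω` to `a` such that every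
element of `a` is smaller than some value -/
def CofOmega (o a : M) : Prop :=
  ∃ h, IsFun E h o a ∧ ∀ b, E b a → ∃ n c, App E h n c ∧ E b c

/-- `p` is the set of all subsets of `a` -/
def IsPow (a p : M) : Prop := ∀ x, E x p ↔ ∀ y, E y x → E y a

/-- `2 ^ l = t`: the power set of `l` and the cardinal `t` can be injected into each other -/
def PowEq (l t : M) : Prop := ∃ p, IsPow E l p ∧ CardLe E p t ∧ CardLe E t p

/-- `l` is not a strong limit: there is `a < l` with `2 ^ a ≥ l` -/
def NotStrongLimit (l : M) : Prop := ∃ a p, E a l ∧ IsPow E a p ∧ CardLe E l p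

/-- `C` is a closed unbounded subset of the cardinal `t` -/
def IsClub (t C : M) : Prop :=
  (∀ x, E x C → E x t) ∧ (∀ b, E b t → ∃ c, E c C ∧ E b c) ∧
    ∀ d, E d t → (∃ b, E b d) → (∀ b, E b d → ∃ c, E c C ∧ E b c ∧ E c d) → E d C

/-- `S` is a stationary subset of the cardinal `t` -/
def IsStat (t S : M) : Prop := (∀ x, E x S → E x t) ∧ ∀ C, IsClub E t C → ∃ x, E x S ∧ E x C

/-- `L` is a ladder system on the set `S` of ordinals of cofinality `ω = o`: it assigns to every
`α ∈ S` a strictly increasing function from `ω` to `α` with cofinal range -/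
def IsLadderSystem (o S L : M) : Prop :=
  ∀ α, E α S → ∃ l, App E L α l ∧ (∀ l', App E L α l' → l' = l) ∧ IsFun E l o α ∧
    (∀ m n a b, E m n → App E l m a → App E l n b → E a b) ∧
    ∀ b, E b α → ∃ n a, App E l n a ∧ E b a

/-- `s = n + 1` -/
def IsNext (n s : M) : Prop := ∀ z, E z s ↔ E z n ∨ z = n

/-- `e` is the set of the even elements of `ω = o`: `0` is even, and `n + 1` is even if and only if
`n` is not even -/
def IsEvens (o e : M) : Prop :=
  (∀ n, E n e → E n o) ∧ (∀ z, (∀ y, ¬ E y z) → E z e) ∧
    ∀ n s, E n o → IsNext E n s → (E s e ↔ ¬ E n e)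

/-- `w = {0, 1}` -/
def IsTwo (w : M) : Prop :=
  ∃ z u, (∀ y, ¬ E y z) ∧ (∀ y, E y u ↔ y = z) ∧ ∀ y, E y w ↔ y = z ∨ y = u

/-- the ladder system `L` on `S` is `2`-pair-guessing, where `o = ω`, `e` is the set of the even
natural numbers, `w = {0, 1}` and `S` is a set of ordinals below the cardinal `t`: for all
`f : t → {0, 1}` the `α ∈ S` with `f(α_n) = f(α_{n+1})` for all even `n` (where `α_0 < α_1 < …` is
the ladder at `α`) form a stationary subset of `t`, that is every closed unbounded set contains
such an `α` -/
def PairGuessing (o e w t S L : M) : Prop :=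
  ∀ f, IsFun E f t w → ∀ C, IsClub E t C → ∃ α l, E α S ∧ E α C ∧ App E L α l ∧
    ∀ n s a b c d, E n e → IsNext E n s → App E l n a → App E l s b → App E f a c →
      App E f b d → c = d

/-- in the model `(M, E)` there are a singular cardinal `l` of cofinality `ω` that is not a strong
limit with `2 ^ l = t`, where `t = l⁺`, and a stationary set `S ⊆ t` of ordinals of cofinality `ω`
such that no ladder system on `S` is `2`-pair-guessing -/
def NoPairGuessing : Prop :=
  ∃ o e w l t S : M, IsOmega E o ∧ IsEvens E o e ∧ IsTwo E w ∧ IsSuccCard E l t ∧ E o l ∧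
    CofOmega E o l ∧ NotStrongLimit E l ∧ PowEq E l t ∧ (∀ α, E α S → CofOmega E o α) ∧
    IsStat E t S ∧ ∀ L, IsLadderSystem E o S L → ¬ PairGuessing E o e w t S L

end

end Pool.Agent.Helper82.LG
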