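import Pool.Agent.Helper82.LG.Co

/-!
# Closure of partial orders and distributivity
-/

set_option autoImplicit false

namespace Pool.Agent.Helper82.LG

open Cardinal

/-- every nonempty chain with at most `lam` elements has a lower bound -/
def Clo (Q : Type 1) [Preorder Q] : Prop :=
  ∀ K : Set Q, IsChain (· ≤ ·) K → Sz K → K.Nonempty → ∃ r, ∀ k ∈ K, r ≤ k

theorem dist {Q Y : Type 1} [Preorder Q] (hQ : Clo Q) {I : Set Y} (hI : Sz I) (D : Y → Q → Prop)
    (hop : ∀ i q q', q' ≤ q → D i q → D i q') (hde : ∀ i ∈ I, ∀ q, ∃ q' ≤ q, D i q') (q : Q) :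
    ∃ q' ≤ q, ∀ i ∈ I, D i q' := by
  classical
  let T := {t : Set Y × Q // t.1 ⊆ I ∧ (∀ i ∈ t.1, D i t.2) ∧ t.2 ≤ q}
  let r : T → T → Prop := fun a b => a = b ∨ (a.1.1 ⊂ b.1.1 ∧ b.1.2 ≤ a.1.2)
  have htr : ∀ {a b c : T}, r a b → r b c → r a c := by
    rintro a b c (rfl | ⟨h1, h2⟩) (rfl | ⟨h3, h4⟩)
    · exact Or.inl rfl
    · exact Or.inr ⟨h3, h4⟩
    · exact Or.inr ⟨h1, h2⟩
    · exact Or.inr ⟨h1.trans h3, h4.trans h2⟩
  obtain ⟨m, hm⟩ := exists_maximal_of_chains_bounded (r := r) (fun c hc => by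
    rcases c.eq_empty_or_nonempty with rfl | ⟨b0, hb0⟩
    · exact ⟨⟨(∅, q), Set.empty_subset _, fun i hi => hi.elim, le_rfl⟩, fun a ha => ha.elim⟩
    let J : Set Y := ⋃ a ∈ c, a.1.1
    have hJ : ∀ a ∈ c, a.1.1 ⊆ J := fun a ha => Set.subset_biUnion_of_mem (u := fun a : T => a.1.1) ha
    by_cases hat : ∃ a ∈ c, a.1.1 = J
    · obtain ⟨a, ha, haJ⟩ := hat
      refine ⟨a, fun b hb => ?_⟩
      by_cases hab : b = a
      · exact Or.inl hab
      rcases hc hb ha hab with h | h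
      · exact h
      · rcases h with h | ⟨h, _⟩
        · exact Or.inl h.symm
        · rw [haJ] at h
          exact (h.2 (hJ b hb)).elim
    · push Not at hat
      have hex : ∀ i ∈ J, ∃ a ∈ c, i ∈ a.1.1 := fun i hi => by
        obtain ⟨a, ha, hi⟩ := Set.mem_iUnion₂.1 hi
        exact ⟨a, ha, hi⟩
      have hne : J.Nonempty := by
        by_contra hne
        rw [Set.not_nonempty_iff_eq_empty] at hne
        refine hat b0 hb0 ?_
        rw [hne]
        exact Set.subset_empty_iff.1 (hne ▸ hJ b0 hb0)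
      have hJI : J ⊆ I := Set.iUnion₂_subset fun a _ => a.2.1
      let f : Y → Q := fun i => if h : i ∈ J then (hex i h).choose.1.2 else q
      have hf : ∀ i ∈ J, ∃ a ∈ c, i ∈ a.1.1 ∧ f i = a.1.2 := fun i hi =>
        ⟨(hex i hi).choose, (hex i hi).choose_spec.1, (hex i hi).choose_spec.2, dif_pos hi⟩
      obtain ⟨s, hs⟩ := hQ (f '' J) (by
        rintro _ ⟨i, hi, rfl⟩ _ ⟨j, hj, rfl⟩ hne'
        obtain ⟨a, ha, _, ea⟩ := hf i hi
        obtain ⟨b, hb, _, eb⟩ := hf j hj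
        rw [ea, eb] at hne' ⊢
        have hab : a ≠ b := fun h => hne' (by rw [h])
        rcases hc ha hb hab with h | h
        · rcases h with h | ⟨_, h⟩
          · exact (hab h).elim
          · exact Or.inr h
        · rcases h with h | ⟨_, h⟩
          · exact (hab h.symm).elim
          · exact Or.inl h) ((hI.mono hJI).image f) (hne.image f)
      have hs' : ∀ i ∈ J, ∃ a ∈ c, i ∈ a.1.1 ∧ s ≤ a.1.2 := fun i hi => by
        obtain ⟨a, ha, h1, h2⟩ := hf i hi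
        exact ⟨a, ha, h1, h2 ▸ hs _ ⟨i, hi, rfl⟩⟩
      refine ⟨⟨(J, s), hJI, fun i hi => ?_, ?_⟩, fun b hb => Or.inr ?_⟩
      · obtain ⟨a, _, h1, h2⟩ := hs' i hi
        exact hop i _ _ h2 (a.2.2.1 i h1)
      · obtain ⟨i, hi⟩ := hne
        obtain ⟨a, _, _, h2⟩ := hs' i hi
        exact h2.trans a.2.2.2
      · have hbJ : ¬ J ⊆ b.1.1 := fun h => hat b hb (Set.Subset.antisymm (hJ b hb) h)
        obtain ⟨i, hi, hib⟩ := Set.not_subset.1 hbJ
        obtain ⟨a, ha, h1, h2⟩ := hs' i hi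
        have hba : b ≠ a := fun h => hib (h ▸ h1)
        rcases hc hb ha hba with h | h
        · rcases h with h | ⟨_, h⟩
          · exact (hba h).elim
          · exact ⟨⟨hJ b hb, hbJ⟩, h2.trans h⟩
        · rcases h with h | ⟨h, _⟩
          · exact (hba h.symm).elim
          · exact (hib (h.1 h1)).elim) (fun {a b c} => htr)
  have hall : ∀ i ∈ I, i ∈ m.1.1 := by
    intro i hi
    by_contra hc
    obtain ⟨q', hq', hD⟩ := hde i hi m.1.2
    have h1 : r ⟨(insert i m.1.1, q'), Set.insert_subset hi m.2.1, fun j hj => by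
        rcases Set.mem_insert_iff.1 hj with rfl | hj
        · exact hD
        · exact hop j _ _ hq' (m.2.2.1 j hj), hq'.trans m.2.2.2⟩ m :=
      hm _ (Or.inr ⟨Set.ssubset_insert hc, hq'⟩)
    rcases h1 with h1 | ⟨h1, _⟩
    · have h2 : insert i m.1.1 = m.1.1 := congrArg (fun t : T => t.1.1) h1
      exact hc (h2 ▸ Set.mem_insert i m.1.1)
    · exact hc (h1.1 (Set.mem_insert _ _))
  exact ⟨m.1.2, m.2.2.2, fun i hi => m.2.2.1 i (hall i hi)⟩

theorem Clo.seq {Q : Type 1} [Preorder Q] (hQ : Clo Q) (f : ℕ → Q) (hf : ∀ n, f (n + 1) ≤ f n) :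
    ∃ r, ∀ n, r ≤ f n := by
  have hanti : Antitone f := antitone_nat_of_succ_le hf
  obtain ⟨r, hr⟩ := hQ (Set.range f) (by
    rintro _ ⟨n, rfl⟩ _ ⟨m, rfl⟩ _
    rcases le_total n m with h | h
    · exact Or.inr (hanti h)
    · exact Or.inl (hanti h)) (sz_countable (Set.countable_range f)) (Set.range_nonempty f)
  exact ⟨r, fun n => hr _ ⟨n, rfl⟩⟩

section

variable {R : Type 1} [Preorder R] {W : Type 1} (sup : W → Finset Bit)
  (D : ℕ → R → Co → W → Prop)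

/-- the countable set `A` of bits decides the tasks `D` for the condition `r` -/
def Dec (r : R) (A : Set Bit) : Prop :=
  A.Countable ∧ (∀ x ∈ A, ∀ k, (x.1, k) ∈ A) ∧
    ∀ m c, c.In A → ∃ c' ≤ c, c'.In A ∧ ∃ w, (∀ x ∈ sup w, x ∈ A) ∧ D m r c' w

variable {sup D}

theorem Dec.mono {r r' : R} {A : Set Bit} (h : Dec sup D r A) (hr : r' ≤ r)
    (mono : ∀ m r r' c w, r' ≤ r → D m r c w → D m r' c w) : Dec sup D r' A :=
  ⟨h.1, h.2.1, fun m c hc => by
    obtain ⟨c', h1, h2, w, h3, h4⟩ := h.2.2 m c hc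
    exact ⟨c', h1, h2, w, h3, mono _ _ _ _ _ hr h4⟩⟩

theorem closeoff (hR : Clo R) (mono : ∀ m r r' c w, r' ≤ r → D m r c w → D m r' c w)
    (dense : ∀ m r c, ∃ r' ≤ r, ∃ c' ≤ c, ∃ w, D m r' c' w) (r₀ : R) :
    ∃ r ≤ r₀, ∃ A, Dec sup D r A := by
  classical
  -- finitely many tasks
  have hlist : ∀ (l : List (ℕ × Co)) (r : R), ∃ r' ≤ r, ∃ B : Finset Bit, ∀ t ∈ l, ∃ c' ≤ t.2,
      c'.In (B : Set Bit) ∧ ∃ w, sup w ⊆ B ∧ D t.1 r' c' w := by
    intro l
    induction l with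
    | nil => intro r; exact ⟨r, le_rfl, ∅, fun t ht => by simp at ht⟩
    | cons t l ih =>
      intro r
      obtain ⟨r1, hr1, c1, hc1, w1, hw1⟩ := dense t.1 r t.2
      obtain ⟨r2, hr2, B, hB⟩ := ih r1
      refine ⟨r2, hr2.trans hr1, B ∪ (c1.one ∪ c1.zer ∪ sup w1), fun t' ht' => ?_⟩
      rcases List.mem_cons.1 ht' with rfl | ht'
      · refine ⟨c1, hc1, ⟨fun x hx => ?_, fun x hx => ?_⟩, w1, fun x hx => ?_,
          mono _ _ _ _ _ hr2 hw1⟩
        · simp [hx]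
        · simp [hx]
        · simp [hx]
      · obtain ⟨c', h1, h2, w, h3, h4⟩ := hB t' ht'
        exact ⟨c', h1, h2.mono (by simp), w, h3.trans (by simp), h4⟩
  -- one step
  have hstep : ∀ (n : ℕ) (s : R × Finset Bit), ∃ s' : R × Finset Bit, s'.1 ≤ s.1 ∧ s.2 ⊆ s'.2 ∧
      (∀ x ∈ s.2, ∀ k ≤ n, (x.1, k) ∈ s'.2) ∧ ∀ m ≤ n, ∀ c, Co.In (s.2 : Set Bit) c → ∃ c' ≤ c,
        c'.In (s'.2 : Set Bit) ∧ ∃ w, sup w ⊆ s'.2 ∧ D m s'.1 c' w := by
    rintro n ⟨r, B⟩
    have hfin : ({m : ℕ | m ≤ n} ×ˢ {c : Co | c.In (B : Set Bit)}).Finite :=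
      (Set.finite_Iic n).prod (Co.finite_in B)
    obtain ⟨r', hr', B', hB'⟩ := hlist hfin.toFinset.toList r
    refine ⟨(r', B ∪ B' ∪ B.biUnion fun x => (Finset.range (n + 1)).image fun k => (x.1, k)),
      hr', fun x hx => by simp [hx], fun x hx k hk => ?_, fun m hm c hc => ?_⟩
    · refine Finset.mem_union_right _ (Finset.mem_biUnion.2 ⟨x, hx, Finset.mem_image.2
        ⟨k, Finset.mem_range.2 (by omega), rfl⟩⟩)
    · obtain ⟨c', h1, h2, w, h3, h4⟩ := hB' (m, c) (by simp [hm]; exact hc)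
      refine ⟨c', h1, h2.mono fun x hx => ?_, w, fun x hx => ?_, h4⟩
      · exact Finset.mem_coe.2 (Finset.mem_union_left _ (Finset.mem_union_right _
          (Finset.mem_coe.1 hx)))
      · exact Finset.mem_union_left _ (Finset.mem_union_right _ (h3 hx))
  choose nx h1 h2 h3 h4 using hstep
  let s : ℕ → R × Finset Bit := fun n => Nat.rec (r₀, ∅) (fun k t => nx k t) n
  have hs : ∀ n, s (n + 1) = nx n (s n) := fun n => rfl
  have hanti : ∀ n, (s (n + 1)).1 ≤ (s n).1 := fun n => by rw [hs]; exact h1 n _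
  have hmono : Monotone fun n => (s n).2 := monotone_nat_of_le_succ fun n => by
    rw [hs]; exact h2 n _
  obtain ⟨r, hr⟩ := hR.seq (fun n => (s n).1) hanti
  refine ⟨r, hr 0, ⋃ n, ((s n).2 : Set Bit), Set.countable_iUnion fun n =>
    (Finset.finite_toSet _).countable, fun x hx k => ?_, fun m c hc => ?_⟩
  · obtain ⟨n, hn⟩ := Set.mem_iUnion.1 hx
    refine Set.mem_iUnion.2 ⟨max n k + 1, ?_⟩
    rw [hs]
    exact h3 _ _ x (hmono (le_max_left n k) hn) k (le_max_right n k)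
  · obtain ⟨n, hn⟩ := Co.exists_finset (fun n => (s n).2) hmono c hc
    have hn' : c.In ((s (max n m)).2 : Set Bit) := hn.mono (by
      exact_mod_cast hmono (le_max_left n m))
    obtain ⟨c', h5, h6, w, h7, h8⟩ := h4 (max n m) (s (max n m)) m (le_max_right n m) c hn'
    rw [← hs] at h6 h7 h8
    refine ⟨c', h5, h6.mono (Set.subset_iUnion (fun n => ((s n).2 : Set Bit)) (max n m + 1)), w,
      fun x hx => Set.mem_iUnion.2 ⟨max n m + 1, h7 hx⟩, mono m _ r c' w (hr (max n m + 1)) h8⟩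

end

/-- the simultaneous decision of at most `lam` families of tasks -/
theorem decide_all {R Y : Type 1} [Preorder R] (hR : Clo R) {W : Type 1} (sup : W → Finset Bit)
    {I : Set Y} (hI : Sz I) (D : Y → ℕ → R → Co → W → Prop)
    (mono : ∀ i m r r' c w, r' ≤ r → D i m r c w → D i m r' c w)
    (dense : ∀ i ∈ I, ∀ m r c, ∃ r' ≤ r, ∃ c' ≤ c, ∃ w, D i m r' c' w) (r₀ : R) :
    ∃ r ≤ r₀, ∀ i ∈ I, ∃ A, Dec sup (D i) r A :=
  dist hR hI (fun i r => ∃ A, Dec sup (D i) r A)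
    (fun i _ _ h ⟨A, hA⟩ => ⟨A, hA.mono h (mono i)⟩)
    (fun i hi r => closeoff hR (mono i) (dense i hi) r) r₀

end Pool.Agent.Helper82.LG
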