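import Pool.Agent.Helper82.LG.Lim

/-!
# Smallness and closure ordinals
-/

set_option autoImplicit false

namespace Pool.Agent.Helper82.LG

open Cardinal Raw

instance small_Co : Small.{0} Co := by
  let T := (Set.Iio θ × ℕ → Prop) × (Set.Iio θ × ℕ → Prop)
  let F : Co → T := fun c => (fun y => (y.1.1, y.2) ∈ c.one, fun y => (y.1.1, y.2) ∈ c.zer)
  refine small_of_injective (f := F) fun c d h => ?_
  have h1 : ∀ y : Set.Iio θ × ℕ, (y.1.1, y.2) ∈ c.one ↔ (y.1.1, y.2) ∈ d.one := fun y =>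
    iff_of_eq (congrFun (congrArg Prod.fst h) y)
  have h2 : ∀ y : Set.Iio θ × ℕ, (y.1.1, y.2) ∈ c.zer ↔ (y.1.1, y.2) ∈ d.zer := fun y =>
    iff_of_eq (congrFun (congrArg Prod.snd h) y)
  refine Co.ext' ?_ ?_
  · ext ⟨a, k⟩
    exact ⟨fun h => (h1 (⟨a, c.b1 _ h⟩, k)).1 h, fun h => (h1 (⟨a, d.b1 _ h⟩, k)).2 h⟩
  · ext ⟨a, k⟩
    exact ⟨fun h => (h2 (⟨a, c.b0 _ h⟩, k)).1 h, fun h => (h2 (⟨a, d.b0 _ h⟩, k)).2 h⟩

instance small_Rs (ζ : O) : Small.{0} (Rs ζ) := by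
  let b : O := ⨆ η : Set.Iio ζ, (stg η.1).bd
  let S := Set.Iio ζ × Set.Iio b
  let T := Set.Iio θ × (Set.Iio θ → Prop) × (S → Prop) × (S → Set.Iio θ → ℕ) ×
    (S → Set.Iio θ → Prop)
  let F : Rs ζ → T := fun p => (⟨p.1.ht, (Rs_sub p.2).1.ht_lt⟩, fun α => α.1 ∈ p.1.st,
    fun x => (x.1.1, x.2.1) ∈ p.1.sp, fun x γ => p.1.dg (x.1.1, x.2.1) γ.1,
    fun x α => α.1 ∈ p.1.cl (x.1.1, x.2.1))
  have hS : ∀ p ∈ Rs ζ, ∀ x ∈ p.sp, x.1 < ζ ∧ x.2 < b := by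
    intro p hp x hx
    obtain ⟨h1, h2⟩ := mem_Rs.1 hp
    refine ⟨h2 x hx, (h1.2 x hx).1.1.trans_le ?_⟩
    exact le_ciSup (f := fun η : Set.Iio ζ => (stg η.1).bd) Ordinal.bddAbove_of_small ⟨x.1, h2 x hx⟩
  refine small_of_injective (f := F) ?_
  rintro ⟨p, hp⟩ ⟨q, hq⟩ h
  have hpn := (Rs_sub hp).1
  have hqn := (Rs_sub hq).1
  have h1 : p.ht = q.ht := congrArg (fun t : T => t.1.1) h
  have h2 : ∀ α : Set.Iio θ, α.1 ∈ p.st ↔ α.1 ∈ q.st := fun α =>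
    iff_of_eq (congrFun (congrArg (fun t : T => t.2.1) h) α)
  have h3 : ∀ x : S, (x.1.1, x.2.1) ∈ p.sp ↔ (x.1.1, x.2.1) ∈ q.sp := fun x =>
    iff_of_eq (congrFun (congrArg (fun t : T => t.2.2.1) h) x)
  have h4 : ∀ (x : S) (γ : Set.Iio θ), p.dg (x.1.1, x.2.1) γ.1 = q.dg (x.1.1, x.2.1) γ.1 :=
    fun x γ => congrFun (congrFun (congrArg (fun t : T => t.2.2.2.1) h) x) γ
  have h5 : ∀ (x : S) (γ : Set.Iio θ), γ.1 ∈ p.cl (x.1.1, x.2.1) ↔ γ.1 ∈ q.cl (x.1.1, x.2.1) :=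
    fun x γ => iff_of_eq (congrFun (congrFun (congrArg (fun t : T => t.2.2.2.2) h) x) γ)
  have hsp : p.sp = q.sp := by
    ext x
    constructor
    · intro hx
      obtain ⟨ha, hb⟩ := hS p hp x hx
      exact (h3 (⟨x.1, ha⟩, ⟨x.2, hb⟩)).1 hx
    · intro hx
      obtain ⟨ha, hb⟩ := hS q hq x hx
      exact (h3 (⟨x.1, ha⟩, ⟨x.2, hb⟩)).2 hx
  refine Subtype.ext (Raw.ext' h1 ?_ hsp ?_ ?_)
  · ext α
    constructor
    · intro hα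
      exact (h2 ⟨α, (hpn.st_le α hα).trans_lt hpn.ht_lt⟩).1 hα
    · intro hα
      exact (h2 ⟨α, (hqn.st_le α hα).trans_lt hqn.ht_lt⟩).2 hα
  · funext x γ
    by_cases hx : x ∈ p.sp
    · obtain ⟨ha, hb⟩ := hS p hp x hx
      by_cases hγ : γ < θ
      · exact h4 (⟨x.1, ha⟩, ⟨x.2, hb⟩) ⟨γ, hγ⟩
      · rw [hpn.dg0 x γ (Or.inr (hpn.ht_lt.le.trans (not_lt.1 hγ))),
          hqn.dg0 x γ (Or.inr (hqn.ht_lt.le.trans (not_lt.1 hγ)))]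
    · rw [hpn.dg0 x γ (Or.inl hx), hqn.dg0 x γ (Or.inl (hsp ▸ hx))]
  · funext x
    by_cases hx : x ∈ p.sp
    · obtain ⟨ha, hb⟩ := hS p hp x hx
      ext γ
      constructor
      · intro hγ
        exact (h5 (⟨x.1, ha⟩, ⟨x.2, hb⟩) ⟨γ, (hpn.cl_le x γ hγ).trans_lt hpn.ht_lt⟩).1 hγ
      · intro hγ
        exact (h5 (⟨x.1, ha⟩, ⟨x.2, hb⟩) ⟨γ, (hqn.cl_le x γ hγ).trans_lt hqn.ht_lt⟩).2 hγ
    · rw [hpn.cl0 x hx, hqn.cl0 x (hsp ▸ hx)]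

/-- a small set can be listed by the ordinals below a bound -/
theorem exists_enum {T : Type 1} [Nonempty T] (L : Set T) [Small.{0} L] :
    ∃ t : (O → T) × O, ∀ x ∈ L, ∃ i < t.2, t.1 i = x := by
  classical
  let b : O := (#(Shrink.{0} L)).ord
  have h1 : #(Set.Iio b) = #L := by
    rw [Cardinal.mk_Iio_ordinal, card_ord]
    have h2 : lift.{0} #L = lift.{1} #(Shrink.{0} L) := Cardinal.lift_mk_eq'.2 ⟨equivShrink.{0} L⟩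
    rw [← h2, Cardinal.lift_id'.{0, 1}]
  obtain ⟨e⟩ := Cardinal.eq.1 h1
  refine ⟨(fun i => if h : i < b then (e ⟨i, h⟩).1 else Classical.arbitrary T, b), fun x hx => ?_⟩
  refine ⟨(e.symm ⟨x, hx⟩).1, (e.symm ⟨x, hx⟩).2, ?_⟩
  show (if h : (e.symm ⟨x, hx⟩).1 < b then (e ⟨_, h⟩).1 else _) = x
  rw [dif_pos (show (e.symm ⟨x, hx⟩).1 < b from (e.symm ⟨x, hx⟩).2)]
  have : e ⟨(e.symm ⟨x, hx⟩).1, (e.symm ⟨x, hx⟩).2⟩ = ⟨x, hx⟩ := e.apply_symm_apply _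
  rw [this]

instance small_LabS (ζ : O) : Small.{0} (LabS (Rs ζ)) := by
  let T := Set.Iio θ → Set.Iio θ → Set.Iio θ → Rs ζ → Co → Prop
  let F : LabS (Rs ζ) → T := fun Λ α a a' r c => Λ.1 α.1 a.1 a'.1 r.1 c
  refine small_of_injective (f := F) ?_
  rintro ⟨Λ, hΛ⟩ ⟨Λ', hΛ'⟩ h
  refine Subtype.ext ?_
  funext α a a' r c
  refine propext ⟨fun h1 => ?_, fun h1 => ?_⟩
  · obtain ⟨h2, h3, h4, h5⟩ := hΛ α a a' r c h1
    have h6 := congrFun (congrFun (congrFun (congrFun (congrFun h ⟨α, h2⟩) ⟨a, h3⟩) ⟨a', h4⟩)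
      ⟨r, h5⟩) c
    exact (iff_of_eq h6).1 h1
  · obtain ⟨h2, h3, h4, h5⟩ := hΛ' α a a' r c h1
    have h6 := congrFun (congrFun (congrFun (congrFun (congrFun h ⟨α, h2⟩) ⟨a, h3⟩) ⟨a', h4⟩)
      ⟨r, h5⟩) c
    exact (iff_of_eq h6).2 h1

/-- all the names over the conditions of small level are listed -/
theorem lab_surj {ζ : O} {Λ : Lab} (hΛ : Λ ∈ LabS (Rs ζ)) : ∃ i < (stg ζ).bd, lab (ζ, i) = Λ := by
  have := mkStage_spec (exists_enum (LabS (Rs ζ))) Λ hΛ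
  rw [← stg_eq] at this
  exact this

/-! ### closure ordinals -/

/-- the iteration -/
noncomputable def iterD (φ : O → O) (δ₀ : O) : O → O :=
  WellFounded.fix (C := fun _ => O) (r := (· < ·)) wellFounded_lt fun ξ D =>
    max δ₀ (⨆ η : Set.Iio ξ, Order.succ (max (D η.1 η.2) (⨆ ν : Set.Iic (D η.1 η.2), φ ν.1)))

theorem iterD_eq (φ : O → O) (δ₀ ξ : O) : iterD φ δ₀ ξ =
    max δ₀ (⨆ η : Set.Iio ξ, Order.succ (max (iterD φ δ₀ η.1) (⨆ ν : Set.Iic (iterD φ δ₀ η.1), φ ν.1))) := by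
  unfold iterD
  rw [WellFounded.fix_eq]

theorem exists_closed (φ : O → O) (δ₀ : O) : ∃ δ, δ₀ ≤ δ ∧ (∀ ν < δ, φ ν < δ) ∧
    ∀ A : Set O, Sz A → A ⊆ Set.Iio δ → ∃ ν < δ, A ⊆ Set.Iio ν := by
  have h1 : ∀ η ξ, η < ξ → iterD φ δ₀ η < iterD φ δ₀ ξ ∧ ∀ ν ≤ iterD φ δ₀ η, φ ν < iterD φ δ₀ ξ := by
    intro η ξ h
    rw [iterD_eq φ δ₀ ξ]
    have h2 : Order.succ (max (iterD φ δ₀ η) (⨆ ν : Set.Iic (iterD φ δ₀ η), φ ν.1)) ≤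
        ⨆ η : Set.Iio ξ, Order.succ (max (iterD φ δ₀ η.1) (⨆ ν : Set.Iic (iterD φ δ₀ η.1), φ ν.1)) :=
      le_ciSup (f := fun η : Set.Iio ξ => Order.succ (max (iterD φ δ₀ η.1)
        (⨆ ν : Set.Iic (iterD φ δ₀ η.1), φ ν.1))) Ordinal.bddAbove_of_small ⟨η, h⟩
    constructor
    · exact ((le_max_left _ _).trans_lt (Order.lt_succ _)).trans_le (h2.trans (le_max_right _ _))
    · intro ν hν
      refine lt_of_lt_of_le ?_ (h2.trans (le_max_right _ _))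
      refine lt_of_le_of_lt ?_ (Order.lt_succ _)
      exact (le_ciSup (f := fun ν : Set.Iic (iterD φ δ₀ η) => φ ν.1)
        Ordinal.bddAbove_of_small ⟨ν, hν⟩).trans (le_max_right _ _)
  have hle : ∀ ξ < θ, iterD φ δ₀ ξ ≤ ⨆ ξ : Set.Iio θ, iterD φ δ₀ ξ.1 := fun ξ hξ =>
    le_ciSup (f := fun ξ : Set.Iio θ => iterD φ δ₀ ξ.1) Ordinal.bddAbove_of_small ⟨ξ, hξ⟩
  have hlt : ∀ ν < ⨆ ξ : Set.Iio θ, iterD φ δ₀ ξ.1, ∃ ξ < θ, ν < iterD φ δ₀ ξ := by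
    intro ν hν
    by_contra hc
    push Not at hc
    exact absurd (Ordinal.iSup_le fun ξ : Set.Iio θ => hc ξ.1 ξ.2) (not_le.2 hν)
  refine ⟨⨆ ξ : Set.Iio θ, iterD φ δ₀ ξ.1, ?_, ?_, ?_⟩
  · refine le_trans ?_ (hle 0 theta_pos)
    rw [iterD_eq]
    exact le_max_left _ _
  · intro ν hν
    obtain ⟨ξ, hξ, h⟩ := hlt ν hν
    have hξ' : Order.succ ξ < θ := succ_lt_theta hξ
    exact ((h1 ξ _ (Order.lt_succ ξ)).2 ν h.le).trans_le (hle _ hξ')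
  · intro A hA hAδ
    choose! ξ h2 h3 using hlt
    obtain ⟨b, hb, hb'⟩ := (hA.image ξ).exists_bound (by
      rintro _ ⟨a, ha, rfl⟩
      exact h2 a (hAδ ha))
    refine ⟨iterD φ δ₀ (Order.succ b), ?_, fun a ha => ?_⟩
    · exact ((h1 _ _ (Order.lt_succ _)).1).trans_le (hle _ (succ_lt_theta (succ_lt_theta hb)))
    · exact (h3 a (hAδ ha)).trans (h1 _ _ ((hb' _ ⟨a, ha, rfl⟩).trans_lt (Order.lt_succ _))).1

/-- a closure ordinal for a small family of tasks -/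
theorem exists_zeta {Y : Type*} [Small.{0} Y] (D : Y → Raw → Raw → Prop)
    (hD : ∀ y, ∀ p ∈ Rt, ∃ q ∈ Rt, D y p q) (δ₀ : O) :
    ∃ ζ, δ₀ ≤ ζ ∧ ∀ y, ∀ p ∈ Rs ζ, ∃ q ∈ Rs ζ, D y p q := by
  classical
  have hD' : ∀ (y : Y) (p : Raw), ∃ q : Raw, ∃ η : O, p ∈ Rt → q ∈ Rs η ∧ D y p q := by
    intro y p
    by_cases hp : p ∈ Rt
    · obtain ⟨q, hq, h⟩ := hD y p hp
      obtain ⟨η, hη⟩ := exists_level hq
      exact ⟨q, η, fun _ => ⟨hη, h⟩⟩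
    · exact ⟨p, 0, fun h => (hp h).elim⟩
  choose nx lv hnx using hD'
  let φ : O → O := fun ν => ⨆ t : Rs ν × Y, lv t.2 t.1.1
  obtain ⟨δ, hδ, hc, hb⟩ := exists_closed φ δ₀
  refine ⟨δ, hδ, fun y p hp => ?_⟩
  obtain ⟨hpt, hps⟩ := mem_Rs.1 hp
  obtain ⟨ν, hν, hsub⟩ := hb (Prod.fst '' p.sp) (hpt.1.sp_sz.image _) (by
    rintro _ ⟨x, hx, rfl⟩
    exact hps x hx)
  have hpν : p ∈ Rs ν := mem_Rs.2 ⟨hpt, fun x hx => hsub ⟨x, hx, rfl⟩⟩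
  obtain ⟨h1, h2⟩ := hnx y p hpt
  refine ⟨nx y p, Rs_mono ?_ h1, h2⟩
  have h3 : lv y p ≤ φ ν := le_ciSup (f := fun t : Rs ν × Y => lv t.2 t.1.1)
    Ordinal.bddAbove_of_small (⟨p, hpν⟩, y)
  exact h3.trans (hc ν hν).le

end Pool.Agent.Helper82.LG
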