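import Pool.Agent.Helper23.CK.On
import Pool.Agent.Helper82.LG.Small

set_option autoImplicit false

/-!
# The names and the Boolean values of the statements
-/

universe u v w

namespace Pool.Agent.Helper82.LG

open Helper23
open Helper23.CK
open Helper23.WT (iffV)
open Helper23.CK.Nm

/-- the forcing: the conditions of `RT` and the Cohen conditions -/
abbrev PP : Type 1 := RT × Co

section
variable {P : Type u} [Preorder P]

/-- the set of the even natural numbers -/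
noncomputable def evn : Nm P := Nm.mk (ULift.{u} ℕ) (fun n => nat (2 * n.down)) (fun _ => ⊤)

/-- `s = n + 1` -/
noncomputable def NextB (n s : Nm P) : RO P := ⨅ z, iffV (mem z s) (mem z n ⊔ eq z n)

/-- `C` is a club in `t` -/
noncomputable def ClubB (t C : Nm P) : RO P :=
  (⨅ x, mem x C ⇨ mem x t) ⊓ ((⨅ b, mem b t ⇨ ⨆ c, mem c C ⊓ mem b c) ⊓
    ⨅ d, mem d t ⇨ ((⨆ b, mem b d) ⇨ ((⨅ b, mem b d ⇨ ⨆ c, mem c C ⊓ (mem b c ⊓ mem c d)) ⇨
      mem d C)))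

/-- `a` has cofinality `ω` -/
noncomputable def CofB (a : Nm P) : RO P :=
  ⨆ h, FunB h ⊓ ((⨅ n, mem n omg ⇨ ⨆ c, mem c a ⊓ mem (opair n c) h) ⊓
    ⨅ b, mem b a ⇨ ⨆ n, mem n omg ⊓ ⨆ c, mem c a ⊓ (mem (opair n c) h ⊓ mem b c))

/-- `L` is a ladder system on `S` -/
noncomputable def LadB (S L : Nm P) : RO P :=
  ⨅ α, mem α S ⇨ ⨆ l, mem (opair α l) L ⊓
    ((⨅ n, mem n omg ⇨ ⨆ a, mem a α ⊓ mem (opair n a) l) ⊓
      ((⨅ m, ⨅ n, ⨅ a, ⨅ b, mem m n ⇨ (mem (opair m a) l ⇨ (mem (opair n b) l ⇨ mem a b))) ⊓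
        ⨅ b, mem b α ⇨ ⨆ n, mem n omg ⊓ ⨆ a, mem (opair n a) l ⊓ mem b a))

/-- the ladder system `L` on `S` does not guess the set `F`, as witnessed by the club `C` -/
noncomputable def NoGuessB (t S L F C : Nm P) : RO P :=
  ClubB t C ⊓ ⨅ α, mem α S ⇨ (mem α C ⇨ ⨆ l, mem (opair α l) L ⊓ ⨆ n, mem n evn ⊓ ⨆ s, NextB n s ⊓
    ⨆ a, mem (opair n a) l ⊓ ⨆ b, mem (opair s b) l ⊓ (iffV (mem a F) (mem b F))ᶜ)

end

/-- truth value of `α ∈ S` -/
noncomputable def Sv (α : O) : RO PP :=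
  RO.hull {x | α ≤ x.1.1.ht ∧ α ∈ x.1.1.st} fun _ _ hq h =>
    ⟨h.1.trans hq.1.1, (hq.1.2.1 α h.1).2 h.2⟩

/-- the generic set of ordinals -/
noncomputable def Sn : Nm PP := mk (Set.Iio θ) (fun β => ordn β.1) (fun β => Sv β.1)

end Pool.Agent.Helper82.LG
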