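import Pool.Agent.Helper23.CK.Fo
import Pool.Agent.Helper82.LG.Names

set_option autoImplicit false

/-!
# The cardinals are preserved
-/

namespace Pool.Agent.Helper82.LG

open Cardinal
open Helper23
open Helper23.CK
open Helper23.WT (iffV bElim bOr bMP bImp bNot bAbs bAll bEx bIff bIff_mp bIff_mpr bLeft bRight bCases bContra)
open Helper23.CK.Nm

/-- there is no injection of `κ` into `δ`, if `κ` is not covered by countable sets -/
theorem no_inj {κ δ : O} (hδ : δ < θ) (hk : ∀ B : O → Set O, (∀ j < δ, (B j).Countable) →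
    ∃ i < κ, ∀ j < δ, i ∉ B j) (F : Nm PP) : InjB F (ordn κ) (ordn δ) = ⊥ := by
  by_contra hne
  obtain ⟨⟨r0, c0⟩, hx⟩ := RO.ne_bot hne
  let V : O → O → RO PP := fun i j => Nm.mem (opair (ordn i) (ordn j)) F
  have hinj : ∀ r ≤ r0, ∀ c ≤ c0, ∀ i < κ, ∀ i' < κ, ∀ j, (r, c) ∈ (V i j).carrier →
      (r, c) ∈ (V i' j).carrier → i = i' := by
    intro r hr c hc i hi i' hi' j h1 h2
    by_contra hne
    have h3 : cn (r, c) ≤ InjB F (ordn κ) (ordn δ) :=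
      cn_le.2 (RO.lower _ (show (r, c) ≤ (r0, c0) from ⟨hr, hc⟩) hx)
    exact (cn_le.1 (eq_ordn hne (injB_inj h3 (ordn_mem_ordn hi) (ordn_mem_ordn hi') (cn_le.2 h1)
      (cn_le.2 h2)))).elim
  have htot : ∀ r ≤ r0, ∀ c ≤ c0, ∀ i < κ, ∃ r' ≤ r, ∃ c' ≤ c, ∃ j < δ,
      (r', c') ∈ (V i j).carrier := by
    intro r hr c hc i hi
    have h3 : cn (r, c) ≤ InjB F (ordn κ) (ordn δ) :=
      cn_le.2 (RO.lower _ (show (r, c) ≤ (r0, c0) from ⟨hr, hc⟩) hx)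
    have h4 : cn (r, c) ≤ ⨆ j : Set.Iio δ, V i j.1 := by
      refine bElim (injB_tot h3 (x := ordn i) (ordn_mem_ordn hi)) fun n Δ _ h5 => ?_
      have h6 := bLeft h5
      rw [mem_ordn] at h6
      refine bElim h6 fun j Δ' h7 h8 => ?_
      exact bEx j (bMemL (bOpairCongr (bRefl _) h8) (bRight (h7.trans h5)))
    obtain ⟨⟨r', c'⟩, hy, j, hj⟩ := mem_iSup_ex (cn_le.1 h4)
    exact ⟨r', hy.1, c', hy.2, j.1, j.2, hj⟩
  let D : O → ℕ → RT → Co → O → Prop := fun j _ r c w => (w < κ ∧ (r, c) ∈ (V w j).carrier) ∨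
    ∀ i < κ, (r, c) ∈ ((V i j)ᶜ).carrier
  obtain ⟨r, hr, hdec⟩ := decide_all clo_RT (W := O) (fun _ => ∅) (sz_Iio hδ) D
    (by
      rintro j m r r' c w h (⟨h1, h2⟩ | h1)
      · exact Or.inl ⟨h1, RO.lower _ (show (r', c) ≤ (r, c) from ⟨h, le_rfl⟩) h2⟩
      · exact Or.inr fun i hi => RO.lower _ (show (r', c) ≤ (r, c) from ⟨h, le_rfl⟩) (h1 i hi))
    (by
      intro j _ m r c
      by_cases h : ∃ x ≤ (r, c), ∃ i < κ, x ∈ (V i j).carrier
      · obtain ⟨⟨r', c'⟩, hx, i, hi, h1⟩ := h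
        exact ⟨r', hx.1, c', hx.2, i, Or.inl ⟨hi, h1⟩⟩
      · push Not at h
        exact ⟨r, le_rfl, c, le_rfl, 0, Or.inr fun i hi => RO.mem_compl.2 fun x hx =>
          h x hx i hi⟩) r0
  choose! A hA using hdec
  obtain ⟨i, hi, hiB⟩ := hk (fun j => {i | i < κ ∧ ∃ c, c.In (A j) ∧ c ≤ Co.cut (A j) c0 ∧
      (r, c) ∈ (V i j).carrier}) (by
    intro j hj
    have h1 : ∀ c : Co, {i | i < κ ∧ (c.In (A j) ∧ c ≤ Co.cut (A j) c0 ∧
        (r, c) ∈ (V i j).carrier)}.Subsingleton := by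
      rintro c i ⟨hi, h1, h2, h3⟩ i' ⟨hi', _, _, h4⟩
      obtain ⟨e, he, he'⟩ := Co.amal h1 h2
      exact hinj r hr e he i hi i' hi' j
        (RO.lower _ (show (r, e) ≤ (r, c) from ⟨le_rfl, he'⟩) h3)
        (RO.lower _ (show (r, e) ≤ (r, c) from ⟨le_rfl, he'⟩) h4)
    refine ((Co.countable_in (hA j hj).1).biUnion fun c _ => (h1 c).countable).mono ?_
    rintro i ⟨hi, c, h2, h3, h4⟩
    exact Set.mem_biUnion (show c ∈ {c : Co | c.In (A j)} from h2) ⟨hi, h2, h3, h4⟩)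
  obtain ⟨r1, hr1, c1, hc1, j, hj, h1⟩ := htot r hr c0 le_rfl i hi
  obtain ⟨c', h2, h3, w, _, h4⟩ := (hA j hj).2.2 0 (Co.cut (A j) c1) (Co.cut_in _ _)
  obtain ⟨e, he, he'⟩ := Co.amal h3 h2
  have h5 : (r1, e) ∈ (V i j).carrier :=
    RO.lower _ (show (r1, e) ≤ (r1, c1) from ⟨le_rfl, he⟩) h1
  rcases h4 with ⟨h4, h6⟩ | h4
  · have h7 : (r1, e) ∈ (V w j).carrier := RO.lower _ (show (r1, e) ≤ (r, c') from ⟨hr1, he'⟩) h6
    have h8 := hinj r1 (hr1.trans hr) e (he.trans hc1) i hi w h4 j h5 h7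
    subst h8
    exact hiB j hj ⟨hi, c', h3, h2.trans (Co.cut_mono _ hc1), h6⟩
  · exact RO.mem_compl.1 (h4 i hi) (r1, e) ⟨hr1, he'⟩ h5

theorem inj_theta {β : O} (h : β < θ) (F : Nm PP) : InjB F (ordn θ) (ordn β) = ⊥ := by
  refine no_inj h (fun B hB => ?_) F
  by_contra hc
  push Not at hc
  refine not_sz_Iio_theta (((sz_Iio h).biUnion B fun j hj => sz_countable (hB j hj)).mono ?_)
  intro i hi
  obtain ⟨j, hj, hij⟩ := hc i hi
  exact Set.mem_biUnion (show j ∈ Set.Iio β from hj) hij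

theorem inj_lam {β : O} (h : β < lam.ord) (F : Nm PP) :
    InjB F (ordn lam.ord) (ordn β) = ⊥ := by
  refine no_inj (h.trans lam_ord_lt_theta) (fun B hB => ?_) F
  by_contra hc
  push Not at hc
  have h1 : Set.Iio lam.ord ⊆ ⋃ j ∈ Set.Iio β, B j := by
    intro i hi
    obtain ⟨j, hj, hij⟩ := hc i hi
    exact Set.mem_biUnion (show j ∈ Set.Iio β from hj) hij
  have h2 := mk_le_mk_of_subset h1
  rw [mk_Iio_ordinal, card_ord] at h2
  rw [lt_ord] at h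
  obtain ⟨n, hn⟩ := exists_lt_beth h
  have h3 : #(⋃ j ∈ Set.Iio β, B j : Set O) ≤ lift.{1} (ℶ_ (n : O)) := by
    rw [Set.biUnion_eq_iUnion]
    refine (mk_iUnion_le _).trans ?_
    have h4 : ⨆ i : Set.Iio β, #(B i) ≤ ℵ₀ := ciSup_le' fun i =>
      mk_le_aleph0_iff.2 (hB i.1 i.2).to_subtype
    have h5 : ℵ₀ ≤ lift.{1} (ℶ_ (n : O)) := by
      rw [Cardinal.aleph0_le_lift]; exact aleph0_le_beth _
    calc #(Set.Iio β) * ⨆ i : Set.Iio β, #(B i) ≤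
        lift.{1} (ℶ_ (n : O)) * lift.{1} (ℶ_ (n : O)) := by
          refine mul_le_mul' ?_ (h4.trans h5)
          rw [mk_Iio_ordinal, lift_le]
          exact hn.le
      _ = lift.{1} (ℶ_ (n : O)) := mul_eq_self h5
  exact absurd (h2.trans h3) (not_le.2 (lift_lt.2 (beth_lt_lam n)))

end Pool.Agent.Helper82.LG
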