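import Pool.Agent.Helper82.LG.Raw

/-!
# Lower bounds of chains of conditions
-/

set_option autoImplicit false

namespace Pool.Agent.Helper82.LG

open Cardinal Raw

/-- the supremum of the heights -/
noncomputable def hts (K : Set Raw) : O := sSup (Raw.ht '' K)

open Classical in
/-- the lower bound of a chain -/
noncomputable def lim (K : Set Raw) : Raw where
  ht := hts K
  st := {α | ∃ p ∈ K, α ∈ p.st}
  sp := {x | ∃ p ∈ K, x ∈ p.sp}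
  dg x γ := if h : ∃ n, ∃ p ∈ K, x ∈ p.sp ∧ γ < p.ht ∧ p.dg x γ = n then h.choose else 0
  cl x := {α | (∃ p ∈ K, α ∈ p.cl x) ∨ (α = hts K ∧ 0 < α ∧
    ∀ β < α, ∃ γ, (∃ p ∈ K, γ ∈ p.cl x) ∧ β < γ ∧ γ < α)}

section
variable {K : Set Raw}

theorem le_hts (hsz : Sz K) {p : Raw} (hp : p ∈ K) : p.ht ≤ hts K :=
  le_csSup (hsz.image _).bdd ⟨p, hp, rfl⟩

theorem lt_hts {β : O} (h : β < hts K) : ∃ p ∈ K, β < p.ht := by
  by_contra hc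
  push Not at hc
  refine absurd h (not_lt.2 ?_)
  unfold hts
  rcases K.eq_empty_or_nonempty with rfl | hne
  · simp
  · exact csSup_le (hne.image _) (by rintro _ ⟨p, hp, rfl⟩; exact hc p hp)

/-- the smaller one of two conditions in a chain -/
theorem chain_min (hc : IsChain (· ≤ ·) K) {p q : Raw} (hp : p ∈ K) (hq : q ∈ K) :
    ∃ r ∈ K, r ≤ p ∧ r ≤ q := by
  by_cases h : p = q
  · exact ⟨p, hp, le_rfl, h ▸ le_rfl⟩
  rcases hc hp hq h with h | h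
  · exact ⟨p, hp, le_rfl, h⟩
  · exact ⟨q, hq, h, le_rfl⟩

variable (hc : IsChain (· ≤ ·) K) (hsz : Sz K) (hnf : ∀ p ∈ K, NF p)

include hc in
theorem lim_dg {p : Raw} (hp : p ∈ K) {x : X} (hx : x ∈ p.sp) {γ : O} (hγ : γ < p.ht) :
    (lim K).dg x γ = p.dg x γ := by
  classical
  have h : ∃ n, ∃ p ∈ K, x ∈ p.sp ∧ γ < p.ht ∧ p.dg x γ = n := ⟨_, p, hp, hx, hγ, rfl⟩
  have h1 : (lim K).dg x γ = h.choose := dif_pos h
  obtain ⟨q, hq, hxq, hγq, h2⟩ := h.choose_spec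
  rw [h1, ← h2]
  obtain ⟨r, _, h3, h4⟩ := chain_min hc hp hq
  rw [← (h3.2.2.2 x hx).1 γ hγ, ← (h4.2.2.2 x hxq).1 γ hγq]

include hc hnf in
theorem cl_iff {p q : Raw} (hp : p ∈ K) (hq : q ∈ K) {x : X} (hx : x ∈ p.sp) {α : O}
    (hα : α ≤ p.ht) (h : α ∈ q.cl x) : α ∈ p.cl x := by
  obtain ⟨r, _, h3, h4⟩ := chain_min hc hp hq
  have hxq : x ∈ q.sp := (hnf q hq).mem_sp h
  rw [← (h3.2.2.2 x hx).2 α hα, (h4.2.2.2 x hxq).2 α ((hnf q hq).cl_le x α h)]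
  exact h

include hc hsz hnf in
theorem lim_le {p : Raw} (hp : p ∈ K) : lim K ≤ p := by
  refine ⟨le_hts hsz hp, fun α hα => ⟨?_, fun h => ⟨p, hp, h⟩⟩, fun x hx => ⟨p, hp, hx⟩,
    fun x hx => ⟨fun γ hγ => lim_dg hc hp hx hγ, fun α hα => ⟨?_, fun h => Or.inl ⟨p, hp, h⟩⟩⟩⟩
  · rintro ⟨q, hq, h⟩
    obtain ⟨r, _, h3, h4⟩ := chain_min hc hp hq
    rw [← h3.2.1 α hα, h4.2.1 α ((hnf q hq).st_le α h)]
    exact h
  · rintro (⟨q, hq, h⟩ | ⟨h1, h2, h3⟩)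
    · exact cl_iff hc hnf hp hq hx hα h
    · refine (hnf p hp).cl_cl x α hα h2 fun β hβ => ?_
      obtain ⟨γ, ⟨q, hq, h⟩, h4, h5⟩ := h3 β hβ
      exact ⟨γ, cl_iff hc hnf hp hq hx (h5.le.trans hα) h, h4, h5⟩

include hc hsz hnf in
theorem lim_nf : NF (lim K) where
  ht_lt := by
    refine (hsz.image _).sSup_lt ?_
    rintro _ ⟨p, hp, rfl⟩
    exact (hnf p hp).ht_lt
  st_le := by
    rintro α ⟨p, hp, h⟩
    exact ((hnf p hp).st_le α h).trans (le_hts hsz hp)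
  st_cof := by
    rintro α ⟨p, hp, h⟩
    exact (hnf p hp).st_cof α h
  sp_sz := by
    refine (hsz.biUnion (fun p => p.sp) fun p hp => (hnf p hp).sp_sz).mono ?_
    rintro x ⟨p, hp, h⟩
    exact Set.mem_biUnion hp h
  dg0 := by
    classical
    intro x γ h
    refine dif_neg ?_
    rintro ⟨n, p, hp, hx, hγ, _⟩
    rcases h with h | h
    · exact h ⟨p, hp, hx⟩
    · exact absurd hγ (not_lt.2 ((le_hts hsz hp).trans h))
  cl0 := by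
    intro x hx
    have h : ∀ γ, ¬ ∃ p ∈ K, γ ∈ p.cl x := fun γ ⟨p, hp, h⟩ => hx ⟨p, hp, (hnf p hp).mem_sp h⟩
    ext α
    simp only [Set.mem_empty_iff_false, iff_false]
    rintro (h1 | ⟨_, h2, h3⟩)
    · exact h α h1
    · obtain ⟨γ, h4, _⟩ := h3 0 h2
      exact h γ h4
  cl_le := by
    rintro x α (⟨p, hp, h⟩ | ⟨h1, _⟩)
    · exact ((hnf p hp).cl_le x α h).trans (le_hts hsz hp)
    · exact h1.le
  cl_cl := by
    intro x δ hδ h0 hu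
    have hu' : ∀ β < δ, ∃ γ, (∃ p ∈ K, γ ∈ p.cl x) ∧ β < γ ∧ γ < δ := by
      intro β hβ
      obtain ⟨γ, h1, h2⟩ := hu β hβ
      rcases h1 with h1 | ⟨h1, _⟩
      · exact ⟨γ, h1, h2⟩
      · exact absurd h2.2 (not_lt.2 (h1 ▸ hδ))
    rcases lt_or_eq_of_le hδ with h | h
    · obtain ⟨p, hp, hδp⟩ := lt_hts h
      obtain ⟨γ, ⟨q, hq, h1⟩, _⟩ := hu' 0 h0
      obtain ⟨r, hr, h3, h4⟩ := chain_min hc hp hq
      have hxr : x ∈ r.sp := h4.2.2.1 ((hnf q hq).mem_sp h1)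
      have hδr : δ ≤ r.ht := hδp.le.trans h3.1
      refine Or.inl ⟨r, hr, (hnf r hr).cl_cl x δ hδr h0 fun β hβ => ?_⟩
      obtain ⟨γ, ⟨q, hq, h5⟩, h6, h7⟩ := hu' β hβ
      exact ⟨γ, cl_iff hc hnf hr hq hxr (h7.le.trans hδr) h5, h6, h7⟩
    · exact Or.inr ⟨h, h0, hu'⟩

end

theorem lim_mem {K : Set Raw} (hc : IsChain (· ≤ ·) K) (hsz : Sz K) (hK : K ⊆ Rt) : lim K ∈ Rt := by
  have hnf : ∀ p ∈ K, NF p := fun p hp => (hK hp).1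
  refine ⟨lim_nf hc hsz hnf, ?_⟩
  rintro x ⟨p, hp, hx⟩
  refine ⟨((hK hp).2 x hx).1, ?_⟩
  rintro α hα ⟨q, hq, h⟩
  obtain ⟨r, hr, h3, h4⟩ := chain_min hc hp hq
  have hxr : x ∈ r.sp := h3.2.2.1 hx
  have hαr : α ≤ r.ht := ((hnf q hq).st_le α h).trans h4.1
  have hle := lim_le hc hsz hnf hr
  refine Con.mono ((hK hr).2 x hxr).1.2 hle hxr hαr (((hK hr).2 x hxr).2 α ?_ ?_)
  · exact ((hle.2.2.2 x hxr).2 α hαr).1 hα
  · exact (h4.2.1 α ((hnf q hq).st_le α h)).2 h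

theorem lim_mem_Rs {ζ : O} {K : Set Raw} (hc : IsChain (· ≤ ·) K) (hsz : Sz K) (hK : K ⊆ Rs ζ) :
    lim K ∈ Rs ζ := by
  refine mem_Rs.2 ⟨lim_mem hc hsz (hK.trans Rs_sub), ?_⟩
  rintro x ⟨p, hp, hx⟩
  exact (mem_Rs.1 (hK hp)).2 x hx

/-- the restriction of a limit is the limit of the restrictions -/
theorem restr_lim (G : Set O) (K : Set Raw) : restr G (lim K) = lim (restr G '' K) := by
  have hh : hts (restr G '' K) = hts K := by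
    unfold hts
    congr 1
    ext α
    constructor
    · rintro ⟨_, ⟨p, hp, rfl⟩, rfl⟩
      exact ⟨p, hp, rfl⟩
    · rintro ⟨p, hp, rfl⟩
      exact ⟨_, ⟨p, hp, rfl⟩, rfl⟩
  have hcl : ∀ x α, (∃ p ∈ restr G '' K, α ∈ p.cl x) ↔ (∃ p ∈ K, α ∈ p.cl x) ∧ x.1 ∈ G := by
    intro x α
    constructor
    · rintro ⟨_, ⟨p, hp, rfl⟩, h, h'⟩
      exact ⟨⟨p, hp, h⟩, h'⟩
    · rintro ⟨⟨p, hp, h⟩, h'⟩
      exact ⟨_, ⟨p, hp, rfl⟩, h, h'⟩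
  refine Raw.ext' hh.symm ?_ ?_ ?_ ?_
  · ext α
    constructor
    · rintro ⟨p, hp, h⟩
      exact ⟨_, ⟨p, hp, rfl⟩, h⟩
    · rintro ⟨_, ⟨p, hp, rfl⟩, h⟩
      exact ⟨p, hp, h⟩
  · ext x
    constructor
    · rintro ⟨⟨p, hp, h⟩, h'⟩
      exact ⟨_, ⟨p, hp, rfl⟩, h, h'⟩
    · rintro ⟨_, ⟨p, hp, rfl⟩, h, h'⟩
      exact ⟨⟨p, hp, h⟩, h'⟩
  · classical
    funext x γ
    by_cases hG : x.1 ∈ G
    · rw [restr_dg hG]
      have h : (fun n => ∃ p ∈ restr G '' K, x ∈ p.sp ∧ γ < p.ht ∧ p.dg x γ = n) =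
          fun n => ∃ p ∈ K, x ∈ p.sp ∧ γ < p.ht ∧ p.dg x γ = n := by
        funext n
        refine propext ⟨?_, ?_⟩
        · rintro ⟨_, ⟨p, hp, rfl⟩, h1, h2, h3⟩
          rw [restr_dg hG] at h3
          exact ⟨p, hp, h1.1, h2, h3⟩
        · rintro ⟨p, hp, h1, h2, h3⟩
          exact ⟨_, ⟨p, hp, rfl⟩, ⟨h1, hG⟩, h2, by rw [restr_dg hG]; exact h3⟩
      show (lim K).dg x γ = (lim (restr G '' K)).dg x γ
      unfold lim
      simp only [h]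
    · rw [restr_dg' hG]
      symm
      refine dif_neg ?_
      rintro ⟨n, _, ⟨p, hp, rfl⟩, h1, _⟩
      exact hG h1.2
  · funext x
    ext α
    show ((∃ p ∈ K, α ∈ p.cl x) ∨ _) ∧ x.1 ∈ G ↔ (∃ p ∈ restr G '' K, α ∈ p.cl x) ∨ _
    simp only [hcl, hh]
    constructor
    · rintro ⟨h1 | ⟨h1, h2, h3⟩, h4⟩
      · exact Or.inl ⟨h1, h4⟩
      · refine Or.inr ⟨h1, h2, fun β hβ => ?_⟩
        obtain ⟨γ, h5, h6⟩ := h3 β hβ
        exact ⟨γ, ⟨h5, h4⟩, h6⟩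
    · rintro (h1 | ⟨h1, h2, h3⟩)
      · exact ⟨Or.inl h1.1, h1.2⟩
      · obtain ⟨γ, h5, _⟩ := h3 0 h2
        refine ⟨Or.inr ⟨h1, h2, fun β hβ => ?_⟩, h5.2⟩
        obtain ⟨γ, h5, h6⟩ := h3 β hβ
        exact ⟨γ, h5.1, h6⟩

/-! ### the partial orders are closed -/

/-- the forcing -/
abbrev RT : Type 1 := {p : Raw // p ∈ Rt}

theorem clo_sub {R : Set Raw} (hR : ∀ K : Set Raw, IsChain (· ≤ ·) K → Sz K → K ⊆ R → lim K ∈ R)
    (hR' : R ⊆ Rt) : Clo {p : Raw // p ∈ R} := by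
  intro K hK hsz hne
  have hc : IsChain (· ≤ ·) (Subtype.val '' K) := by
    rintro _ ⟨p, hp, rfl⟩ _ ⟨q, hq, rfl⟩ hne
    exact hK hp hq fun h => hne (congrArg Subtype.val h)
  have hsub : Subtype.val '' K ⊆ R := by
    rintro _ ⟨p, hp, rfl⟩
    exact p.2
  refine ⟨⟨lim (Subtype.val '' K), hR _ hc (hsz.image _) hsub⟩, fun p hp => ?_⟩
  exact lim_le hc (hsz.image _) (fun q hq => (hR' (hsub hq)).1) ⟨p, hp, rfl⟩

theorem clo_RT : Clo RT := clo_sub (fun _ h1 h2 h3 => lim_mem h1 h2 h3) subset_rfl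

theorem clo_Rs (ζ : O) : Clo {p : Raw // p ∈ Rs ζ} :=
  clo_sub (fun _ h1 h2 h3 => lim_mem_Rs h1 h2 h3) Rs_sub

end Pool.Agent.Helper82.LG
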