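import Pool.Agent.Helper82.LG.Pair

set_option autoImplicit false

/-!
# No ladder system guesses pairs
-/

namespace Pool.Agent.Helper82.LG

open Cardinal Raw
open Helper23
open Helper23.CK
open Helper23.WT (iffV bElim bOr bMP bImp bNot bAbs bAll bEx bIff bIff_mp bIff_mpr bLeft bRight bCases bContra)
open Helper23.CK.Nm

theorem restr_Rs {ζ : O} {p : Raw} (hp : p ∈ Rs ζ) : restr (Set.Iio ζ) p = p := by
  obtain ⟨h1, h2⟩ := mem_Rs.1 hp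
  refine Raw.ext' rfl rfl ?_ ?_ ?_
  · ext x
    exact ⟨fun h => h.1, fun h => ⟨h, h2 x h⟩⟩
  · funext x γ
    by_cases h : x.1 ∈ Set.Iio ζ
    · exact restr_dg h γ
    · rw [restr_dg' h, h1.1.dg0 x γ (Or.inl fun h' => h (h2 x h'))]
  · funext x
    ext α
    exact ⟨fun h => h.1, fun h => ⟨h, h2 x (h1.1.mem_sp h)⟩⟩

/-- truth value of: `x` is a coordinate -/
noncomputable def Xb (x : X) : RO PP :=
  RO.hull {y | x ∈ y.1.1.sp} fun _ _ hq h => hq.1.2.2.1 h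

/-- truth value of: `γ` is an element of the set that belongs to `x` -/
noncomputable def Fv (x : X) (γ : O) : RO PP :=
  RO.hull {y | x ∈ y.1.1.sp ∧ γ < y.1.1.ht ∧ (γ, y.1.1.dg x γ) ∈ y.2.one} fun _ _ hq h =>
    ⟨hq.1.2.2.1 h.1, h.2.1.trans_le hq.1.1, by
      rw [(hq.1.2.2.2 x h.1).1 γ h.2.1]; exact hq.2.1 h.2.2⟩

/-- truth value of: `δ` is an element of the club that belongs to `x` -/
noncomputable def Cv (x : X) (δ : O) : RO PP :=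
  RO.hull {y | x ∈ y.1.1.sp ∧ δ ≤ y.1.1.ht ∧ δ ∈ y.1.1.cl x} fun _ _ hq h =>
    ⟨hq.1.2.2.1 h.1, h.2.1.trans hq.1.1, ((hq.1.2.2.2 x h.1).2 δ h.2.1).2 h.2.2⟩

theorem Fv_one {x : X} {γ : O} {r : RT} {c : Co} (hx : x ∈ r.1.sp) (hγ : γ < r.1.ht)
    (h : (γ, r.1.dg x γ) ∈ c.one) : (r, c) ∈ (Fv x γ).carrier :=
  RO.subset_hull ⟨hx, hγ, h⟩

theorem Fv_zer {x : X} {γ : O} {r : RT} {c : Co} (hx : x ∈ r.1.sp) (hγ : γ < r.1.ht)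
    (h : (γ, r.1.dg x γ) ∈ c.zer) : (r, c) ∈ ((Fv x γ)ᶜ).carrier := by
  rw [RO.mem_compl]
  rintro ⟨q, d⟩ hq hF
  obtain ⟨⟨s, e⟩, hs, _, _, h1⟩ := hF (q, d) le_rfl
  have h2 : s.1 ≤ r.1 := hs.1.trans hq.1
  have h3 : e ≤ c := hs.2.trans hq.2
  simp only at h1
  rw [(h2.2.2.2 x hx).1 γ hγ] at h1
  exact e.dj _ h1 (h3.2 h)

theorem cv_unb {x : X} {β : O} (hβ : β < θ) :
    Xb x ≤ ⨆ δ : {δ : O // β < δ ∧ δ < θ}, Cv x δ.1 := by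
  intro y hy
  rw [RO.mem_iSup]
  intro z hz
  obtain ⟨⟨r, c⟩, hr, hx⟩ := hy z hz
  obtain ⟨q, hq, hqr, δ, h1, h2, h3⟩ := exists_club r.2 hx hβ
  refine ⟨(⟨q, hq⟩, c), (show ((⟨q, hq⟩ : RT), c) ≤ (r, c) from ⟨hqr, le_rfl⟩).trans hr,
    ⟨δ, h1, h2.trans_lt hq.1.ht_lt⟩, RO.subset_hull ⟨hq.1.mem_sp h3, h2, h3⟩⟩

theorem cv_closed {x : X} {δ : O} (hδ : δ < θ) (h0 : 0 < δ) :
    Xb x ⊓ (⨅ β : Set.Iio δ, ⨆ γ : {γ : O // β.1 < γ ∧ γ < δ}, Cv x γ.1) ≤ Cv x δ := by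
  rintro y ⟨hX, hacc⟩ z hz
  obtain ⟨⟨r, c⟩, hr, hx⟩ := hX z hz
  obtain ⟨q, hq, hqr, hqh, hsp⟩ := exists_ht r.2 (le_max_left r.1.ht δ) (max_lt r.2.1.ht_lt hδ)
  have hxq : x ∈ q.sp := hsp ▸ hx
  have hδq : δ ≤ q.ht := hqh ▸ le_max_right _ _
  have hle : ((⟨q, hq⟩ : RT), c) ≤ (r, c) := ⟨hqr, le_rfl⟩
  refine ⟨(⟨q, hq⟩, c), hle.trans hr, hxq, hδq, ?_⟩
  refine hq.1.cl_cl x δ hδq h0 fun β hβ => ?_
  have h1 := RO.mem_iInf.1 hacc ⟨β, hβ⟩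
  obtain ⟨z', hz', γ, hγ⟩ := RO.mem_iSup.1 h1 (⟨q, hq⟩, c) ((hle.trans hr).trans hz)
  obtain ⟨w, hw, _, _, h4⟩ := hγ z' le_rfl
  have h5 : w.1.1 ≤ q := (hw.trans hz').1
  exact ⟨γ.1, ((h5.2.2.2 x hxq).2 γ.1 (γ.2.2.le.trans hδq)).1 h4, γ.2⟩

theorem cn_club (x : X) : Xb x ≤ ClubB (ordn θ) (sbn θ (Cv x)) := by
  refine le_inf (le_iInf fun z => bImp fun Δ _ h => sbn_sub h) (le_inf ?_ ?_)
  · refine le_iInf fun b => bImp fun Δ hΔ h => ?_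
    refine bOrd h fun β hβ Δ1 h1 h2 => ?_
    refine bElim ((h1.trans hΔ).trans (cv_unb hβ)) fun δ Δ2 h3 h4 => ?_
    refine bEx (ordn δ.1) (le_inf (by rw [mem_sbn δ.2.2]; exact h4) ?_)
    exact bMemL (bSymm (h3.trans h2)) (ordn_mem_ordn δ.2.1)
  · refine le_iInf fun d => bImp fun Δ hΔ h => bImp fun Δ1 h1 h2 => bImp fun Δ2 h3 h4 => ?_
    refine bOrd (h3.trans (h1.trans h)) fun δ hδ Δ3 h5 h6 => ?_
    by_cases h0 : 0 < δ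
    · refine bMemL (bSymm h6) ?_
      rw [mem_sbn hδ]
      refine le_trans (le_inf ?_ ?_) (cv_closed hδ h0)
      · exact ((h5.trans h3).trans h1).trans hΔ
      · refine le_iInf fun β => ?_
        have h7 : Δ3 ≤ Nm.mem (ordn β.1) d := bMemR (bSymm h6) (ordn_mem_ordn β.2)
        refine bElim (bMP (bAll (h5.trans h4) (ordn β.1)) h7) fun c Δ4 h8 h9 => ?_
        refine bOrd (sbn_sub (bLeft h9)) fun γ hγ Δ5 h10 h11 => ?_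
        by_cases h12 : β.1 < γ
        · by_cases h13 : γ < δ
          · refine bEx ⟨γ, h12, h13⟩ ?_
            have h14 := bMemL h11 (bLeft (h10.trans h9))
            rwa [mem_sbn hγ] at h14
          · exact (mem_ordn_lt h13 (bMemR ((h10.trans h8).trans h6)
              (bMemL h11 (bRight (bRight (h10.trans h9)))))).trans bot_le
        · exact (mem_ordn_lt h12 (bMemR h11 (bLeft (bRight (h10.trans h9))))).trans bot_le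
    · refine bElim ((h5.trans h3).trans h2) fun b Δ4 h8 h9 => ?_
      refine bOrd (bMemR (h8.trans h6) h9) fun β hβ _ _ _ => ?_
      exact (h0 (pos_of_gt hβ)).elim

/-- the pair of the ladder at `α` is not guessed -/
theorem pair_diff {L : Nm PP} {x : X} (hlab : ∀ α a a' r c, lab x α a a' r c → Lb L α a a' r c)
    (α : O) : Xb x ⊓ (LadB Sn L ⊓ (Sv α ⊓ Cv x α)) ≤
      ⨆ t : {t : O × O // t.1 < α ∧ t.2 < α}, PairB L α t.1.1 t.1.2 ⊓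
        (iffV (Fv x t.1.1) (Fv x t.1.2))ᶜ := by
  rintro y ⟨hX, hL, hS, hC⟩
  rw [RO.mem_iSup]
  intro z hz
  obtain ⟨⟨r2, c2⟩, hr2, hα2, hst2⟩ := hS z hz
  obtain ⟨⟨r3, c3⟩, hr3, hx3, hα3, hcl3⟩ := hC (r2, c2) (hr2.trans hz)
  have hst3 : α ∈ r3.1.st := (hr3.1.2.1 α hα2).2 hst2
  have hle3 : (r3, c3) ≤ y := (hr3.trans hr2).trans hz
  obtain ⟨r', hr', hle', c', hc', a, a', hl, hd⟩ := (r3.2.2 x hx3).2 α hcl3 hst3
    (restr (Set.Iio x.1) r3.1) (restr_mem_Rs r3.2) le_rfl c3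
  obtain ⟨ha, ha', _, hr't, h1⟩ := hlab _ _ _ _ _ hl
  have hres : restr (Set.Iio x.1) r' ≤ restr (Set.Iio x.1) r3.1 := by
    rw [restr_Rs hr']; exact hle'
  have hs : mrg (Set.Iio x.1) r' r3.1 (fun _ => 0) ∈ Rt :=
    mrg_mem (isLowerSet_Iio _) (Rs_sub hr') r3.2 hres
  have hs3 : (⟨mrg (Set.Iio x.1) r' r3.1 fun _ => 0, hs⟩ : RT) ≤ r3 := mrg_le hres
  have hs' : (⟨mrg (Set.Iio x.1) r' r3.1 fun _ => 0, hs⟩ : RT) ≤ ⟨r', hr't⟩ := by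
    have h2 := le_restr (Set.Iio x.1) (mrg (Set.Iio x.1) r' r3.1 fun _ => 0)
    rw [restr_mrg subset_rfl, restr_Rs hr'] at h2
    exact h2
  have hdg : ∀ γ < r3.1.ht, (mrg (Set.Iio x.1) r' r3.1 fun _ => 0).dg x γ = r3.1.dg x γ :=
    fun γ hγ => mrg_dg' (by simp) hγ
  have hxs : x ∈ (mrg (Set.Iio x.1) r' r3.1 fun _ => 0).sp := hs3.2.2.1 hx3
  have hhs : r3.1.ht ≤ (mrg (Set.Iio x.1) r' r3.1 fun _ => 0).ht := hs3.1
  generalize hse : (mrg (Set.Iio x.1) r' r3.1 fun _ => 0) = s at *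
  have hsc3 : ((⟨s, hs⟩ : RT), c') ≤ (r3, c3) := ⟨hs3, hc'⟩
  refine ⟨(⟨s, hs⟩, c'), (hsc3.trans hr3).trans hr2, ⟨(a, a'), ha, ha'⟩, ?_, ?_⟩
  · exact RO.mem_himp.1 h1 (⟨s, hs⟩, c') ⟨hs', le_rfl⟩
      ⟨RO.lower _ (hsc3.trans hle3) hL, RO.lower _ (hsc3.trans hle3) hS⟩
  · have ha3 := ha.trans_le hα3
    have ha3' := ha'.trans_le hα3
    rw [← hdg a ha3, ← hdg a' ha3'] at hd
    refine cn_le.1 (bNot fun Δ h2 h3 => ?_)
    rcases hd with ⟨h4, h5⟩ | ⟨h4, h5⟩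
    · have h6 : Δ ≤ Fv x a := h2.trans (cn_le.2 (Fv_one hxs (ha3.trans_le hhs) h4))
      have h7 : Δ ≤ (Fv x a')ᶜ := h2.trans (cn_le.2 (Fv_zer hxs (ha3'.trans_le hhs) h5))
      exact bAbs h7 (bIff_mp h3 h6)
    · have h6 : Δ ≤ (Fv x a)ᶜ := h2.trans (cn_le.2 (Fv_zer hxs (ha3.trans_le hhs) h4))
      have h7 : Δ ≤ Fv x a' := h2.trans (cn_le.2 (Fv_one hxs (ha3'.trans_le hhs) h5))
      exact bAbs h6 (bIff_mpr h3 h7)

theorem nat_mem_evn (n : ℕ) {Γ : RO PP} : Γ ≤ Nm.mem (nat (2 * n)) (evn : Nm PP) := by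
  unfold evn
  exact bMemMk (κ := ULift.{1} ℕ) ⟨n⟩ le_top (bRefl _)

theorem nat_next (n : ℕ) {Γ : RO PP} : Γ ≤ NextB (nat n) (nat (n + 1) : Nm PP) := by
  refine le_iInf fun z => ?_
  rw [mem_nat_succ, sup_comm, Helper23.WT.iffV_self]
  exact le_top

/-- every ladder system fails to guess -/
theorem no_guess {Γ : RO PP} :
    Γ ≤ ⨅ L, LadB Sn L ⇨ ⨆ F, ⨆ C, NoGuessB (ordn θ) Sn L F C := by
  refine le_iInf fun L => bImp fun Δ _ hΔ => hΔ.trans ?_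
  obtain ⟨x, hx, hlab⟩ := exists_lab L
  rintro ⟨p0, c0⟩ hp0
  rw [RO.mem_iSup]
  rintro ⟨p1, c1⟩ hp1
  obtain ⟨q, hq, hqp, hxq⟩ := exists_coord p1.2 hx
  have hle : ((⟨q, hq⟩ : RT), c1) ≤ (p1, c1) := ⟨hqp, le_rfl⟩
  refine ⟨(⟨q, hq⟩, c1), hle, sbn θ (Fv x), mem_iSup_of (sbn θ (Cv x)) (cn_le.1 ?_)⟩
  have hX : cn ((⟨q, hq⟩ : RT), c1) ≤ Xb x := cn_le.2 (RO.subset_hull hxq)
  have hL : cn ((⟨q, hq⟩ : RT), c1) ≤ LadB Sn L := cn_le.2 (RO.lower _ (hle.trans hp1) hp0)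
  refine le_inf (hX.trans (cn_club x)) ?_
  refine le_iInf fun α => bImp fun Δ1 h1 h2 => bImp fun Δ2 h3 h4 => ?_
  refine bOrd (h3.trans (sbn_sub (t := θ) (v := Sv) h2)) fun α0 hα Δ3 h5 h6 => ?_
  have h7 : Δ3 ≤ Sv α0 := by
    have := bMemL h6 ((h5.trans h3).trans h2)
    rwa [sn_eq, mem_sbn hα] at this
  have h8 : Δ3 ≤ Cv x α0 := by
    have := bMemL h6 (h5.trans h4)
    rwa [mem_sbn hα] at this
  have h9 : Δ3 ≤ cn ((⟨q, hq⟩ : RT), c1) := (h5.trans h3).trans h1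
  refine bElim ((le_inf (h9.trans hX) (le_inf (h9.trans hL) (le_inf h7 h8))).trans
    (pair_diff hlab α0)) fun t Δ4 h10 h11 => ?_
  refine bElim (bLeft h11) fun l Δ5 h12 h13 => ?_
  refine bElim (bRight h13) fun n Δ6 h14 h15 => ?_
  refine bEx l (le_inf ?_ ?_)
  · exact bMemL (bOpairCongr (bSymm (((h14.trans h12).trans h10).trans h6)) (bRefl _))
      (bLeft (h14.trans h13))
  · refine bEx (nat (2 * n)) (le_inf (nat_mem_evn n) (bEx (nat (2 * n + 1)) (le_inf (nat_next _)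
      (bEx (ordn t.1.1) (le_inf (bLeft h15) (bEx (ordn t.1.2) (le_inf (bRight h15) ?_)))))))
    rw [mem_sbn (t.2.1.trans hα), mem_sbn (t.2.2.trans hα)]
    exact bRight ((h14.trans h12).trans h11)

end Pool.Agent.Helper82.LG
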