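import Pool.Agent.Helper82.LG.SnStat
import Pool.Agent.Helper82.LG.Code

set_option autoImplicit false

/-!
# There are only `θ` subsets of `lam`
-/

namespace Pool.Agent.Helper82.LG

open Cardinal Raw
open scoped Ordinal
open Helper23
open Helper23.CK
open Helper23.WT (iffV bElim bOr bMP bImp bNot bAbs bAll bEx bIff bIff_mp bIff_mpr bLeft bRight bCases bContra)
open Helper23.CK.Nm

/-- the coding of families of truth values -/
noncomputable def dcd : Set O → O → RO Co := exists_dcd.choose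

theorem dcd_surj (f : O → RO Co) (h : ∀ i < lam.ord, ∃ A : Set Bit, A.Countable ∧ Supp A (f i)) :
    ∃ X ⊆ Set.Iio lam.ord, ∀ i < lam.ord, dcd X i = f i := exists_dcd.choose_spec f h

/-- the positions of the coding -/
noncomputable def pos (δ i : O) : O := δ + ω * Order.succ i

/-- the bound of the positions -/
noncomputable def pb (δ : O) : O := δ + ω * lam.ord

theorem lt_pos (δ i : O) : δ < pos δ i := by
  unfold pos
  refine (lt_add_iff_pos_right δ).2 (mul_pos Ordinal.omega0_pos ?_)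
  exact lt_of_le_of_lt zero_le (Order.lt_succ i)

theorem pos_inj {δ i j : O} (h : pos δ i = pos δ j) : i = j := by
  unfold pos at h
  have h1 : ω * Order.succ i = ω * Order.succ j := (add_right_inj δ).1 h
  have h2 : Order.succ i = Order.succ j := (Ordinal.isNormal_mul_right Ordinal.omega0_pos).strictMono.injective h1
  exact Order.succ_injective h2

theorem cof_pos (δ i : O) : (pos δ i).cof = ℵ₀ := by
  unfold pos
  rw [Order.succ_eq_add_one, mul_add, mul_one, ← add_assoc, Ordinal.cof_add _ Ordinal.omega0_ne_zero,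
    Ordinal.cof_omega0]

theorem isSuccLimit_lam : Order.IsSuccLimit lam.ord := isSuccLimit_ord aleph0_le_lam

theorem pos_le {δ i : O} (h : i < lam.ord) : pos δ i ≤ pb δ := by
  unfold pos pb
  exact add_le_add le_rfl (mul_le_mul' le_rfl (isSuccLimit_lam.succ_lt h).le)

theorem pb_lt {δ : O} (h : δ < θ) : pb δ < θ := by
  unfold pb
  refine lt_theta ?_
  rw [Ordinal.card_add, Ordinal.card_mul, Ordinal.card_omega0, card_ord]
  calc δ.card + ℵ₀ * lam ≤ lam + lam * lam :=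
        add_le_add (card_lt_theta h) (mul_le_mul' aleph0_le_lam le_rfl)
    _ = lam := by rw [mul_eq_self aleph0_le_lam, add_eq_self aleph0_le_lam]

/-- the section of a truth value -/
def sec (b : RO PP) (r : RT) : RO Co where
  carrier := {c | (r, c) ∈ b.carrier}
  regular c := by
    constructor
    · intro h d hd
      exact ⟨d, le_rfl, lower1 h le_rfl hd⟩
    · intro h
      refine (b.regular (r, c)).2 ?_
      rintro ⟨r', d⟩ hd
      obtain ⟨e, he, he'⟩ := h d hd.2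
      exact ⟨(r', e), ⟨le_rfl, he⟩, lower1 he' hd.1 le_rfl⟩

theorem mem_sec {b : RO PP} {r : RT} {c : Co} : c ∈ (sec b r).carrier ↔ (r, c) ∈ b.carrier := Iff.rfl

section
variable {b : RO PP} {r : RT} {A : Set Bit}
  (hA : Dec (fun _ : O => ∅) (fun (_ : ℕ) (r : RT) (c : Co) (_ : O) =>
    (r, c) ∈ b.carrier ∨ (r, c) ∈ (bᶜ).carrier) r A)

include hA

theorem sec_supp : Supp A (sec b r) := by
  intro c hc
  refine ((sec b r).regular _).2 fun d hd => ?_
  obtain ⟨c', h1, h2, w, _, h3⟩ := hA.2.2 0 (Co.cut A d) (Co.cut_in _ _)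
  obtain ⟨e, he, he'⟩ := Co.amal h2 h1
  refine ⟨e, he, ?_⟩
  rcases h3 with h3 | h3
  · exact lower1 h3 le_rfl he'
  · have h4 : c' ≤ Co.cut A c := h1.trans (Co.le_cut_of (Co.cut_in A c) hd)
    obtain ⟨e1, he1, he1'⟩ := Co.amal h2 h4
    exact (RO.mem_compl.1 h3 (r, e1) ⟨le_rfl, he1'⟩ (lower1 hc le_rfl he1)).elim

theorem mem_sec_iff {r' : RT} (hr : r' ≤ r) (c : Co) :
    (r', c) ∈ b.carrier ↔ c ∈ (sec b r).carrier := by
  constructor
  · intro h
    refine ((sec b r).regular _).2 fun d hd => ?_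
    obtain ⟨c', h1, h2, w, _, h3⟩ := hA.2.2 0 (Co.cut A d) (Co.cut_in _ _)
    obtain ⟨e, he, he'⟩ := Co.amal h2 h1
    refine ⟨e, he, ?_⟩
    rcases h3 with h3 | h3
    · exact lower1 h3 le_rfl he'
    · exact (RO.mem_compl.1 h3 (r', e) ⟨hr, he'⟩ (lower1 h le_rfl (he.trans hd))).elim
  · intro h
    exact lower1 (mem_sec.1 h) hr le_rfl

end

/-- the set of the positions that are elements of `s` -/
def ptn (δ : O) (s : Set O) : Set O := {j | j < lam.ord ∧ pos δ j ∈ s}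

theorem ptn_congr {δ : O} {p q : Raw} (hq : q ≤ p) (h : pb δ ≤ p.ht) : ptn δ q.st = ptn δ p.st := by
  ext j
  exact and_congr_right fun hj => hq.2.1 _ ((pos_le hj).trans h)

/-- the decoded truth values -/
noncomputable def Av (δ i : O) : RO PP :=
  RO.hull {x | pb δ ≤ x.1.1.ht ∧ x.2 ∈ (dcd (ptn δ x.1.1.st) i).carrier} fun p q hq h =>
    ⟨h.1.trans hq.1.1, by
      rw [ptn_congr hq.1 h.1]
      exact RO.lower _ hq.2 h.2⟩

theorem mem_Av {δ i : O} {r : RT} {c : Co} (h : pb δ ≤ r.1.ht) :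
    (r, c) ∈ (Av δ i).carrier ↔ c ∈ (dcd (ptn δ r.1.st) i).carrier := by
  constructor
  · intro h1
    refine ((dcd (ptn δ r.1.st) i).regular c).2 fun d hd => ?_
    obtain ⟨⟨q, e⟩, hq, h2, h3⟩ := h1 (r, d) ⟨le_rfl, hd⟩
    have h4 : q.1 ≤ r.1 := hq.1
    simp only at h3
    rw [ptn_congr h4 h] at h3
    exact ⟨e, hq.2, h3⟩
  · intro h1
    exact RO.subset_hull ⟨h, h1⟩

theorem cn_inf_le {p : PP} {b b' : RO PP} (h : ∀ y ≤ p, y ∈ b.carrier → y ∈ b'.carrier) :
    cn p ⊓ b ≤ b' := le_himp_iff.1 (cn_le.2 (RO.mem_himp.2 h))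

/-- the subsets of `lam` are listed -/
theorem pow_lam {Γ : RO PP} : Γ ≤ ⨆ c, FunB c ⊓
    ⨅ A, (⨅ z, Nm.mem z A ⇨ Nm.mem z (ordn lam.ord)) ⇨
      ⨆ n, Nm.mem n (ordn θ) ⊓ Nm.mem (opair n A) c := by
  refine bEx (mk (Set.Iio θ) (fun δ => opair (ordn δ.1) (sbn lam.ord (Av δ.1))) (fun _ => ⊤))
    (le_inf ?_ ?_)
  · refine funB_pairs (a := fun δ : Set.Iio θ => (ordn δ.1 : Nm PP))
      (b := fun δ : Set.Iio θ => sbn lam.ord (Av δ.1)) fun i j Γ _ _ h => ?_
    by_cases hij : i = j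
    · rw [hij]; exact bRefl _
    · exact (eq_ordn (fun h' => hij (Subtype.ext h')) h).trans bot_le
  · refine le_iInf fun N => bImp fun Δ _ hΔ => hΔ.trans ?_
    rintro ⟨p0, c0⟩ hp0
    rw [RO.mem_iSup]
    rintro ⟨p1, c1⟩ hp1
    obtain ⟨r, hr, hdec⟩ := decide_all clo_RT (W := O) (fun _ => ∅)
      (sz_Iio lam_ord_lt_theta) (fun i _ r c _ => (r, c) ∈ (Nm.mem (ordn i) N).carrier ∨
        (r, c) ∈ ((Nm.mem (ordn i) N)ᶜ).carrier)
      (by
        rintro j m r r' c w h (h1 | h1)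
        · exact Or.inl (lower1 h1 h le_rfl)
        · exact Or.inr (lower1 h1 h le_rfl))
      (by
        intro j _ m r c
        obtain ⟨⟨r', c'⟩, h1, h2⟩ := RO.decide (Nm.mem (ordn j) N) (r, c)
        exact ⟨r', h1.1, c', h1.2, 0, h2⟩) p1
    choose! A hA using hdec
    obtain ⟨X, hX, hdcd⟩ := dcd_surj (fun i => sec (Nm.mem (ordn i) N) r)
      fun i hi => ⟨A i, (hA i hi).1, sec_supp (hA i hi)⟩
    have hθ : r.1.ht < θ := r.2.1.ht_lt
    have hle : r.1.ht ≤ pb r.1.ht := by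
      unfold pb; exact le_self_add
    obtain ⟨q, hq, hqr, hqh, hqs, _⟩ := exists_pad r.2 hle (pb_lt hθ) (pos r.1.ht '' X) (by
      rintro _ ⟨i, hi, rfl⟩
      exact ⟨lt_pos _ _, pos_le (hX hi), cof_pos _ _⟩)
    have hptn : ptn r.1.ht q.st = X := by
      ext j
      constructor
      · rintro ⟨hj, h⟩
        rw [hqs] at h
        rcases h with h | ⟨i, hi, h⟩
        · exact absurd (r.2.1.st_le _ h) (not_le.2 (lt_pos _ _))
        · exact pos_inj h ▸ hi
      · intro hj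
        refine ⟨hX hj, ?_⟩
        rw [hqs]
        exact Or.inr ⟨j, hj, rfl⟩
    have hle' : ((⟨q, hq⟩ : RT), c1) ≤ (p1, c1) := ⟨hqr.trans hr, le_rfl⟩
    refine ⟨(⟨q, hq⟩, c1), hle', ordn r.1.ht, ?_, ?_⟩
    · exact cn_le.1 (ordn_mem_ordn hθ)
    refine cn_le.1 (bPairs (a := fun δ : Set.Iio θ => (ordn δ.1 : Nm PP))
      (b := fun δ : Set.Iio θ => sbn lam.ord (Av δ.1)) ⟨r.1.ht, hθ⟩ le_top (bRefl _) ?_)
    have hp : cn ((⟨q, hq⟩ : RT), c1) ≤ ⨅ z, Nm.mem z N ⇨ Nm.mem z (ordn lam.ord) :=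
      cn_le.2 (RO.lower _ (hle'.trans hp1) hp0)
    have key : ∀ i < lam.ord, ∀ y ≤ ((⟨q, hq⟩ : RT), c1), y ∈ (Nm.mem (ordn i) N).carrier ↔
        y ∈ (Av r.1.ht i).carrier := by
      rintro i hi ⟨s, c⟩ hy
      have h1 : s.1 ≤ q := hy.1
      have h2 : pb r.1.ht ≤ q.ht := hqh.ge
      have h3 : s ≤ r := h1.trans hqr
      rw [mem_Av (h2.trans h1.1), ptn_congr h1 h2, hptn, hdcd i hi, mem_sec_iff (hA i hi) h3]
    refine bExt (fun z Δ1 h1 h2 => ?_) (fun z Δ1 h1 h2 => ?_)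
    · refine bOrd (bMP (bAll (h1.trans hp) z) h2) fun i hi Δ2 h3 h4 => ?_
      refine bMemL (bSymm h4) ?_
      rw [mem_sbn hi]
      exact (le_inf (h3.trans h1) (bMemL h4 (h3.trans h2))).trans
        (cn_inf_le fun y hy h => (key i hi y hy).1 h)
    · refine bOrd (sbn_sub h2) fun i hi Δ2 h3 h4 => ?_
      refine bMemL (bSymm h4) ?_
      have h5 := bMemL h4 (h3.trans h2)
      rw [mem_sbn hi] at h5
      exact (le_inf (h3.trans h1) h5).trans (cn_inf_le fun y hy h => (key i hi y hy).2 h)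

end Pool.Agent.Helper82.LG
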