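import Pool.Agent.Helper23.CK.KY
import Pool.Agent.Helper23.CK.Tr2
import Pool.Agent.Helper82.LG.Defs

set_option autoImplicit false
set_option linter.unreachableTactic false
set_option linter.unusedTactic false

/-!
# From the facts about the names to the statement in the transitive model
-/

namespace Pool.Agent.Helper82.LG

open Helper23
open Helper23.CK
open Helper23.WT (ZF ZM D1 F1 DF Dfn IsFun App IsOmega IsInductive IsFn opair upair prod pow exists_sep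
  app_iff isFun_iff isOPair_iff opair_inj opair_mem_prod mem_prod mem_pow mem_upair)

section
variable {M : ZFSet.{0}} [TM M]

/-- `a` has cofinality `ω = om` -/
def CofS (om a : Mo M) : Prop :=
  ∃ h, FunS h ∧ ((∀ n, ZM.E n om → ∃ c, ZM.E c a ∧ ZM.E (opair n c) h) ∧
    ∀ b, ZM.E b a → ∃ n, ZM.E n om ∧ ∃ c, ZM.E c a ∧ (ZM.E (opair n c) h ∧ ZM.E b c))

/-- `L` is a ladder system on `S` -/
def LadS (om S L : Mo M) : Prop :=
  ∀ α, ZM.E α S → ∃ l, ZM.E (opair α l) L ∧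
    ((∀ n, ZM.E n om → ∃ a, ZM.E a α ∧ ZM.E (opair n a) l) ∧
      ((∀ m n a b, ZM.E m n → ZM.E (opair m a) l → ZM.E (opair n b) l → ZM.E a b) ∧
        ∀ b, ZM.E b α → ∃ n, ZM.E n om ∧ ∃ a, ZM.E (opair n a) l ∧ ZM.E b a))

/-- the ladder system `L` on `S` does not guess the set `F`, as witnessed by the club `C` -/
def NoGuessS (ev t S L F C : Mo M) : Prop :=
  IsClub ZM.E t C ∧ ∀ α, ZM.E α S → (ZM.E α C → ∃ l, ZM.E (opair α l) L ∧ ∃ n, ZM.E n ev ∧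
    ∃ s, IsNext ZM.E n s ∧ ∃ a, ZM.E (opair n a) l ∧ ∃ b, ZM.E (opair s b) l ∧
      ¬ (ZM.E a F ↔ ZM.E b F))

/-- a set of pairs that is a total function can be cut down to a function -/
theorem exists_cut {c A B : Mo M} (h1 : FunS c)
    (h2 : ∀ x, ZM.E x A → ∃ y, ZM.E y B ∧ ZM.E (opair x y) c) :
    ∃ f, IsFun ZM.E f A B ∧ ∀ x y, App ZM.E f x y ↔ ZM.E x A ∧ ZM.E y B ∧ ZM.E (opair x y) c := by
  obtain ⟨f, hf⟩ := exists_sep (P := fun p : Mo M => ZM.E p c) (by open WT in (repeat' first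
      | with_reducible exact DF.var _ | with_reducible exact DF.const _
      | with_reducible apply Dfn.mem)) (prod A B)
  have hf' : ∀ x y, ZM.E (opair x y) f ↔ ZM.E x A ∧ ZM.E y B ∧ ZM.E (opair x y) c := by
    intro x y
    rw [hf, opair_mem_prod, and_assoc]
  refine ⟨f, isFun_iff.2 ⟨fun p hp => ?_, fun x hx => ?_⟩, fun x y => ?_⟩
  · exact mem_prod.1 ((hf p).1 hp).1
  · obtain ⟨y, hy, hxy⟩ := h2 x hx
    exact ⟨y, (hf' _ _).2 ⟨hx, hy, hxy⟩, fun y' hy' => h1 x y' y ((hf' _ _).1 hy').2.2 hxy⟩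
  · rw [app_iff, hf']

theorem cofOmega_of {om a : Mo M} (h : CofS om a) : CofOmega ZM.E om a := by
  obtain ⟨c, h1, h2, h3⟩ := h
  obtain ⟨f, hf, hf'⟩ := exists_cut h1 h2
  refine ⟨f, hf, fun b hb => ?_⟩
  obtain ⟨n, hn, d, hd, hnd, hbd⟩ := h3 b hb
  exact ⟨n, d, (hf' _ _).2 ⟨hn, hd, hnd⟩, hbd⟩

theorem ladS_of {om S L : Mo M} (h : IsLadderSystem ZM.E om S L) : LadS om S L := by
  intro α hα
  obtain ⟨l, h1, _, h3, h4, h5⟩ := h α hα
  rw [isFun_iff] at h3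
  refine ⟨l, app_iff.1 h1, fun n hn => ?_, fun m n a b hmn ha hb => ?_, fun b hb => ?_⟩
  · obtain ⟨a, ha, _⟩ := h3.2 n hn
    exact ⟨a, (h3.mem_dom ha).2, ha⟩
  · exact h4 m n a b hmn (app_iff.2 ha) (app_iff.2 hb)
  · obtain ⟨n, a, hna, hba⟩ := h5 b hb
    rw [app_iff] at hna
    exact ⟨n, (h3.mem_dom hna).1, a, hna, hba⟩

theorem val_empty {z : Mo M} (hz : ∀ y, ¬ ZM.E y z) : z.1 = ∅ := by
  rw [ZFSet.eq_empty]
  intro y hy
  exact hz ⟨y, mem_M hy⟩ hy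

theorem isEvens_of {om ev : Mo M} (hom : IsOm om.1) (hev : ∀ z, z ∈ ev.1 ↔ ∃ n : ℕ, z = num (2 * n)) :
    IsEvens ZM.E om ev := by
  refine ⟨fun n hn => ?_, fun z hz => ?_, fun n s hn hs => ?_⟩
  · obtain ⟨k, hk⟩ := (hev _).1 hn
    exact (hom _).2 ⟨_, hk⟩
  · exact (hev _).2 ⟨0, by rw [val_empty hz]; rfl⟩
  · obtain ⟨k, hk⟩ := (hom _).1 hn
    have hs' : s.1 = num (k + 1) := by
      ext z
      show z ∈ s.1 ↔ z ∈ insert (num k) (num k)
      rw [ZFSet.mem_insert_iff]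
      constructor
      · intro hz
        rcases (hs ⟨z, mem_M hz⟩).1 hz with h | h
        · right
          have h' : z ∈ n.1 := h
          rw [hk] at h'
          exact h'
        · left
          rw [← hk]
          exact congrArg Subtype.val h
      · rintro (rfl | hz)
        · rw [← hk]
          exact (hs n).2 (Or.inr rfl)
        · have hz' : z ∈ n.1 := by rw [hk]; exact hz
          exact (hs ⟨z, mem_M hz'⟩).2 (Or.inl hz')
    have key : ∀ j : ℕ, (num j : ZFSet.{0}) ∈ ev.1 ↔ Even j := by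
      intro j
      rw [hev]
      constructor
      · rintro ⟨n, hn⟩
        rw [num_inj hn]
        exact even_two_mul n
      · rintro ⟨n, rfl⟩
        exact ⟨n, by rw [two_mul]⟩
    show s.1 ∈ ev.1 ↔ ¬ n.1 ∈ ev.1
    rw [hs', hk, key, key, Nat.even_add_one]

/-- the characteristic function of a set -/
theorem exists_char (t F z u w : Mo M) (hw : ∀ y, ZM.E y w ↔ y = z ∨ y = u) :
    ∃ f, IsFun ZM.E f t w ∧ ∀ x y, App ZM.E f x y → (ZM.E x F → y = u) ∧ (¬ ZM.E x F → y = z) := by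
  obtain ⟨f, hf⟩ := exists_sep (P := fun p : Mo M => ∃ x, (ZM.E x F ∧ p = opair x u) ∨
    (¬ ZM.E x F ∧ p = opair x z)) (by open WT in (repeat' first
      | with_reducible apply DF.opair
      | with_reducible exact DF.var _ | with_reducible exact DF.const _
      | with_reducible apply Dfn.mem
      | with_reducible apply Dfn.eq | with_reducible apply Dfn.and
      | with_reducible apply Dfn.or
      | with_reducible apply Dfn.not | with_reducible apply Dfn.ex)) (prod t w)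
  have hf' : ∀ x y, ZM.E (opair x y) f ↔ (ZM.E x t ∧ ZM.E y w) ∧
      ((ZM.E x F ∧ y = u) ∨ (¬ ZM.E x F ∧ y = z)) := by
    intro x y
    rw [hf, opair_mem_prod]
    refine and_congr_right fun _ => ⟨?_, ?_⟩
    · rintro ⟨x', ⟨h1, h2⟩ | ⟨h1, h2⟩⟩
      · obtain ⟨rfl, rfl⟩ := opair_inj.1 h2
        exact Or.inl ⟨h1, rfl⟩
      · obtain ⟨rfl, rfl⟩ := opair_inj.1 h2
        exact Or.inr ⟨h1, rfl⟩
    · rintro (⟨h1, rfl⟩ | ⟨h1, rfl⟩)
      · exact ⟨x, Or.inl ⟨h1, rfl⟩⟩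
      · exact ⟨x, Or.inr ⟨h1, rfl⟩⟩
  refine ⟨f, isFun_iff.2 ⟨fun p hp => ?_, fun x hx => ?_⟩, fun x y h => ?_⟩
  · exact mem_prod.1 ((hf p).1 hp).1
  · by_cases hxF : ZM.E x F
    · refine ⟨u, (hf' _ _).2 ⟨⟨hx, (hw _).2 (Or.inr rfl)⟩, Or.inl ⟨hxF, rfl⟩⟩, fun y hy => ?_⟩
      rcases ((hf' _ _).1 hy).2 with h | h
      · exact h.2
      · exact (h.1 hxF).elim
    · refine ⟨z, (hf' _ _).2 ⟨⟨hx, (hw _).2 (Or.inl rfl)⟩, Or.inr ⟨hxF, rfl⟩⟩, fun y hy => ?_⟩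
      rcases ((hf' _ _).1 hy).2 with h | h
      · exact (hxF h.1).elim
      · exact h.2
  · rw [app_iff, hf'] at h
    rcases h.2 with h | h
    · exact ⟨fun _ => h.2, fun h' => (h' h.1).elim⟩
    · exact ⟨fun h' => (h.1 h').elim, fun _ => h.2⟩

theorem sem {om ev l t S : Mo M} (hom : IsOm om.1) (hev : ∀ z, z ∈ ev.1 ↔ ∃ n : ℕ, z = num (2 * n))
    (hl : l.1.IsOrdinal) (ht : t.1.IsOrdinal) (homl : ZM.E om l) (hlt : ZM.E l t)
    (hbelow : ∀ a, ZM.E a t → ∃ c, FunS c ∧ ∀ x, ZM.E x a → ∃ n, ZM.E n l ∧ ZM.E (opair n x) c)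
    (hinjt : ∀ a, ZM.E a t → ∀ f, ¬ InjS f t a) (hinjl : ∀ a, ZM.E a l → ∀ f, ¬ InjS f l a)
    (hcofl : CofS om l) (hcof : ∀ α, ZM.E α S → ZM.E α t ∧ CofS om α)
    (hreals : ∃ f, FunS f ∧ ((∀ x, ZM.E x t → ∃ A, (∀ z, ZM.E z A → ZM.E z om) ∧
      ZM.E (opair x A) f) ∧ ∀ x x' A, ZM.E (opair x A) f → ZM.E (opair x' A) f → x = x'))
    (hpow : ∃ c, FunS c ∧ ∀ A, (∀ z, ZM.E z A → ZM.E z l) →
      ∃ n, ZM.E n t ∧ ZM.E (opair n A) c)
    (hstat : ∀ C, IsClub ZM.E t C → ∃ x, ZM.E x S ∧ ZM.E x C)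
    (hng : ∀ L, LadS om S L → ∃ F C, NoGuessS ev t S L F C) :
    NoPairGuessing (ZM.E : Mo M → Mo M → Prop) := by
  -- `0`, `1` and `2`
  obtain ⟨z, hz⟩ : ∃ z : Mo M, ∀ y, ¬ ZM.E y z :=
    ⟨⟨num 0, mem_M ((hom _).2 ⟨0, rfl⟩)⟩, fun y hy => ZFSet.notMem_empty _ hy⟩
  have hu : ∀ y, ZM.E y (upair z z) ↔ y = z := fun y => by rw [mem_upair, or_self]
  have hzu : z ≠ upair z z := by
    intro h
    have h1 : ZM.E z (upair z z) := (hu z).2 rfl
    rw [← h] at h1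
    exact hz z h1
  have hw : ∀ y, ZM.E y (upair z (upair z z)) ↔ y = z ∨ y = upair z z := fun y => mem_upair
  have hltr : ∀ {x y : Mo M}, ZM.E x y → ZM.E y l → ZM.E x l := fun h1 h2 =>
    hl.isTransitive.mem_trans h1 h2
  have httr : ∀ {x y : Mo M}, ZM.E x y → ZM.E y t → ZM.E x t := fun h1 h2 =>
    ht.isTransitive.mem_trans h1 h2
  obtain ⟨f, hf1, hf2, hf3⟩ := hreals
  refine ⟨om, ev, upair z (upair z z), l, t, S, (isOmega_iff hom).2 rfl, isEvens_of hom hev,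
    ⟨z, upair z z, hz, hu, hw⟩,
    ⟨⟨isOrdinal_iff.2 hl, fun a ha h => ?_⟩, ⟨isOrdinal_iff.2 ht, fun a ha h => ?_⟩, hlt,
      fun a ha => ?_⟩, homl, cofOmega_of hcofl, ⟨om, pow om, homl, fun x => mem_pow, ?_⟩,
    ⟨pow l, fun x => mem_pow, ?_, ?_⟩, fun α hα => cofOmega_of (hcof α hα).2,
    ⟨fun x hx => (hcof x hx).1, hstat⟩, fun L hL hG => ?_⟩
  · obtain ⟨g, hg⟩ := CardLe.inj h
    exact hinjl a ha g hg
  · obtain ⟨g, hg⟩ := CardLe.inj h
    exact hinjt a ha g hg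
  · obtain ⟨c, hc1, hc2⟩ := hbelow a ha
    exact cardLe_of_list (c := c) hl hc2 hc1
  · obtain ⟨g, hg, hg'⟩ := exists_cut (c := f) (A := l) (B := pow om) hf1 fun x hx => by
      obtain ⟨A, hA, hxA⟩ := hf2 x (httr hx hlt)
      exact ⟨A, mem_pow.2 hA, hxA⟩
    exact ⟨g, hg, fun x x' A h1 h2 => hf3 x x' A ((hg' _ _).1 h1).2.2 ((hg' _ _).1 h2).2.2⟩
  · obtain ⟨c, hc1, hc2⟩ := hpow
    exact cardLe_of_list (c := c) ht (fun s hs => hc2 s (mem_pow.1 hs)) hc1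
  · obtain ⟨g, hg, hg'⟩ := exists_cut (c := f) (A := t) (B := pow l) hf1 fun x hx => by
      obtain ⟨A, hA, hxA⟩ := hf2 x hx
      exact ⟨A, mem_pow.2 fun y hy => hltr (hA y hy) homl, hxA⟩
    exact ⟨g, hg, fun x x' A h1 h2 => hf3 x x' A ((hg' _ _).1 h1).2.2 ((hg' _ _).1 h2).2.2⟩
  · obtain ⟨F, C, hC, hFC⟩ := hng L (ladS_of hL)
    obtain ⟨g, hg, hg'⟩ := exists_char t F z (upair z z) (upair z (upair z z)) hw
    obtain ⟨α, l', hαS, hαC, hl', hpair⟩ := hG g hg C hC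
    obtain ⟨l'', hl'', n, hn, s, hs, a, ha, b, hb, hab⟩ := hFC α hαS hαC
    obtain ⟨l₀, _, huniq, hfun, _, _⟩ := hL α hαS
    have e1 := huniq _ hl'
    have e2 := huniq _ (app_iff.2 hl'')
    subst e1
    subst e2
    rw [isFun_iff] at hfun
    have hat : ZM.E a t := httr (hfun.mem_dom ha).2 (hcof α hαS).1
    have hbt : ZM.E b t := httr (hfun.mem_dom hb).2 (hcof α hαS).1
    obtain ⟨c, hc, _⟩ := hg.2 a hat
    obtain ⟨d, hd, _⟩ := hg.2 b hbt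
    have hcd := hpair n s a b c d hn hs (app_iff.2 ha) (app_iff.2 hb) hc hd
    obtain ⟨c1, c2⟩ := hg' _ _ hc
    obtain ⟨d1, d2⟩ := hg' _ _ hd
    refine hab ⟨fun h => ?_, fun h => ?_⟩
    · by_contra h'
      exact hzu ((d2 h').symm.trans (hcd.symm.trans (c1 h)))
    · by_contra h'
      exact hzu ((c2 h').symm.trans (hcd.trans (d1 h)))

end

end Pool.Agent.Helper82.LG
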