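import Pool.Agent.Helper23.CK.Ma
import Pool.Agent.Helper82.LG.Sem
import Pool.Agent.Helper82.LG.Chk
import Pool.Agent.Helper82.LG.NoGuess
import Pool.Agent.Helper82.LG.PowLam

set_option autoImplicit false
set_option linter.unreachableTactic false
set_option linter.unusedTactic false

/-!
# The model
-/

namespace Pool.Agent.Helper82.LG

open Helper23
open Helper23.CK
open Helper23.WT (ZF ZM iffV)
open Helper23.CK.Gen (Tr TrF)

section
variable {P : Type 1} [Preorder P] {S : Set (Nm P)} {U : Set (RO P)} (hG : Gen S U)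

/-! ### translations -/

theorem tr_cof : hG.Tr (n := 2) (fun v => CofS (v 1) (v 0))
    (fun v => ⨆ h, FunB h ⊓ ((⨅ n, Nm.mem n (v 1) ⇨ ⨆ c, Nm.mem c (v 0) ⊓ Nm.mem (Nm.opair n c) h) ⊓
      ⨅ b, Nm.mem b (v 0) ⇨ ⨆ n, Nm.mem n (v 1) ⊓ ⨆ c, Nm.mem c (v 0) ⊓
        (Nm.mem (Nm.opair n c) h ⊓ Nm.mem b c))) := by
  unfold CofS FunS FunB
  (repeat' first
      | with_reducible exact TrF.var _
      | with_reducible apply TrF.opair
      | with_reducible apply Tr.mem | with_reducible apply Tr.eq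
      | with_reducible apply Tr.and | with_reducible apply Tr.imp
      | with_reducible apply Tr.iff
      | with_reducible apply Tr.ex | with_reducible apply Tr.all)

theorem tr_Scof : hG.Tr (n := 3) (fun v => ∀ α, ZM.E α (v 0) → ZM.E α (v 1) ∧ CofS (v 2) α)
    (fun v => ⨅ α, Nm.mem α (v 0) ⇨ Nm.mem α (v 1) ⊓ ⨆ h, FunB h ⊓
      ((⨅ n, Nm.mem n (v 2) ⇨ ⨆ c, Nm.mem c α ⊓ Nm.mem (Nm.opair n c) h) ⊓
      ⨅ b, Nm.mem b α ⇨ ⨆ n, Nm.mem n (v 2) ⊓ ⨆ c, Nm.mem c α ⊓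
        (Nm.mem (Nm.opair n c) h ⊓ Nm.mem b c))) := by
  unfold CofS FunS FunB
  (repeat' first
      | with_reducible exact TrF.var _
      | with_reducible apply TrF.opair
      | with_reducible apply Tr.mem | with_reducible apply Tr.eq
      | with_reducible apply Tr.and | with_reducible apply Tr.imp
      | with_reducible apply Tr.iff
      | with_reducible apply Tr.ex | with_reducible apply Tr.all)

theorem tr_reals : hG.Tr (n := 2) (fun v => ∃ f, FunS f ∧ ((∀ x, ZM.E x (v 0) →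
      ∃ A, (∀ z, ZM.E z A → ZM.E z (v 1)) ∧ ZM.E (WT.opair x A) f) ∧
      ∀ x x' A, ZM.E (WT.opair x A) f → ZM.E (WT.opair x' A) f → x = x'))
    (fun v => ⨆ f, FunB f ⊓
    ((⨅ x, Nm.mem x (v 0) ⇨ ⨆ A, (⨅ z, Nm.mem z A ⇨ Nm.mem z (v 1)) ⊓ Nm.mem (Nm.opair x A) f) ⊓
      ⨅ x, ⨅ x', ⨅ A, Nm.mem (Nm.opair x A) f ⇨ (Nm.mem (Nm.opair x' A) f ⇨ Nm.eq x x'))) := by
  unfold FunS FunB
  (repeat' first
      | with_reducible exact TrF.var _
      | with_reducible apply TrF.opair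
      | with_reducible apply Tr.mem | with_reducible apply Tr.eq
      | with_reducible apply Tr.and | with_reducible apply Tr.imp
      | with_reducible apply Tr.iff
      | with_reducible apply Tr.ex | with_reducible apply Tr.all)

theorem tr_pow : hG.Tr (n := 2) (fun v => ∃ c, FunS c ∧ ∀ A, (∀ z, ZM.E z A → ZM.E z (v 0)) →
      ∃ n, ZM.E n (v 1) ∧ ZM.E (WT.opair n A) c)
    (fun v => ⨆ c, FunB c ⊓
    ⨅ A, (⨅ z, Nm.mem z A ⇨ Nm.mem z (v 0)) ⇨ ⨆ n, Nm.mem n (v 1) ⊓ Nm.mem (Nm.opair n A) c) := by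
  unfold FunS FunB
  (repeat' first
      | with_reducible exact TrF.var _
      | with_reducible apply TrF.opair
      | with_reducible apply Tr.mem | with_reducible apply Tr.eq
      | with_reducible apply Tr.and | with_reducible apply Tr.imp
      | with_reducible apply Tr.iff
      | with_reducible apply Tr.ex | with_reducible apply Tr.all)

theorem tr_stat : hG.Tr (n := 2) (fun v => ∀ C, IsClub ZM.E (v 0) C → ∃ x, ZM.E x (v 1) ∧ ZM.E x C)
    (fun v => ⨅ C, ClubB (v 0) C ⇨ ⨆ x, Nm.mem x (v 1) ⊓ Nm.mem x C) := by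
  unfold IsClub ClubB
  (repeat' first
      | with_reducible exact TrF.var _
      | with_reducible apply TrF.opair
      | with_reducible apply Tr.mem | with_reducible apply Tr.eq
      | with_reducible apply Tr.and | with_reducible apply Tr.imp
      | with_reducible apply Tr.iff
      | with_reducible apply Tr.ex | with_reducible apply Tr.all)

/-- `LadB` with the name of `ω` as a variable -/
noncomputable def LadB' (o S L : Nm P) : RO P :=
  ⨅ α, Nm.mem α S ⇨ ⨆ l, Nm.mem (Nm.opair α l) L ⊓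
    ((⨅ n, Nm.mem n o ⇨ ⨆ a, Nm.mem a α ⊓ Nm.mem (Nm.opair n a) l) ⊓
      ((⨅ m, ⨅ n, ⨅ a, ⨅ b, Nm.mem m n ⇨ (Nm.mem (Nm.opair m a) l ⇨ (Nm.mem (Nm.opair n b) l ⇨
        Nm.mem a b))) ⊓
        ⨅ b, Nm.mem b α ⇨ ⨆ n, Nm.mem n o ⊓ ⨆ a, Nm.mem (Nm.opair n a) l ⊓ Nm.mem b a))

/-- `NoGuessB` with the name of the set of the even numbers as a variable -/
noncomputable def NoGuessB' (e t S L F C : Nm P) : RO P :=
  ClubB t C ⊓ ⨅ α, Nm.mem α S ⇨ (Nm.mem α C ⇨ ⨆ l, Nm.mem (Nm.opair α l) L ⊓ ⨆ n, Nm.mem n e ⊓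
    ⨆ s, NextB n s ⊓ ⨆ a, Nm.mem (Nm.opair n a) l ⊓ ⨆ b, Nm.mem (Nm.opair s b) l ⊓
      (iffV (Nm.mem a F) (Nm.mem b F))ᶜ)

theorem tr_ng : hG.Tr (n := 4) (fun v => ∀ L, LadS (v 2) (v 1) L →
      ∃ F C, NoGuessS (v 3) (v 0) (v 1) L F C)
    (fun v => ⨅ L, LadB' (v 2) (v 1) L ⇨ ⨆ F, ⨆ C, NoGuessB' (v 3) (v 0) (v 1) L F C) := by
  unfold LadS LadB' NoGuessS NoGuessB' IsClub ClubB IsNext NextB
  (repeat' first
      | with_reducible exact TrF.var _
      | with_reducible apply TrF.opair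
      | with_reducible apply Tr.mem | with_reducible apply Tr.eq
      | with_reducible apply Tr.and | with_reducible apply Tr.imp
      | with_reducible apply Tr.iff | with_reducible apply Tr.not | with_reducible apply Tr.or
      | with_reducible apply Tr.ex | with_reducible apply Tr.all)

theorem val_evn (hn : ∀ n, Nm.nat n ∈ S) (z : ZFSet.{0}) :
    z ∈ hG.val evn ↔ ∃ n : ℕ, z = num (2 * n) := by
  rw [hG.mem_val]
  constructor
  · rintro ⟨x, hx, hsub, rfl⟩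
    have h1 : x.IsSub evn := by
      by_contra h1
      have : Nm.sub evn x = ⊥ := by
        by_contra hc
        obtain ⟨p, hp⟩ := RO.ne_bot hc
        exact h1 (Nm.isSub_of_sub hp)
      rw [this] at hsub
      exact hG.bot hsub
    obtain ⟨⟨n⟩, rfl⟩ := h1
    exact ⟨n, hG.val_nat hn _⟩
  · rintro ⟨n, rfl⟩
    refine ⟨Nm.nat (2 * n), hn _, hG.up _ hG.top _ ?_, (hG.val_nat hn _).symm⟩
    exact sub_mk (a := fun n : ULift.{1} ℕ => (Nm.nat (2 * n.down) : Nm P)) (v := fun _ => ⊤) ⟨n⟩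

end

theorem noPairGuessing_gen {S : Set (Nm PP)} {U : Set (RO PP)} (hG : Gen S U)
    (hn : ∀ n, Nm.nat n ∈ S) (ho : Nm.omg ∈ S) (he : evn ∈ S) (ht : ordn θ ∈ S)
    (hl : ordn lam.ord ∈ S) (hS : Sn ∈ S) : NoPairGuessing (Mem hG.M) := by
  have hom := hG.isOm hn
  refine sem (M := hG.M) (om := hG.el Nm.omg ho) (ev := hG.el evn he) (l := hG.el (ordn lam.ord) hl)
    (t := hG.el (ordn θ) ht) (S := hG.el Sn hS) hom (val_evn hG hn) (hG.val_ordn_ord _)
    (hG.val_ordn_ord _) ?_ ?_ ?_ ?_ ?_ ?_ ?_ ?_ ?_ ?_ ?_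
  · exact (hG.mem_iff ho hl).1 (hG.up _ hG.top _ omg_mem)
  · exact (hG.mem_iff hl ht).1 (hG.up _ hG.top _ (ordn_mem_ordn lam_ord_lt_theta))
  · intro a ha
    obtain ⟨β, hβ, hβS, e⟩ := hG.mem_val_ordn.1 ha
    have e' : a = hG.el (ordn β) hβS := Subtype.ext e
    subst e'
    exact ((hG.tr_list).iff_mem ![ordn lam.ord, ordn β] (by
      intro i; fin_cases i <;> assumption)).2 (hG.up _ hG.top _ (list_below hβ))
  · intro a ha f hf
    obtain ⟨β, hβ, hβS, e⟩ := hG.mem_val_ordn.1 ha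
    have e' : a = hG.el (ordn β) hβS := Subtype.ext e
    subst e'
    have h1 := ((hG.tr_inj).iff_mem ![ordn θ, ordn β] (by intro i; fin_cases i <;> assumption)).1
      ⟨f, hf⟩
    have h2 : (⨆ f : Nm PP, InjB f (ordn θ) (ordn β)) = ⊥ := by
      rw [iSup_eq_bot]; exact inj_theta hβ
    have h3 : (⨆ f : Nm PP, InjB f (ordn θ) (ordn β)) ∈ U := h1
    rw [h2] at h3
    exact hG.bot h3
  · intro a ha f hf
    obtain ⟨β, hβ, hβS, e⟩ := hG.mem_val_ordn.1 ha
    have e' : a = hG.el (ordn β) hβS := Subtype.ext e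
    subst e'
    have h1 := ((hG.tr_inj).iff_mem ![ordn lam.ord, ordn β] (by
      intro i; fin_cases i <;> assumption)).1 ⟨f, hf⟩
    have h2 : (⨆ f : Nm PP, InjB f (ordn lam.ord) (ordn β)) = ⊥ := by
      rw [iSup_eq_bot]; exact inj_lam hβ
    have h3 : (⨆ f : Nm PP, InjB f (ordn lam.ord) (ordn β)) ∈ U := h1
    rw [h2] at h3
    exact hG.bot h3
  · exact ((tr_cof hG).iff_mem ![ordn lam.ord, Nm.omg] (by
      intro i; fin_cases i <;> assumption)).2 (hG.up _ hG.top _ cof_lam)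
  · exact ((tr_Scof hG).iff_mem ![Sn, ordn θ, Nm.omg] (by
      intro i; fin_cases i <;> assumption)).2 (hG.up _ hG.top _ Sn_cof)
  · exact ((tr_reals hG).iff_mem ![ordn θ, Nm.omg] (by
      intro i; fin_cases i <;> assumption)).2 (hG.up _ hG.top _ reals)
  · exact ((tr_pow hG).iff_mem ![ordn lam.ord, ordn θ] (by
      intro i; fin_cases i <;> assumption)).2 (hG.up _ hG.top _ pow_lam)
  · exact ((tr_stat hG).iff_mem ![ordn θ, Sn] (by
      intro i; fin_cases i <;> assumption)).2 (hG.up _ hG.top _ Sn_stat)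
  · exact ((tr_ng hG).iff_mem ![ordn θ, Sn, Nm.omg, evn] (by
      intro i; fin_cases i <;> assumption)).2 (hG.up _ hG.top _ no_guess)

/-- **There is a countable transitive model of ZFC in which pair guessing fails at the successor of
a singular cardinal that is not a strong limit.** -/
theorem main : ∃ M : ZFSet.{0}, M.IsTransitive ∧ {z | z ∈ M}.Countable ∧ ZFC (Mem M) ∧
    NoPairGuessing (Mem M) := by
  let A : Set (WW PP) := {WW.a Nm.omg, WW.a evn, WW.a (ordn θ), WW.a (ordn lam.ord), WW.a Sn}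
  have hA : A.Countable := (Set.toFinite _).countable
  obtain ⟨𝒮, hAS, _⟩ := exists_sys A hA
    ((⟨base 0 ∅, base_mem theta_pos (fun α hα => hα.elim)⟩, Co.emp) : PP)
  have h1 : Nm.omg ∈ 𝒮.S1 := hAS (by simp [A])
  have h2 : evn ∈ 𝒮.S1 := hAS (by simp [A])
  have h3 : ordn θ ∈ 𝒮.S1 := hAS (by simp [A])
  have h4 : ordn lam.ord ∈ 𝒮.S1 := hAS (by simp [A])
  have h5 : Sn ∈ 𝒮.S1 := hAS (by simp [A])
  exact ⟨𝒮.M, 𝒮.gen1.M_transitive, 𝒮.gen1.M_countable, 𝒮.gen1.zfc,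
    noPairGuessing_gen 𝒮.gen1 𝒮.nat_mem h1 h2 h3 h4 h5⟩

end Pool.Agent.Helper82.LG
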