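import Pool.Agent.Helper82.LG.SnStat

set_option autoImplicit false

/-!
# The names of the ladder systems
-/

namespace Pool.Agent.Helper82.LG

open Cardinal Raw
open Helper23
open Helper23.CK
open Helper23.WT (iffV bElim bOr bMP bImp bNot bAbs bAll bEx bIff bIff_mp bIff_mpr bLeft bRight bCases bContra)
open Helper23.CK.Nm

/-- truth value of: `(a, a')` is one of the pairs of the ladder at `α` -/
noncomputable def PairB (L : Nm PP) (α a a' : O) : RO PP :=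
  ⨆ l, Nm.mem (opair (ordn α) l) L ⊓ ⨆ n : ℕ, Nm.mem (opair (nat (2 * n)) (ordn a)) l ⊓
    Nm.mem (opair (nat (2 * n + 1)) (ordn a')) l

/-- there is a pair above `b` -/
theorem lad_pair {L : Nm PP} {α b : O} (hb : b < α) {Γ : RO PP} (hL : Γ ≤ LadB Sn L)
    (hS : Γ ≤ Nm.mem (ordn α) Sn) : Γ ≤
      ⨆ t : {t : O × O // b < t.1 ∧ b < t.2 ∧ t.1 < α ∧ t.2 < α ∧ t.1 ≠ t.2},
        PairB L α t.1.1 t.1.2 := by
  refine bElim (bMP (bAll hL (ordn α)) hS) fun l Δ hΔ hl => ?_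
  refine bElim (bMP (bAll (bRight (bRight (bRight hl))) (ordn b)) (ordn_mem_ordn hb))
    fun n Δ1 h1 hn => ?_
  have hn' := bLeft hn
  rw [mem_omg] at hn'
  refine bElim hn' fun k Δ2 h2 hk => ?_
  refine bElim (bRight (h2.trans hn)) fun a0 Δ3 h3 ha0 => ?_
  have h13 : Δ3 ≤ Δ := (h3.trans h2).trans h1
  refine bElim (bMP (bAll (bLeft (bRight (h13.trans hl))) (nat (2 * (k + 1)))) nat_mem_omg)
    fun a1 Δ4 h4 ha1 => ?_
  refine bElim (bMP (bAll (bLeft (bRight ((h4.trans h13).trans hl))) (nat (2 * (k + 1) + 1)))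
    nat_mem_omg) fun a2 Δ5 h5 ha2 => ?_
  refine bOrd (bLeft (h5.trans ha1)) fun β1 hβ1 Δ6 h6 he1 => ?_
  refine bOrd (bLeft (h6.trans ha2)) fun β2 hβ2 Δ7 h7 he2 => ?_
  have h73 : Δ7 ≤ Δ3 := ((h7.trans h6).trans h5).trans h4
  have hinc := bLeft (bRight (bRight ((h73.trans h13).trans hl)))
  have m0 : Δ7 ≤ Nm.mem (opair (nat k) a0) l :=
    bMemL (bOpairCongr ((h73.trans h3).trans hk) (bRefl _)) (bLeft (h73.trans ha0))
  have m1 : Δ7 ≤ Nm.mem (opair (nat (2 * (k + 1))) (ordn β1)) l :=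
    bMemL (bOpairCongr (bRefl _) (h7.trans he1)) (bRight (((h7.trans h6).trans h5).trans ha1))
  have m2 : Δ7 ≤ Nm.mem (opair (nat (2 * (k + 1) + 1)) (ordn β2)) l :=
    bMemL (bOpairCongr (bRefl _) he2) (bRight ((h7.trans h6).trans ha2))
  have i1 : Δ7 ≤ Nm.mem a0 (ordn β1) :=
    bMP (bMP (bMP (bAll (bAll (bAll (bAll hinc (nat k)) (nat (2 * (k + 1)))) a0) (ordn β1))
      (mem_nat_nat (by omega))) m0) m1
  have i2 : Δ7 ≤ Nm.mem (ordn β1) (ordn β2) :=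
    bMP (bMP (bMP (bAll (bAll (bAll (bAll hinc (nat (2 * (k + 1)))) (nat (2 * (k + 1) + 1)))
      (ordn β1)) (ordn β2)) (mem_nat_nat (by omega))) m1) m2
  refine bOrd i1 fun γ hγ Δ8 h8 he3 => ?_
  have i3 : Δ8 ≤ Nm.mem (ordn b) (ordn γ) := bMemR he3 (bRight ((h8.trans h73).trans ha0))
  by_cases hbγ : b < γ
  · by_cases h12 : β1 < β2
    · refine bEx ⟨(β1, β2), hbγ.trans hγ, (hbγ.trans hγ).trans h12, hβ1, hβ2, h12.ne⟩ ?_
      refine bEx l (le_inf (bLeft ((h8.trans (h73.trans h13)).trans hl)) (bEx (k + 1) ?_))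
      exact le_inf (h8.trans m1) (h8.trans m2)
    · exact (mem_ordn_lt h12 (h8.trans i2)).trans bot_le
  · exact (mem_ordn_lt hbγ i3).trans bot_le

/-- `(r, c)` forces that `(a, a')` is one of the pairs of the ladder at `α` -/
def Lb (L : Nm PP) (α a a' : O) (r : Raw) (c : Co) : Prop :=
  a < α ∧ a' < α ∧ a ≠ a' ∧ ∃ h : r ∈ Rt, ((⟨r, h⟩ : RT), c) ∈
    (LadB Sn L ⊓ Sv α ⇨ PairB L α a a').carrier

theorem Lb.mono {L : Nm PP} {α a a' : O} {r r' : Raw} {c c' : Co} (h : Lb L α a a' r c)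
    (hr : r' ∈ Rt) (hr' : r' ≤ r) (hc : c' ≤ c) : Lb L α a a' r' c' := by
  obtain ⟨h1, h2, h3, h4, h5⟩ := h
  exact ⟨h1, h2, h3, hr, lower1 h5 (show (⟨r', hr⟩ : RT) ≤ ⟨r, h4⟩ from hr') hc⟩

theorem pair_dense (L : Nm PP) {α b : O} (hα : α < θ) (hcof : α.cof = ℵ₀) (hb : b < α) (r : RT)
    (c : Co) : ∃ r' ≤ r, ∃ c' ≤ c, ∃ a a', b < a ∧ b < a' ∧ Lb L α a a' r'.1 c' := by
  obtain ⟨⟨r1, c1⟩, h1, h2⟩ := RO.decide (LadB Sn L ⊓ Sv α) (r, c)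
  rcases h2 with h2 | h2
  · have h3 : cn (r1, c1) ≤ LadB Sn L ⊓ Sv α := cn_le.2 h2
    have h4 := lad_pair hb (bLeft h3) (by rw [sn_eq, mem_sbn hα]; exact bRight h3)
    obtain ⟨⟨r', c'⟩, hy, t, ht⟩ := mem_iSup_ex (cn_le.1 h4)
    refine ⟨r', hy.1.trans h1.1, c', hy.2.trans h1.2, t.1.1, t.1.2, t.2.1, t.2.2.1, t.2.2.2.1,
      t.2.2.2.2.1, t.2.2.2.2.2, r'.2, ?_⟩
    exact mem_of_le (le_himp_iff.2 inf_le_left) ht
  · have hl : Order.IsSuccLimit α := Ordinal.one_lt_cof_iff.1 (by rw [hcof]; exact one_lt_aleph0)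
    refine ⟨r1, h1.1, c1, h1.2, Order.succ b, Order.succ (Order.succ b), Order.lt_succ b,
      (Order.lt_succ b).trans (Order.lt_succ _), hl.succ_lt hb, hl.succ_lt (hl.succ_lt hb),
      (Order.lt_succ _).ne, r1.2, ?_⟩
    exact mem_of_le (by rw [himp_eq]; exact le_sup_right) h2

/-- a coordinate for the given name of a ladder system -/
theorem exists_lab (L : Nm PP) : ∃ x : X, Adm x ∧ ∀ α a a' r c, lab x α a a' r c →
    Lb L α a a' r c := by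
  obtain ⟨ζ, _, hζ⟩ := exists_zeta (Y := Set.Iio θ × Co × Set.Iio θ)
    (fun y p q => q ≤ p ∧ (y.1.1.cof = ℵ₀ → y.2.2.1 < y.1.1 → ∃ c' ≤ y.2.1, ∃ a a',
      y.2.2.1 < a ∧ y.2.2.1 < a' ∧ Lb L y.1.1 a a' q c')) (by
    rintro ⟨α, c, b⟩ p hp
    by_cases h : α.1.cof = ℵ₀ ∧ b.1 < α.1
    · obtain ⟨r', h1, c', h2, a, a', h3⟩ := pair_dense L α.2 h.1 h.2 ⟨p, hp⟩ c
      exact ⟨r'.1, r'.2, h1, fun _ _ => ⟨c', h2, a, a', h3⟩⟩
    · exact ⟨p, hp, le_rfl, fun h1 h2 => (h ⟨h1, h2⟩).elim⟩) 0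
  obtain ⟨i, hi, hlab⟩ := lab_surj (ζ := ζ)
    (Λ := fun α a a' r c => α < θ ∧ a < θ ∧ a' < θ ∧ r ∈ Rs ζ ∧ Lb L α a a' r c)
    (fun α a a' r c h => ⟨h.1, h.2.1, h.2.2.1, h.2.2.2.1⟩)
  refine ⟨(ζ, i), ⟨hi, ?_⟩, fun α a a' r c h => ?_⟩
  · rw [hlab]
    refine ⟨fun α a a' r c h => ⟨h.2.2.2.2.1, h.2.2.2.2.2.1, h.2.2.2.2.2.2.1⟩, ?_, ?_⟩
    · intro α a a' r c r' c' h hr hr' hc
      exact ⟨h.1, h.2.1, h.2.2.1, hr, h.2.2.2.2.mono (Rs_sub hr) hr' hc⟩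
    · intro α hα hcof r hr c b hb
      obtain ⟨q, hq, hqr, h1⟩ := hζ (⟨α, hα⟩, c, ⟨b, hb.trans hα⟩) r hr
      obtain ⟨c', hc', a, a', h2, h3, h4⟩ := h1 hcof hb
      exact ⟨q, hq, hqr, c', hc', a, a', h2, h3, hα, h4.1.trans hα, h4.2.1.trans hα, hq, h4⟩
  · rw [hlab] at h
    exact h.2.2.2.2

end Pool.Agent.Helper82.LG
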