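import Pool.Agent.Helper82.LG.Dist

/-!
# The forcing conditions
-/

set_option autoImplicit false

namespace Pool.Agent.Helper82.LG

open Cardinal

/-- the data of a condition: the height, an initial segment of the generic set of ordinals, the
support, the digit functions and the initial segments of the clubs -/
structure Raw : Type 1 where
  ht : O
  st : Set O
  sp : Set X
  dg : X → O → ℕ
  cl : X → Set O

namespace Raw

theorem ext' {p q : Raw} (h1 : p.ht = q.ht) (h2 : p.st = q.st) (h3 : p.sp = q.sp)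
    (h4 : p.dg = q.dg) (h5 : p.cl = q.cl) : p = q := by
  cases p; cases q; cases h1; cases h2; cases h3; cases h4; cases h5; rfl

instance : Preorder Raw where
  le q p := p.ht ≤ q.ht ∧ (∀ α ≤ p.ht, α ∈ q.st ↔ α ∈ p.st) ∧ p.sp ⊆ q.sp ∧
    ∀ x ∈ p.sp, (∀ γ < p.ht, q.dg x γ = p.dg x γ) ∧ ∀ α ≤ p.ht, α ∈ q.cl x ↔ α ∈ p.cl x
  le_refl _ := ⟨le_rfl, fun _ _ => Iff.rfl, subset_rfl, fun _ _ => ⟨fun _ _ => rfl, fun _ _ => Iff.rfl⟩⟩
  le_trans r q p h h' := ⟨h'.1.trans h.1,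
    fun α hα => (h.2.1 α (hα.trans h'.1)).trans (h'.2.1 α hα), h'.2.2.1.trans h.2.2.1,
    fun x hx => ⟨fun γ hγ => ((h.2.2.2 x (h'.2.2.1 hx)).1 γ (hγ.trans_le h'.1)).trans
        ((h'.2.2.2 x hx).1 γ hγ),
      fun α hα => ((h.2.2.2 x (h'.2.2.1 hx)).2 α (hα.trans h'.1)).trans
        ((h'.2.2.2 x hx).2 α hα)⟩⟩

theorem le_def {q p : Raw} : q ≤ p ↔ p.ht ≤ q.ht ∧ (∀ α ≤ p.ht, α ∈ q.st ↔ α ∈ p.st) ∧
    p.sp ⊆ q.sp ∧ ∀ x ∈ p.sp, (∀ γ < p.ht, q.dg x γ = p.dg x γ) ∧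
      ∀ α ≤ p.ht, α ∈ q.cl x ↔ α ∈ p.cl x := Iff.rfl

open Classical in
/-- the restriction to the coordinates with level in `G` -/
noncomputable def restr (G : Set O) (p : Raw) : Raw where
  ht := p.ht
  st := p.st
  sp := {x | x ∈ p.sp ∧ x.1 ∈ G}
  dg x γ := if x.1 ∈ G then p.dg x γ else 0
  cl x := {α | α ∈ p.cl x ∧ x.1 ∈ G}

variable {G : Set O} {p q : Raw}

@[simp] theorem restr_ht : (restr G p).ht = p.ht := rfl
@[simp] theorem restr_st : (restr G p).st = p.st := rfl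
@[simp] theorem mem_restr_sp {x : X} : x ∈ (restr G p).sp ↔ x ∈ p.sp ∧ x.1 ∈ G := Iff.rfl
@[simp] theorem mem_restr_cl {x : X} {α : O} : α ∈ (restr G p).cl x ↔ α ∈ p.cl x ∧ x.1 ∈ G := Iff.rfl

theorem restr_dg {x : X} (h : x.1 ∈ G) (γ : O) : (restr G p).dg x γ = p.dg x γ := if_pos h

theorem restr_dg' {x : X} (h : x.1 ∉ G) (γ : O) : (restr G p).dg x γ = 0 := if_neg h

theorem le_restr (G : Set O) (p : Raw) : p ≤ restr G p :=
  ⟨le_rfl, fun _ _ => Iff.rfl, fun _ hx => hx.1, fun x hx => ⟨fun γ _ => (restr_dg hx.2 γ).symm,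
    fun _ _ => ⟨fun h => ⟨h, hx.2⟩, fun h => h.1⟩⟩⟩

theorem restr_mono (G : Set O) (h : q ≤ p) : restr G q ≤ restr G p :=
  ⟨h.1, h.2.1, fun _ hx => ⟨h.2.2.1 hx.1, hx.2⟩, fun x hx =>
    ⟨fun γ hγ => by rw [restr_dg hx.2, restr_dg hx.2]; exact (h.2.2.2 x hx.1).1 γ hγ,
      fun α hα => and_congr_left fun _ => (h.2.2.2 x hx.1).2 α hα⟩⟩

theorem restr_restr (G H : Set O) (p : Raw) : restr G (restr H p) = restr (G ∩ H) p := by
  refine ext' rfl rfl ?_ ?_ ?_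
  · ext x
    simp only [mem_restr_sp, Set.mem_inter_iff]
    tauto
  · funext x γ
    by_cases h : x.1 ∈ G
    · by_cases h' : x.1 ∈ H
      · rw [restr_dg h, restr_dg h', restr_dg (show x.1 ∈ G ∩ H from ⟨h, h'⟩)]
      · rw [restr_dg h, restr_dg' h', restr_dg' fun h'' : x.1 ∈ G ∩ H => h' h''.2]
    · rw [restr_dg' h, restr_dg' fun h'' : x.1 ∈ G ∩ H => h h''.1]
  · funext x
    ext α
    simp only [mem_restr_cl, Set.mem_inter_iff]
    tauto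

end Raw

open Raw

/-- normal form -/
structure NF (p : Raw) : Prop where
  ht_lt : p.ht < θ
  st_le : ∀ α ∈ p.st, α ≤ p.ht
  st_cof : ∀ α ∈ p.st, α.cof = ℵ₀
  sp_sz : Sz p.sp
  dg0 : ∀ x γ, x ∉ p.sp ∨ p.ht ≤ γ → p.dg x γ = 0
  cl0 : ∀ x, x ∉ p.sp → p.cl x = ∅
  cl_le : ∀ x, ∀ α ∈ p.cl x, α ≤ p.ht
  cl_cl : ∀ x, ∀ δ ≤ p.ht, 0 < δ → (∀ β < δ, ∃ γ ∈ p.cl x, β < γ ∧ γ < δ) → δ ∈ p.cl x

theorem NF.mem_sp {p : Raw} (h : NF p) {x : X} {α : O} (hα : α ∈ p.cl x) : x ∈ p.sp := by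
  by_contra hx
  rw [h.cl0 x hx] at hα
  exact hα

theorem NF.restr {p : Raw} (h : NF p) (G : Set O) : NF (restr G p) where
  ht_lt := h.ht_lt
  st_le := h.st_le
  st_cof := h.st_cof
  sp_sz := h.sp_sz.mono fun _ hx => hx.1
  dg0 x γ hx := by
    by_cases hG : x.1 ∈ G
    · rw [restr_dg hG]
      exact h.dg0 x γ (hx.imp (fun hx hx' => hx ⟨hx', hG⟩) id)
    · rw [restr_dg' hG]
  cl0 x hx := by
    ext α
    simp only [mem_restr_cl, Set.mem_empty_iff_false, iff_false]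
    exact fun hα => hx ⟨h.mem_sp hα.1, hα.2⟩
  cl_le x α hα := h.cl_le x α hα.1
  cl_cl x δ hδ h0 hu := by
    obtain ⟨γ, hγ, _⟩ := hu 0 h0
    refine ⟨h.cl_cl x δ hδ h0 fun β hβ => ?_, hγ.2⟩
    obtain ⟨γ, hγ, h1⟩ := hu β hβ
    exact ⟨γ, hγ.1, h1⟩

/-- names of ladder systems: `Λ α a a' r c` means that `(r, c)` forces that `(a, a')` is one of the
pairs of the ladder at `α` -/
abbrev Lab : Type 1 := O → O → O → Raw → Co → Prop

/-- a good name of a ladder system -/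
structure Good (R : Set Raw) (Λ : Lab) : Prop where
  lt : ∀ α a a' r c, Λ α a a' r c → a < α ∧ a' < α ∧ a ≠ a'
  mono : ∀ α a a' r c r' c', Λ α a a' r c → r' ∈ R → r' ≤ r → c' ≤ c → Λ α a a' r' c'
  ex : ∀ α < θ, α.cof = ℵ₀ → ∀ r ∈ R, ∀ c, ∀ b < α, ∃ r' ∈ R, r' ≤ r ∧ ∃ c' ≤ c, ∃ a a',
    b < a ∧ b < a' ∧ Λ α a a' r' c'

/-- the constraint at `α` -/
def Con (R : Set Raw) (Λ : Lab) (p : Raw) (x : X) (α : O) : Prop :=
  ∀ r ∈ R, r ≤ restr (Set.Iio x.1) p → ∀ c, ∃ r' ∈ R, r' ≤ r ∧ ∃ c' ≤ c, ∃ a a',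
    Λ α a a' r' c' ∧ Co.Diff c' (a, p.dg x a) (a', p.dg x a')

theorem Con.mono {R : Set Raw} {Λ : Lab} (hΛ : Good R Λ) {p p' : Raw} {x : X} {α : O} (hp : p' ≤ p)
    (hx : x ∈ p.sp) (hα : α ≤ p.ht) (h : Con R Λ p x α) : Con R Λ p' x α := by
  intro r hr hr' c
  obtain ⟨r', h1, h2, c', h3, a, a', h4, h5⟩ := h r hr (hr'.trans (restr_mono _ hp)) c
  obtain ⟨h6, h7, _⟩ := hΛ.lt _ _ _ _ _ h4
  refine ⟨r', h1, h2, c', h3, a, a', h4, ?_⟩
  rw [(hp.2.2.2 x hx).1 a (h6.trans_le hα), (hp.2.2.2 x hx).1 a' (h7.trans_le hα)]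
  exact h5

theorem Con.congr {R : Set Raw} {Λ : Lab} {p p' : Raw} {x : X} {α : O}
    (h1 : restr (Set.Iio x.1) p = restr (Set.Iio x.1) p') (h2 : p.dg x = p'.dg x)
    (h : Con R Λ p x α) : Con R Λ p' x α := by
  intro r hr hr' c
  rw [← h2]
  exact h r hr (by rw [h1]; exact hr') c

/-- the data of a stage: the conditions of smaller level, and a list of the names -/
structure Stage : Type 1 where
  R : Set Raw
  lab : O → Lab
  bd : O

/-- the set of the names over `R` -/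
def LabS (R : Set Raw) : Set Lab :=
  {Λ | ∀ α a a' r c, Λ α a a' r c → α < θ ∧ a < θ ∧ a' < θ ∧ r ∈ R}

open Classical in
/-- a stage with a given set of conditions -/
noncomputable def mkStage (R : Set Raw) : Stage :=
  if h : ∃ t : (O → Lab) × O, ∀ Λ ∈ LabS R, ∃ i < t.2, t.1 i = Λ then ⟨R, h.choose.1, h.choose.2⟩
  else ⟨R, fun _ _ _ _ _ _ => False, 0⟩

theorem mkStage_R (R : Set Raw) : (mkStage R).R = R := by
  unfold mkStage
  split_ifs <;> rfl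

theorem mkStage_spec {R : Set Raw} (h : ∃ t : (O → Lab) × O, ∀ Λ ∈ LabS R, ∃ i < t.2, t.1 i = Λ) :
    ∀ Λ ∈ LabS R, ∃ i < (mkStage R).bd, (mkStage R).lab i = Λ := by
  unfold mkStage
  rw [dif_pos h]
  exact h.choose_spec

/-- the condition on a coordinate -/
def Ok (T : Stage) (x : X) (p : Raw) : Prop :=
  x.2 < T.bd ∧ Good T.R (T.lab x.2) ∧ ∀ α ∈ p.cl x, α ∈ p.st → Con T.R (T.lab x.2) p x α

/-- the stages -/
noncomputable def stg : O → Stage :=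
  WellFounded.fix (C := fun _ => Stage) (r := (· < ·)) wellFounded_lt fun ζ F =>
    mkStage {p | NF p ∧ ∀ x ∈ p.sp, ∃ h : x.1 < ζ, Ok (F x.1 h) x p}

/-- the conditions with coordinates of level below `ζ` -/
def Rs (ζ : O) : Set Raw := {p | NF p ∧ ∀ x ∈ p.sp, x.1 < ζ ∧ Ok (stg x.1) x p}

theorem stg_eq (ζ : O) : stg ζ = mkStage (Rs ζ) := by
  have h : stg ζ = mkStage {p | NF p ∧ ∀ x ∈ p.sp, ∃ _ : x.1 < ζ, Ok (stg x.1) x p} := by
    conv_lhs => unfold stg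
    rw [WellFounded.fix_eq]
    rfl
  rw [h]
  congr 1
  ext p
  exact and_congr_right fun _ => forall₂_congr fun x _ => by simp

theorem stg_R (ζ : O) : (stg ζ).R = Rs ζ := by rw [stg_eq, mkStage_R]

/-- the name that belongs to a coordinate -/
noncomputable def lab (x : X) : Lab := (stg x.1).lab x.2

/-- the admissible coordinates -/
def Adm (x : X) : Prop := x.2 < (stg x.1).bd ∧ Good (Rs x.1) (lab x)

theorem ok_iff {x : X} {p : Raw} : Ok (stg x.1) x p ↔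
    Adm x ∧ ∀ α ∈ p.cl x, α ∈ p.st → Con (Rs x.1) (lab x) p x α := by
  unfold Ok Adm lab
  rw [stg_R]
  tauto

/-- the conditions -/
def Rt : Set Raw :=
  {p | NF p ∧ ∀ x ∈ p.sp, Adm x ∧ ∀ α ∈ p.cl x, α ∈ p.st → Con (Rs x.1) (lab x) p x α}

theorem mem_Rs {ζ : O} {p : Raw} : p ∈ Rs ζ ↔ p ∈ Rt ∧ ∀ x ∈ p.sp, x.1 < ζ := by
  constructor
  · rintro ⟨h1, h2⟩
    exact ⟨⟨h1, fun x hx => ok_iff.1 (h2 x hx).2⟩, fun x hx => (h2 x hx).1⟩
  · rintro ⟨⟨h1, h2⟩, h3⟩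
    exact ⟨h1, fun x hx => ⟨h3 x hx, ok_iff.2 (h2 x hx)⟩⟩

theorem Rs_sub {ζ : O} : Rs ζ ⊆ Rt := fun _ h => (mem_Rs.1 h).1

theorem Rs_mono {ζ η : O} (h : ζ ≤ η) : Rs ζ ⊆ Rs η := fun _ hp =>
  mem_Rs.2 ⟨(mem_Rs.1 hp).1, fun x hx => ((mem_Rs.1 hp).2 x hx).trans_le h⟩

theorem restr_Iio {G : Set O} (hG : IsLowerSet G) {ζ : O} (hζ : ζ ∈ G) (p : Raw) :
    restr (Set.Iio ζ) (restr G p) = restr (Set.Iio ζ) p := by
  rw [restr_restr]
  congr 1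
  ext η
  simp only [Set.mem_inter_iff, Set.mem_Iio, and_iff_left_iff_imp]
  exact fun h => hG h.le hζ

theorem restr_mem {G : Set O} (hG : IsLowerSet G) {p : Raw} (hp : p ∈ Rt) : restr G p ∈ Rt := by
  refine ⟨hp.1.restr G, fun x hx => ⟨(hp.2 x hx.1).1, fun α hα hα' => ?_⟩⟩
  refine Con.congr (restr_Iio hG hx.2 p).symm ?_ ((hp.2 x hx.1).2 α hα.1 hα')
  funext γ
  exact (restr_dg hx.2 γ).symm

theorem restr_mem_Rs {ζ : O} {p : Raw} (hp : p ∈ Rt) : restr (Set.Iio ζ) p ∈ Rs ζ :=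
  mem_Rs.2 ⟨restr_mem (isLowerSet_Iio ζ) hp, fun _ hx => hx.2⟩

theorem exists_level {p : Raw} (hp : p ∈ Rt) : ∃ ζ, p ∈ Rs ζ := by
  have h : Sz (Prod.fst '' p.sp) := hp.1.sp_sz.image _
  refine ⟨Order.succ (sSup (Prod.fst '' p.sp)), mem_Rs.2 ⟨hp, fun x hx => ?_⟩⟩
  exact Order.lt_succ_iff.2 (le_csSup h.bdd ⟨x, hx, rfl⟩)

/-! ### merging -/

open Classical in
/-- the coordinates of `q` with level in `G` and the other coordinates of `p`, with the constant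
digits `u` -/
noncomputable def mrg (G : Set O) (q p : Raw) (u : X → ℕ) : Raw where
  ht := q.ht
  st := q.st
  sp := {x | (x ∈ q.sp ∧ x.1 ∈ G) ∨ (x ∈ p.sp ∧ x.1 ∉ G)}
  dg x γ := if x.1 ∈ G then q.dg x γ else if x ∈ p.sp ∧ p.ht ≤ γ ∧ γ < q.ht then u x else p.dg x γ
  cl x := {α | (α ∈ q.cl x ∧ x.1 ∈ G) ∨ (α ∈ p.cl x ∧ x.1 ∉ G)}

section
variable {G : Set O} {q p : Raw} {u : X → ℕ}

theorem mrg_dg {x : X} (h : x.1 ∈ G) (γ : O) : (mrg G q p u).dg x γ = q.dg x γ := if_pos h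

open Classical in
theorem mrg_dg' {x : X} (h : x.1 ∉ G) {γ : O} (hγ : γ < p.ht) :
    (mrg G q p u).dg x γ = p.dg x γ := by
  show (if x.1 ∈ G then _ else _) = _
  rw [if_neg h, if_neg fun h' => absurd hγ (not_lt.2 h'.2.1)]

open Classical in
theorem mrg_dg_new {x : X} (h : x.1 ∉ G) (hx : x ∈ p.sp) {γ : O} (h1 : p.ht ≤ γ) (h2 : γ < q.ht) :
    (mrg G q p u).dg x γ = u x := by
  show (if x.1 ∈ G then _ else _) = _
  rw [if_neg h, if_pos ⟨hx, h1, h2⟩]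

theorem mem_mrg_cl {x : X} (h : x.1 ∈ G) {α : O} : α ∈ (mrg G q p u).cl x ↔ α ∈ q.cl x := by
  show (α ∈ q.cl x ∧ x.1 ∈ G) ∨ (α ∈ p.cl x ∧ x.1 ∉ G) ↔ _
  tauto

theorem mem_mrg_cl' {x : X} (h : x.1 ∉ G) {α : O} : α ∈ (mrg G q p u).cl x ↔ α ∈ p.cl x := by
  show (α ∈ q.cl x ∧ x.1 ∈ G) ∨ (α ∈ p.cl x ∧ x.1 ∉ G) ↔ _
  tauto

theorem mrg_le (h : restr G q ≤ restr G p) : mrg G q p u ≤ p := by
  refine ⟨h.1, h.2.1, fun x hx => ?_, fun x hx => ?_⟩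
  · by_cases hG : x.1 ∈ G
    · exact Or.inl (h.2.2.1 (show x ∈ (restr G p).sp from ⟨hx, hG⟩))
    · exact Or.inr ⟨hx, hG⟩
  · by_cases hG : x.1 ∈ G
    · obtain ⟨h1, h2⟩ := h.2.2.2 x ⟨hx, hG⟩
      refine ⟨fun γ hγ => ?_, fun α hα => ?_⟩
      · have := h1 γ hγ
        rw [restr_dg hG, restr_dg hG] at this
        rw [mrg_dg hG, this]
      · have := h2 α hα
        simp only [mem_restr_cl, hG, and_true] at this
        rw [mem_mrg_cl hG, this]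
    · exact ⟨fun γ hγ => mrg_dg' hG hγ, fun α _ => mem_mrg_cl' hG⟩

theorem restr_mrg {H : Set O} (hH : H ⊆ G) : restr H (mrg G q p u) = restr H q := by
  refine Raw.ext' rfl rfl ?_ ?_ ?_
  · ext x
    simp only [mem_restr_sp]
    refine and_congr_left fun h => ?_
    show (x ∈ q.sp ∧ x.1 ∈ G) ∨ (x ∈ p.sp ∧ x.1 ∉ G) ↔ _
    have := hH h
    tauto
  · funext x γ
    by_cases h : x.1 ∈ H
    · rw [restr_dg h, restr_dg h, mrg_dg (hH h)]
    · rw [restr_dg' h, restr_dg' h]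
  · funext x
    ext α
    simp only [mem_restr_cl]
    exact and_congr_left fun h => mem_mrg_cl (hH h)

open Classical in
theorem mrg_mem (hG : IsLowerSet G) (hq : q ∈ Rt) (hp : p ∈ Rt) (h : restr G q ≤ restr G p) :
    mrg G q p u ∈ Rt := by
  have hle := mrg_le (u := u) h
  refine ⟨⟨hq.1.ht_lt, hq.1.st_le, hq.1.st_cof, ?_, ?_, ?_, ?_, ?_⟩, ?_⟩
  · refine (hq.1.sp_sz.union hp.1.sp_sz).mono fun x hx => ?_
    exact hx.imp (fun h => h.1) (fun h => h.1)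
  · intro x γ hx
    by_cases hx' : x.1 ∈ G
    · rw [mrg_dg hx']
      exact hq.1.dg0 x γ (hx.imp (fun h h' => h (Or.inl ⟨h', hx'⟩)) id)
    · rcases hx with hx | hx
      · have hxp : x ∉ p.sp := fun h' => hx (Or.inr ⟨h', hx'⟩)
        show (if x.1 ∈ G then _ else _) = _
        rw [if_neg hx', if_neg fun h' => hxp h'.1, hp.1.dg0 x γ (Or.inl hxp)]
      · show (if x.1 ∈ G then _ else _) = _
        rw [if_neg hx', if_neg fun h' => absurd h'.2.2 (not_lt.2 hx),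
          hp.1.dg0 x γ (Or.inr (h.1.trans hx))]
  · intro x hx
    ext α
    simp only [Set.mem_empty_iff_false, iff_false]
    rintro (h' | h')
    · exact hx (Or.inl ⟨hq.1.mem_sp h'.1, h'.2⟩)
    · exact hx (Or.inr ⟨hp.1.mem_sp h'.1, h'.2⟩)
  · rintro x α (h' | h')
    · exact hq.1.cl_le x α h'.1
    · exact (hp.1.cl_le x α h'.1).trans h.1
  · intro x δ hδ h0 hu
    by_cases hx' : x.1 ∈ G
    · rw [mem_mrg_cl hx']
      refine hq.1.cl_cl x δ hδ h0 fun β hβ => ?_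
      obtain ⟨γ, h1, h2⟩ := hu β hβ
      exact ⟨γ, (mem_mrg_cl hx').1 h1, h2⟩
    · rw [mem_mrg_cl' hx']
      have hδ' : δ ≤ p.ht := by
        by_contra hc
        push Not at hc
        obtain ⟨γ, h1, h2⟩ := hu p.ht hc
        exact absurd h2.1 (not_lt.2 (hp.1.cl_le x γ ((mem_mrg_cl' hx').1 h1)))
      refine hp.1.cl_cl x δ hδ' h0 fun β hβ => ?_
      obtain ⟨γ, h1, h2⟩ := hu β hβ
      exact ⟨γ, (mem_mrg_cl' hx').1 h1, h2⟩
  · rintro x (⟨hx, hx'⟩ | ⟨hx, hx'⟩)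
    · refine ⟨(hq.2 x hx).1, fun α hα hα' => ?_⟩
      refine Con.congr (p := q) ?_ ?_ ((hq.2 x hx).2 α ((mem_mrg_cl hx').1 hα) hα')
      · exact (restr_mrg fun η hη => hG (le_of_lt hη) hx').symm
      · funext γ
        exact (mrg_dg hx' γ).symm
    · refine ⟨(hp.2 x hx).1, fun α hα hα' => ?_⟩
      have h1 := (mem_mrg_cl' hx').1 hα
      have h2 := hp.1.cl_le x α h1
      exact Con.mono (hp.2 x hx).1.2 hle hx h2 ((hp.2 x hx).2 α h1 ((h.2.1 α h2).1 hα'))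

end

/-! ### simple extensions -/

/-- a condition with empty support -/
def base (h : O) (A : Set O) : Raw := ⟨h, A, ∅, fun _ _ => 0, fun _ => ∅⟩

theorem base_mem {h : O} {A : Set O} (hh : h < θ) (hA : ∀ α ∈ A, α ≤ h ∧ α.cof = ℵ₀) :
    base h A ∈ Rt :=
  ⟨⟨hh, fun α hα => (hA α hα).1, fun α hα => (hA α hα).2, sz_empty, fun _ _ _ => rfl,
    fun _ _ => rfl, fun _ _ h => h.elim, fun x δ _ h0 hu => by
      obtain ⟨γ, hγ, _⟩ := hu 0 h0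
      exact hγ.elim⟩, fun x hx => hx.elim⟩

/-- the height and the set of ordinals are extended -/
theorem exists_pad {p : Raw} (hp : p ∈ Rt) {h : O} (h1 : p.ht ≤ h) (h2 : h < θ) (A : Set O)
    (hA : ∀ α ∈ A, p.ht < α ∧ α ≤ h ∧ α.cof = ℵ₀) : ∃ q ∈ Rt, q ≤ p ∧ q.ht = h ∧
      q.st = p.st ∪ A ∧ q.sp = p.sp ∧ q.cl = p.cl := by
  have hle : restr ∅ (base h (p.st ∪ A)) ≤ restr ∅ p := by
    refine ⟨h1, fun α hα => ⟨?_, Or.inl⟩, fun x hx => hx.2.elim, fun x hx => hx.2.elim⟩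
    rintro (h3 | h3)
    · exact h3
    · exact absurd (hA α h3).1 (not_lt.2 hα)
  refine ⟨mrg ∅ (base h (p.st ∪ A)) p fun _ => 0, mrg_mem isLowerSet_empty (base_mem h2 ?_) hp hle,
    mrg_le hle, rfl, rfl, ?_, ?_⟩
  · rintro α (h3 | h3)
    · exact ⟨(hp.1.st_le α h3).trans h1, hp.1.st_cof α h3⟩
    · exact ⟨(hA α h3).2.1, (hA α h3).2.2⟩
  · ext x
    show (x ∈ (∅ : Set X) ∧ x.1 ∈ (∅ : Set O)) ∨ (x ∈ p.sp ∧ x.1 ∉ (∅ : Set O)) ↔ _
    simp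
  · funext x
    ext α
    exact mem_mrg_cl' (by simp)

/-- the height is extended -/
theorem exists_ht {p : Raw} (hp : p ∈ Rt) {h : O} (h1 : p.ht ≤ h) (h2 : h < θ) :
    ∃ q ∈ Rt, q ≤ p ∧ q.ht = h ∧ q.sp = p.sp := by
  obtain ⟨q, h3, h4, h5, _, h6, _⟩ := exists_pad hp h1 h2 ∅ (by simp)
  exact ⟨q, h3, h4, h5, h6⟩

/-- a coordinate is added -/
theorem exists_coord {p : Raw} (hp : p ∈ Rt) {x : X} (hx : Adm x) : ∃ q ∈ Rt, q ≤ p ∧ x ∈ q.sp := by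
  by_cases hxp : x ∈ p.sp
  · exact ⟨p, hp, le_rfl, hxp⟩
  have hne : ∀ y ∈ p.sp, y ≠ x := fun y hy h => hxp (h ▸ hy)
  let q : Raw := ⟨p.ht, p.st, insert x p.sp, p.dg, p.cl⟩
  have hle : q ≤ p := ⟨le_rfl, fun _ _ => Iff.rfl, Set.subset_insert _ _, fun y hy =>
    ⟨fun _ _ => rfl, fun _ _ => Iff.rfl⟩⟩
  refine ⟨q, ⟨⟨hp.1.ht_lt, hp.1.st_le, hp.1.st_cof, hp.1.sp_sz.insert x, fun y γ hy => ?_,
    fun y hy => ?_, hp.1.cl_le, hp.1.cl_cl⟩, fun y hy => ?_⟩, hle, Set.mem_insert _ _⟩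
  · exact hp.1.dg0 y γ (hy.imp (fun h h' => h (Set.mem_insert_of_mem _ h')) id)
  · exact hp.1.cl0 y fun h' => hy (Set.mem_insert_of_mem _ h')
  · rcases Set.mem_insert_iff.1 hy with rfl | hy
    · refine ⟨hx, fun α hα => ?_⟩
      exact (hxp (hp.1.mem_sp hα)).elim
    · refine ⟨(hp.2 y hy).1, fun α hα hα' => ?_⟩
      exact Con.mono (hp.2 y hy).1.2 hle hy (hp.1.cl_le y α hα) ((hp.2 y hy).2 α hα hα')

theorem cof_succ_ne (h : O) : (Order.succ h).cof ≠ ℵ₀ := by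
  rw [Order.succ_eq_add_one, Ordinal.cof_add_one]
  exact Cardinal.one_lt_aleph0.ne

/-- a point is added to a club -/
theorem exists_club {p : Raw} (hp : p ∈ Rt) {x : X} (hx : x ∈ p.sp) {γ : O} (hγ : γ < θ) :
    ∃ q ∈ Rt, q ≤ p ∧ ∃ δ, γ < δ ∧ δ ≤ q.ht ∧ δ ∈ q.cl x := by
  classical
  obtain ⟨p1, hp1, hle1, hht1, _, hsp1, _⟩ := exists_pad hp (h := Order.succ (max p.ht γ))
    ((le_max_left _ _).trans (Order.le_succ _)) (succ_lt_theta (max_lt hp.1.ht_lt hγ)) ∅ (by simp)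
  have hx1 : x ∈ p1.sp := hsp1 ▸ hx
  have hst : p1.ht ∉ p1.st := fun h => cof_succ_ne _ (hht1 ▸ hp1.1.st_cof _ h)
  let q : Raw := ⟨Order.succ p1.ht, p1.st, p1.sp, p1.dg,
    fun y => if y = x then insert (Order.succ p1.ht) (p1.cl x) else p1.cl y⟩
  have hclx : q.cl x = insert (Order.succ p1.ht) (p1.cl x) := if_pos rfl
  have hcly : ∀ y ≠ x, q.cl y = p1.cl y := fun y hy => if_neg hy
  have hnst : Order.succ p1.ht ∉ p1.st := fun h =>
    absurd (hp1.1.st_le _ h) (not_le.2 (Order.lt_succ _))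
  have hle : q ≤ p1 := by
    refine ⟨Order.le_succ _, fun _ _ => Iff.rfl, subset_rfl, fun y hy => ⟨fun _ _ => rfl,
      fun α hα => ?_⟩⟩
    by_cases hyx : y = x
    · subst hyx
      rw [hclx, Set.mem_insert_iff]
      constructor
      · rintro (h | h)
        · exact absurd (Order.lt_succ p1.ht) (not_lt.2 (h ▸ hα))
        · exact h
      · exact Or.inr
    · rw [hcly y hyx]
  have hmem : ∀ y, ∀ α ∈ q.cl y, α = Order.succ p1.ht ∨ α ∈ p1.cl y := by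
    intro y α hα
    by_cases hyx : y = x
    · subst hyx
      rw [hclx] at hα
      exact hα
    · rw [hcly y hyx] at hα
      exact Or.inr hα
  have hmem' : ∀ y, ∀ α ∈ p1.cl y, α ∈ q.cl y := by
    intro y α hα
    by_cases hyx : y = x
    · subst hyx
      rw [hclx]
      exact Or.inr hα
    · rw [hcly y hyx]
      exact hα
  refine ⟨q, ⟨⟨succ_lt_theta hp1.1.ht_lt, fun α hα => (hp1.1.st_le α hα).trans (Order.le_succ _),
    hp1.1.st_cof, hp1.1.sp_sz, fun y γ hy => ?_, fun y hy => ?_, fun y α hα => ?_,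
    fun y δ hδ h0 hu => ?_⟩, fun y hy => ⟨(hp1.2 y hy).1, fun α hα hα' => ?_⟩⟩, hle.trans hle1,
    Order.succ p1.ht, ?_, le_rfl, ?_⟩
  · exact hp1.1.dg0 y γ (hy.imp id fun h => (Order.le_succ _).trans h)
  · rw [hcly y fun h => hy (h ▸ hx1)]
    exact hp1.1.cl0 y hy
  · rcases hmem y α hα with h | h
    · exact h.le
    · exact (hp1.1.cl_le y α h).trans (Order.le_succ _)
  · have hu' : ∀ β < δ, ∃ γ ∈ p1.cl y, β < γ ∧ γ < δ := by
      intro β hβ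
      obtain ⟨γ, h1, h2, h3⟩ := hu β hβ
      rcases hmem y γ h1 with h | h
      · exact absurd h3 (not_lt.2 (h ▸ hδ))
      · exact ⟨γ, h, h2, h3⟩
    rcases lt_or_eq_of_le hδ with h | h
    · exact hmem' y δ (hp1.1.cl_cl y δ (Order.lt_succ_iff.1 h) h0 hu')
    · obtain ⟨γ, h1, h2, h3⟩ := hu' p1.ht (h ▸ Order.lt_succ _)
      exact absurd h2 (not_lt.2 (hp1.1.cl_le y γ h1))
  · rcases hmem y α hα with h | h
    · exact (hnst (h ▸ hα')).elim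
    · exact Con.mono (hp1.2 y hy).1.2 hle hy (hp1.1.cl_le y α h) ((hp1.2 y hy).2 α h hα')
  · rw [hht1]
    exact ((le_max_right _ _).trans (Order.le_succ _)).trans_lt (Order.lt_succ _)
  · rw [hclx]
    exact Set.mem_insert _ _

end Pool.Agent.Helper82.LG
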