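import Pool.Agent.Helper82.LG.Sys

/-!
# Towers of coherent systems
-/

set_option autoImplicit false

namespace Pool.Agent.Helper82.LG

open Cardinal Raw

theorem exists_steps {A : Type*} (V : ℕ → A → Prop) (R : ℕ → A → A → Prop) (a : A) (h0 : V 0 a)
    (hs : ∀ n a, V n a → ∃ b, V (n + 1) b ∧ R n a b) :
    ∃ s : ℕ → A, s 0 = a ∧ ∀ n, V n (s n) ∧ R n (s n) (s (n + 1)) := by
  choose f hf hf' using hs
  let F : ∀ n : ℕ, {a : A // V n a} := fun n =>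
    Nat.rec ⟨a, h0⟩ (fun k t => ⟨f k t.1 t.2, hf k t.1 t.2⟩) n
  refine ⟨fun n => (F n).1, rfl, fun n => ⟨(F n).2, ?_⟩⟩
  exact hf' n (F n).1 (F n).2

/-- the union of the supports -/
def Wsp (P : Br → Raw) : Set X := {ξ | ∃ x, ξ ∈ (P x).sp}

open Classical in
/-- a decomposition of a set of coordinates into small pieces -/
noncomputable def decm (W : Set X) : ℕ → Set X := if h : Sz W then h.exists_dec.choose else fun _ => ∅

theorem decm_union {W : Set X} (h : Sz W) : (⋃ n, decm W n) = W := by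
  unfold decm
  rw [dif_pos h]
  exact h.exists_dec.choose_spec.1

theorem decm_card (W : Set X) (n : ℕ) : #(decm W n) ≤ lift.{1} (ℶ_ (n : O)) := by
  unfold decm
  split_ifs with h
  · exact h.exists_dec.choose_spec.2 n
  · simp

/-- the set of coordinates that is used at step `n` -/
def Ucomb (Ws : ℕ → Set X) (n : ℕ) : Set X := {ξ | ∃ j ≤ n, ∃ k ≤ n, ξ ∈ decm (Ws j) k}

theorem Ucomb_card (Ws : ℕ → Set X) (n : ℕ) : #(Ucomb Ws n) ≤ lift.{1} (ℶ_ (n : O)) := by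
  have h0 : ℵ₀ ≤ lift.{1} (ℶ_ (n : O)) := by
    rw [Cardinal.aleph0_le_lift]; exact aleph0_le_beth _
  have h1 : Ucomb Ws n ⊆ ⋃ p : ULift.{1} {p : ℕ × ℕ // p.1 ≤ n ∧ p.2 ≤ n},
      decm (Ws p.down.1.1) p.down.1.2 := by
    rintro ξ ⟨j, hj, k, hk, h⟩
    exact Set.mem_iUnion.2 ⟨⟨⟨(j, k), hj, hk⟩⟩, h⟩
  refine (mk_le_mk_of_subset h1).trans ((mk_iUnion_le _).trans ?_)
  have h2 : ⨆ p : ULift.{1} {p : ℕ × ℕ // p.1 ≤ n ∧ p.2 ≤ n}, #(decm (Ws p.down.1.1) p.down.1.2) ≤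
      lift.{1} (ℶ_ (n : O)) := by
    refine ciSup_le' fun p => (decm_card _ _).trans (lift_le.2 ?_)
    exact beth_le_beth.2 (by exact_mod_cast p.down.2.2)
  calc _ ≤ lift.{1} (ℶ_ (n : O)) * lift.{1} (ℶ_ (n : O)) :=
        mul_le_mul' (mk_le_aleph0.trans h0) h2
    _ = _ := mul_eq_self h0

/-- the data at a stage of the construction -/
structure TSt : Type 1 where
  Us : ℕ → Set X
  Ws : ℕ → Set X
  P : Br → Raw
  h : O

/-- the properties of the data at a stage -/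
structure TV (n : ℕ) (s : TSt) : Prop where
  mem : ∀ x, s.P x ∈ Rt
  hth : ∀ x, (s.P x).ht = s.h
  coh : ∀ G, IsLowerSet G → ∀ x y, Agr s.Us n G x y → restr G (s.P x) = restr G (s.P y)
  card : ∀ i < n, #(s.Us i) ≤ lift.{1} (ℶ_ (i : O))

/-- the relation between the data at successive stages -/
structure TR (D : O → Set Raw) (n : ℕ) (s t : TSt) : Prop where
  us : ∀ i < n, t.Us i = s.Us i
  ws : ∀ i < n, t.Ws i = s.Ws i
  usn : t.Us n = Ucomb t.Ws n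
  wsn : t.Ws n = Wsp s.P
  le : ∀ x, t.P x ≤ s.P x
  hlt : s.h < t.h
  free : ∀ γ, s.h ≤ γ → γ < t.h → ∃ u : X → ℕ, ∀ x, ∀ ξ ∈ (s.P x).sp, ξ ∈ t.Us n →
    (t.P x).dg ξ γ = x ξ n ∨ x ξ n = u ξ
  dd : ∀ x, t.P x ∈ D s.h

theorem Agr.congr {Us Us' : ℕ → Set X} {n : ℕ} {G : Set O} {x y : Br} (h : Agr Us n G x y)
    (hU : ∀ i < n, Us' i = Us i) : Agr Us' n G x y := fun i hi ξ hξ hG =>
  h i hi ξ (hU i hi ▸ hξ) hG

theorem sz_Wsp {n : ℕ} {s : TSt} (hs : TV n s) : Sz (Wsp s.P) := by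
  have h : Wsp s.P ⊆ ⋃ t ∈ Set.range (trc s.Us n), (s.P t).sp := by
    rintro ξ ⟨x, hx⟩
    refine Set.mem_biUnion (x := trc s.Us n x) ⟨x, rfl⟩ ?_
    have h3 := hs.coh Set.univ isLowerSet_univ x _ (agr_trc s.Us n Set.univ x)
    rw [restr_univ, restr_univ] at h3
    rw [← h3]
    exact hx
  refine Sz.mono h ?_
  exact (sz_trc s.Us n hs.card).biUnion _ fun t _ => (hs.mem t).1.sp_sz

theorem exists_TR (D : O → Set Raw) (hop : ∀ γ, ∀ p ∈ D γ, ∀ q ∈ Rt, q ≤ p → q ∈ D γ)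
    (hde : ∀ γ < θ, ∀ p ∈ Rt, ∃ q ∈ Rt, q ≤ p ∧ q ∈ D γ) (n : ℕ) (s : TSt) (hs : TV n s) :
    ∃ t, TV (n + 1) t ∧ TR D n s t := by
  classical
  let Ws' : ℕ → Set X := fun i => if i = n then Wsp s.P else s.Ws i
  let Us' : ℕ → Set X := fun i => if i = n then Ucomb Ws' n else s.Us i
  have hUs : ∀ i < n, Us' i = s.Us i := fun i hi => if_neg (ne_of_lt hi)
  have hUn : Us' n = Ucomb Ws' n := if_pos rfl
  have hWs : ∀ i < n, Ws' i = s.Ws i := fun i hi => if_neg (ne_of_lt hi)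
  have hWn : Ws' n = Wsp s.P := if_pos rfl
  have hcard : ∀ i < n + 1, #(Us' i) ≤ lift.{1} (ℶ_ (i : O)) := by
    intro i hi
    rcases Nat.lt_succ_iff_lt_or_eq.1 hi with h | h
    · rw [hUs i h]; exact hs.card i h
    · subst h
      rw [hUn]; exact Ucomb_card _ _
  let S : Sys Us' n :=
    { P := s.P
      h := s.h
      mem := hs.mem
      hth := hs.hth
      coh := fun G hG x y hxy => hs.coh G hG x y
        ((hxy.mono (Nat.le_succ n) subset_rfl).congr fun i hi => (hUs i hi).symm) }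
  have hht : s.h < θ := by rw [← hs.hth (fun _ _ => 0)]; exact (hs.mem _).1.ht_lt
  obtain ⟨S', h1, h2⟩ := S.treat_all (sz_trc Us' (n + 1) hcard) {q | q ∈ D s.h ∧ s.h < q.ht}
    (fun p hp q hq hqp => ⟨hop _ p hp.1 q hq hqp, hp.2.trans_le hqp.1⟩)
    (fun p hp => by
      obtain ⟨q, hq, hqp, hqD⟩ := hde s.h hht p hp
      have hlt : Order.succ (max q.ht s.h) < θ := succ_lt_theta (max_lt hq.1.ht_lt hht)
      obtain ⟨r, hr, hrq, hrh, _⟩ := exists_ht hq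
        ((le_max_left _ s.h).trans (Order.le_succ _)) hlt
      refine ⟨r, hr, hrq.trans hqp, hop _ q hqD r hr hrq, ?_⟩
      rw [hrh]
      exact (le_max_right _ _).trans_lt (Order.lt_succ _))
  refine ⟨⟨Us', Ws', S'.P, S'.h⟩, ⟨S'.mem, S'.hth, S'.coh, hcard⟩, ⟨hUs, hWs, hUn, hWn, h1.2.1, ?_,
    h1.2.2, fun x => (h2 x).1⟩⟩
  have := (h2 fun _ _ => 0).2
  rw [S'.hth] at this
  exact this

/-- a tower of coherent systems -/
structure Tower (p : Raw) (D : O → Set Raw) : Type 1 where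
  Us : ℕ → Set X
  P : ℕ → Br → Raw
  h : ℕ → O
  zero : ∀ x, P 0 x = p
  mem : ∀ n x, P n x ∈ Rt
  hth : ∀ n x, (P n x).ht = h n
  coh : ∀ n G, IsLowerSet G → ∀ x y, Agr Us n G x y → restr G (P n x) = restr G (P n y)
  le : ∀ n x, P (n + 1) x ≤ P n x
  hlt : ∀ n, h n < h (n + 1)
  free : ∀ n γ, h n ≤ γ → γ < h (n + 1) → ∃ u : X → ℕ, ∀ x, ∀ ξ ∈ (P n x).sp, ξ ∈ Us n →
    (P (n + 1) x).dg ξ γ = x ξ n ∨ x ξ n = u ξ
  dd : ∀ n x, P (n + 1) x ∈ D (h n)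
  ev : ∀ m x, ∀ ξ ∈ (P m x).sp, ∃ N, ∀ n ≥ N, ξ ∈ Us n
  sz : ∀ n, Sz (Wsp (P n))

theorem exists_tower (D : O → Set Raw) (hop : ∀ γ, ∀ p ∈ D γ, ∀ q ∈ Rt, q ≤ p → q ∈ D γ)
    (hde : ∀ γ < θ, ∀ p ∈ Rt, ∃ q ∈ Rt, q ≤ p ∧ q ∈ D γ) (p : Raw) (hp : p ∈ Rt) :
    Nonempty (Tower p D) := by
  obtain ⟨s, hs0, hs⟩ := exists_steps TV (TR D) ⟨fun _ => ∅, fun _ => ∅, fun _ => p, p.ht⟩
    ⟨fun _ => hp, fun _ => rfl, fun _ _ _ _ _ => rfl, fun i hi => absurd hi (Nat.not_lt_zero i)⟩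
    (exists_TR D hop hde)
  have hU : ∀ n i, i < n → (s n).Us i = (s (i + 1)).Us i := by
    intro n
    induction n with
    | zero => intro i hi; exact absurd hi (Nat.not_lt_zero i)
    | succ n ih =>
      intro i hi
      rcases Nat.lt_succ_iff_lt_or_eq.1 hi with h | h
      · rw [(hs n).2.us i h, ih i h]
      · rw [h]
  have hW : ∀ n i, i < n → (s n).Ws i = Wsp (s i).P := by
    intro n
    induction n with
    | zero => intro i hi; exact absurd hi (Nat.not_lt_zero i)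
    | succ n ih =>
      intro i hi
      rcases Nat.lt_succ_iff_lt_or_eq.1 hi with h | h
      · rw [(hs n).2.ws i h, ih i h]
      · rw [h, (hs n).2.wsn]
  exact ⟨{
    Us := fun n => (s (n + 1)).Us n
    P := fun n => (s n).P
    h := fun n => (s n).h
    zero := fun x => by rw [hs0]
    mem := fun n => (hs n).1.mem
    hth := fun n => (hs n).1.hth
    coh := fun n G hG x y hxy => (hs n).1.coh G hG x y (hxy.congr fun i hi => hU n i hi)
    le := fun n => (hs n).2.le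
    hlt := fun n => (hs n).2.hlt
    free := fun n => (hs n).2.free
    dd := fun n => (hs n).2.dd
    ev := fun m x ξ hξ => by
      have h1 : ξ ∈ ⋃ k, decm (Wsp (s m).P) k := by
        rw [decm_union (sz_Wsp (hs m).1)]
        exact ⟨x, hξ⟩
      obtain ⟨k, hk⟩ := Set.mem_iUnion.1 h1
      refine ⟨max m k, fun n hn => ?_⟩
      rw [(hs n).2.usn]
      refine ⟨m, (le_max_left m k).trans hn, k, (le_max_right m k).trans hn, ?_⟩
      rw [hW (n + 1) m (Nat.lt_succ_of_le ((le_max_left m k).trans hn))]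
      exact hk
    sz := fun n => sz_Wsp (hs n).1 }⟩

end Pool.Agent.Helper82.LG
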