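import Pool.Agent.Helper82.LG.Stat

/-!
# The generic set of ordinals is stationary
-/

set_option autoImplicit false

namespace Pool.Agent.Helper82.LG

open Cardinal Raw

namespace Tower

variable {p₀ : Raw} {D : O → Set Raw} (T : Tower p₀ D)

/-- the properties of the digits of a coordinate -/
def DP (r : Raw) (ub : ℕ → O → X → ℕ) (ξ : X) (A : Set Bit) (y : ℕ → ℕ) : Prop :=
  ∀ c : Co, c.In A → ∀ m, ∃ c' ≤ c, c'.In A ∧ ∃ a a' i j, m ≤ i ∧ m ≤ j ∧ T.h i ≤ a ∧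
    a < T.h (i + 1) ∧ T.h j ≤ a' ∧ a' < T.h (j + 1) ∧ lab ξ T.al a a' r c' ∧
    y i ≠ ub i a ξ ∧ y j ≠ ub j a' ξ ∧ Co.Diff c' (a, y i) (a', y j)

theorem exists_DP (s : T.QQ) (ub : ℕ → O → X → ℕ) : ∃ r ∈ Rs s.ζ, r ≤ s.q ∧
    ∀ ξ ∈ T.U, ξ.1 = s.ζ → Adm ξ → ∃ A y, T.DP r ub ξ A y := by
  classical
  let I : Set X := {ξ | ξ ∈ T.U ∧ ξ.1 = s.ζ ∧ Adm ξ}
  have hI : Sz I := T.sz_U.mono fun ξ hξ => hξ.1
  let sup : O × O → Finset Bit := fun w => {(w.1, 0), (w.2, 0)}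
  let E : X → ℕ → {p : Raw // p ∈ Rs s.ζ} → Co → O × O → Prop := fun ξ m r c w =>
    T.h m < w.1 ∧ T.h m < w.2 ∧ ξ.1 = s.ζ ∧ Adm ξ ∧ lab ξ T.al w.1 w.2 r.1 c
  obtain ⟨r, hr, hdec⟩ := decide_all (clo_Rs s.ζ) sup hI E
    (fun ξ m r r' c w hrr ⟨h1, h2, h3, h4, h5⟩ => ⟨h1, h2, h3, h4,
      h4.2.mono _ _ _ _ _ _ _ h5 (by rw [h3]; exact r'.2) hrr le_rfl⟩)
    (fun ξ hξ m r c => by
      obtain ⟨r', h1, h2, c', h3, a, a', h4, h5, h6⟩ := hξ.2.2.2.ex T.al T.al_lt T.cof_al r.1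
        (by rw [hξ.2.1]; exact r.2) c (T.h m) (T.h_lt_al m)
      exact ⟨⟨r', by rw [← hξ.2.1]; exact h1⟩, h2, c', h3, (a, a'), h4, h5, hξ.2.1, hξ.2.2, h6⟩)
    ⟨s.q, s.mem⟩
  refine ⟨r.1, r.2, hr, fun ξ hU hζ hadm => ?_⟩
  obtain ⟨A, hA, hAk, hAd⟩ := hdec ξ ⟨hU, hζ, hadm⟩
  -- the blocks are unique
  have hun : ∀ a i j, T.h i ≤ a → a < T.h (i + 1) → T.h j ≤ a → a < T.h (j + 1) → i = j := by
    intro a i j h1 h2 h3 h4
    by_contra hne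
    rcases lt_or_gt_of_ne hne with h | h
    · exact absurd (h2.trans_le (T.h_mono.monotone (Nat.succ_le_of_lt h))) (not_lt.2 h3)
    · exact absurd (h4.trans_le (T.h_mono.monotone (Nat.succ_le_of_lt h))) (not_lt.2 h1)
  have hblk : ∀ a, ∃ n, ∀ i, T.h i ≤ a → a < T.h (i + 1) → i = n := by
    intro a
    by_cases h : ∃ n, T.h n ≤ a ∧ a < T.h (n + 1)
    · obtain ⟨n, h1, h2⟩ := h
      exact ⟨n, fun i h3 h4 => hun a i n h3 h4 h1 h2⟩
    · exact ⟨0, fun i h3 h4 => (h ⟨i, h3, h4⟩).elim⟩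
  choose blk hblk using hblk
  obtain ⟨y, hy⟩ := exists_digits hA hAk (fun c a a' => lab ξ T.al a a' r.1 c)
    (fun c c' a a' hcc h => hadm.2.mono _ _ _ _ _ _ _ h (by rw [hζ]; exact r.2) le_rfl hcc)
    T.al_lt T.h T.h_mono.monotone T.block (fun a => ub (blk a) a ξ) (fun m c hc => by
      obtain ⟨c', h1, h2, ⟨a, a'⟩, h3, h4, h5, _, _, h6⟩ := hAd m c hc
      obtain ⟨h7, h8, h9⟩ := hadm.2.lt _ _ _ _ _ h6
      exact ⟨c', h1, h2, a, a', h3 _ (by simp [sup]), h3 _ (by simp [sup]), h4, h5, h7, h8, h9, h6⟩)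
  refine ⟨A, y, fun c hc m => ?_⟩
  obtain ⟨c', h1, h2, a, a', i, j, h3, h4, h5, h6, h7, h8, h9, h10, h11, h12⟩ := hy c hc m
  rw [← hblk a i h5 h6] at h10
  rw [← hblk a' j h7 h8] at h11
  exact ⟨c', h1, h2, a, a', i, j, h3, h4, h5, h6, h7, h8, h9, h10, h11, h12⟩

open Classical in
/-- the coordinates of level `ζ` of `L` are added to `r`, with the point `α` in the clubs -/
noncomputable def addl (r L : Raw) (ζ α : O) : Raw where
  ht := r.ht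
  st := r.st
  sp := {ξ | ξ ∈ r.sp ∨ (ξ ∈ L.sp ∧ ξ.1 = ζ)}
  dg ξ γ := if ξ.1 = ζ then L.dg ξ γ else r.dg ξ γ
  cl ξ := {β | (ξ.1 ≠ ζ ∧ β ∈ r.cl ξ) ∨ (ξ.1 = ζ ∧ (β ∈ L.cl ξ ∨ (β = α ∧ ξ ∈ L.sp)))}

theorem addl_dg {r L : Raw} {ζ α : O} {ξ : X} (h : ξ.1 = ζ) (γ : O) :
    (addl r L ζ α).dg ξ γ = L.dg ξ γ := if_pos h

theorem addl_dg' {r L : Raw} {ζ α : O} {ξ : X} (h : ξ.1 ≠ ζ) (γ : O) :
    (addl r L ζ α).dg ξ γ = r.dg ξ γ := if_neg h

theorem mem_addl_cl {r L : Raw} {ζ α : O} {ξ : X} (h : ξ.1 = ζ) {β : O} :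
    β ∈ (addl r L ζ α).cl ξ ↔ β ∈ L.cl ξ ∨ (β = α ∧ ξ ∈ L.sp) := by
  show (ξ.1 ≠ ζ ∧ β ∈ r.cl ξ) ∨ (ξ.1 = ζ ∧ _) ↔ _
  tauto

theorem mem_addl_cl' {r L : Raw} {ζ α : O} {ξ : X} (h : ξ.1 ≠ ζ) {β : O} :
    β ∈ (addl r L ζ α).cl ξ ↔ β ∈ r.cl ξ := by
  show (ξ.1 ≠ ζ ∧ β ∈ r.cl ξ) ∨ (ξ.1 = ζ ∧ _) ↔ _
  tauto

theorem restr_addl {r L : Raw} {ζ α η : O} (hη : η ≤ ζ) :
    restr (Set.Iio η) (addl r L ζ α) = restr (Set.Iio η) r := by
  refine Raw.ext' rfl rfl ?_ ?_ ?_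
  · ext ξ
    simp only [mem_restr_sp, Set.mem_Iio]
    refine and_congr_left fun h => ?_
    show ξ ∈ r.sp ∨ (ξ ∈ L.sp ∧ ξ.1 = ζ) ↔ _
    exact or_iff_left fun h' => absurd (h.trans_le hη) (by rw [h'.2]; exact lt_irrefl _)
  · funext ξ γ
    by_cases h : ξ.1 < η
    · rw [restr_dg (show ξ.1 ∈ Set.Iio η from h), restr_dg (show ξ.1 ∈ Set.Iio η from h),
        addl_dg' (h.trans_le hη).ne]
    · rw [restr_dg' (show ξ.1 ∉ Set.Iio η from h), restr_dg' (show ξ.1 ∉ Set.Iio η from h)]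
  · funext ξ
    ext β
    simp only [mem_restr_cl, Set.mem_Iio]
    exact and_congr_left fun h => mem_addl_cl' (h.trans_le hη).ne

theorem addl_nf {r L : Raw} {ζ α : O} (hr : NF r) (hL : NF L)
    (hLh : L.ht = α) (hα : α ≤ r.ht) : NF (addl r L ζ α) where
  ht_lt := hr.ht_lt
  st_le := hr.st_le
  st_cof := hr.st_cof
  sp_sz := (hr.sp_sz.union hL.sp_sz).mono fun ξ hξ => hξ.imp id fun h => h.1
  dg0 ξ γ hξ := by
    by_cases h : ξ.1 = ζ
    · rw [addl_dg h]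
      refine hL.dg0 ξ γ (hξ.imp (fun h' h'' => h' (Or.inr ⟨h'', h⟩)) fun h' => ?_)
      rw [hLh]
      exact hα.trans h'
    · rw [addl_dg' h]
      exact hr.dg0 ξ γ (hξ.imp (fun h' h'' => h' (Or.inl h'')) id)
  cl0 ξ hξ := by
    ext β
    simp only [Set.mem_empty_iff_false, iff_false]
    intro hβ
    by_cases h : ξ.1 = ζ
    · rw [mem_addl_cl h] at hβ
      rcases hβ with hβ | hβ
      · exact hξ (Or.inr ⟨hL.mem_sp hβ, h⟩)
      · exact hξ (Or.inr ⟨hβ.2, h⟩)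
    · rw [mem_addl_cl' h] at hβ
      exact hξ (Or.inl (hr.mem_sp hβ))
  cl_le ξ β hβ := by
    by_cases h : ξ.1 = ζ
    · rw [mem_addl_cl h] at hβ
      rcases hβ with hβ | hβ
      · exact ((hL.cl_le ξ β hβ).trans hLh.le).trans hα
      · exact hβ.1.le.trans hα
    · rw [mem_addl_cl' h] at hβ
      exact hr.cl_le ξ β hβ
  cl_cl ξ δ hδ h0 hu := by
    by_cases h : ξ.1 = ζ
    · simp only [mem_addl_cl h] at hu ⊢
      have hle : ∀ β, (β ∈ L.cl ξ ∨ (β = α ∧ ξ ∈ L.sp)) → β ≤ α := by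
        rintro β (h' | h')
        · exact (hL.cl_le ξ β h').trans hLh.le
        · exact h'.1.le
      have hδα : δ ≤ α := by
        by_contra hc
        push Not at hc
        obtain ⟨γ, h1, h2, _⟩ := hu α hc
        exact absurd h2 (not_lt.2 (hle γ h1))
      rcases lt_or_eq_of_le hδα with h1 | h1
      · refine Or.inl (hL.cl_cl ξ δ (hδα.trans hLh.symm.le) h0 fun β hβ => ?_)
        obtain ⟨γ, h2, h3, h4⟩ := hu β hβ
        rcases h2 with h2 | h2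
        · exact ⟨γ, h2, h3, h4⟩
        · exact absurd (h4.trans h1) (by rw [h2.1]; exact lt_irrefl _)
      · refine Or.inr ⟨h1, ?_⟩
        obtain ⟨γ, h2, _⟩ := hu 0 h0
        rcases h2 with h2 | h2
        · exact hL.mem_sp h2
        · exact h2.2
    · simp only [mem_addl_cl' h] at hu ⊢
      exact hr.cl_cl ξ δ hδ h0 hu

/-- the level can be raised by one -/
theorem step (s : T.QQ) : ∃ t ≤ s, t.ζ = Order.succ s.ζ := by
  classical
  choose! ub hub using T.free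
  obtain ⟨r, hr, hrs, hDP⟩ := T.exists_DP s ub
  choose! A y hAy using hDP
  obtain ⟨hrt, hrl⟩ := mem_Rs.1 hr
  let x' : Br := fun ξ => if ξ ∈ T.U ∧ ξ.1 = s.ζ ∧ Adm ξ then y ξ else s.x ξ
  have hx' : ∀ ξ : X, ξ.1 < s.ζ → x' ξ = s.x ξ := fun ξ hξ => if_neg fun h => hξ.ne h.2.1
  have hx'' : ∀ ξ : X, ξ ∈ T.U → ξ.1 = s.ζ → Adm ξ → x' ξ = y ξ := fun ξ h1 h2 h3 =>
    if_pos ⟨h1, h2, h3⟩
  have hrle : ∀ n, r ≤ restr (Set.Iio s.ζ) (T.P n x') := fun n => by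
    rw [T.coh' hx']
    exact hrs.trans (s.le n)
  have hal : T.al ∈ r.st := (hrs.2.1 _ (T.al_le s)).2 s.al_mem
  have halr : T.al ≤ r.ht := hrt.1.st_le _ hal
  set L : Raw := lim (T.bran x') with hLdef
  have hLt : L ∈ Rt := T.lim_bran_mem x'
  have hLle : ∀ n, L ≤ T.P n x' := T.lim_bran_le x'
  have hLh : L.ht = T.al := T.lim_bran_ht x'
  have hLs : ∀ ξ ∈ L.sp, ∃ n, ξ ∈ (T.P n x').sp := by
    rintro ξ ⟨_, ⟨n, rfl⟩, h⟩
    exact ⟨n, h⟩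
  have hPm : ∀ n m, n ≤ m → T.P m x' ≤ T.P n x' := fun n m h => T.P_anti x' h
  set q : Raw := addl r L s.ζ T.al with hqdef
  have hqr : q ≤ r := by
    refine ⟨le_rfl, fun _ _ => Iff.rfl, fun ξ hξ => Or.inl hξ, fun ξ hξ => ⟨fun γ _ => ?_,
      fun β _ => mem_addl_cl' (hrl ξ hξ).ne⟩⟩
    exact addl_dg' (hrl ξ hξ).ne γ
  have hqle : ∀ n, q ≤ restr (Set.Iio (Order.succ s.ζ)) (T.P n x') := by
    intro n
    refine ⟨(hrle n).1, (hrle n).2.1, fun ξ hξ => ?_, fun ξ hξ => ?_⟩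
    · rcases lt_or_eq_of_le (Order.lt_succ_iff.1 (show ξ.1 < Order.succ s.ζ from hξ.2)) with h | h
      · exact Or.inl ((hrle n).2.2.1 ⟨hξ.1, h⟩)
      · exact Or.inr ⟨(hLle n).2.2.1 hξ.1, h⟩
    · have hs : ξ.1 ∈ Set.Iio (Order.succ s.ζ) := hξ.2
      rcases lt_or_eq_of_le (Order.lt_succ_iff.1 (show ξ.1 < Order.succ s.ζ from hξ.2)) with h | h
      · obtain ⟨h1, h2⟩ := (hrle n).2.2.2 ξ ⟨hξ.1, h⟩
        refine ⟨fun γ hγ => ?_, fun β hβ => ?_⟩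
        · rw [addl_dg' h.ne, h1 γ hγ, restr_dg (show ξ.1 ∈ Set.Iio s.ζ from h), restr_dg hs]
        · rw [mem_addl_cl' h.ne, h2 β hβ]
          simp only [mem_restr_cl]
          exact and_congr_right fun _ => ⟨fun _ => hs, fun _ => h⟩
      · obtain ⟨h1, h2⟩ := (hLle n).2.2.2 ξ hξ.1
        refine ⟨fun γ hγ => ?_, fun β hβ => ?_⟩
        · rw [addl_dg h, h1 γ hγ, restr_dg hs]
        · have hβα : β ≠ T.al := by
            intro e
            have h3 : β ≤ T.h n := by rw [← T.hth n x']; exact hβ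
            exact absurd (T.h_lt_al n) (not_lt.2 (e ▸ h3))
          rw [mem_addl_cl h, or_iff_left (fun h' => hβα h'.1), h2 β hβ]
          simp only [mem_restr_cl]
          exact ⟨fun h' => ⟨h', hs⟩, fun h' => h'.1⟩
  have hqs : q ∈ Rs (Order.succ s.ζ) := by
    refine mem_Rs.2 ⟨⟨addl_nf hrt.1 hLt.1 hLh halr, ?_⟩, ?_⟩
    · rintro ξ (hξ | ⟨hξ, hξζ⟩)
      · have hlt := hrl ξ hξ
        refine ⟨(hrt.2 ξ hξ).1, fun β hβ hβ' => ?_⟩
        refine Con.congr (restr_addl hlt.le).symm ?_ ((hrt.2 ξ hξ).2 β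
          ((mem_addl_cl' hlt.ne).1 hβ) hβ')
        funext γ
        exact (addl_dg' hlt.ne γ).symm
      · have hadm : Adm ξ := (hLt.2 ξ hξ).1
        refine ⟨hadm, fun β hβ hβ' => ?_⟩
        rw [mem_addl_cl hξζ] at hβ
        obtain ⟨n₁, hn₁⟩ := hLs ξ hξ
        have hβle : β ≤ T.al := by
          rcases hβ with h | h
          · exact (hLt.1.cl_le ξ β h).trans hLh.le
          · exact h.1.le
        rcases lt_or_eq_of_le hβle with hlt | heq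
        · -- an old point
          obtain ⟨n₂, hn₂⟩ := T.lt_al hlt
          set n := max n₁ n₂
          have hsp : ξ ∈ (T.P n x').sp := (hPm n₁ n (le_max_left _ _)).2.2.1 hn₁
          have hβn : β ≤ (T.P n x').ht := by
            rw [T.hth]
            exact hn₂.le.trans (T.h_mono.monotone (le_max_right _ _))
          have hs : ξ.1 ∈ Set.Iio (Order.succ s.ζ) := Order.lt_succ_iff.2 hξζ.le
          have hβL : β ∈ L.cl ξ := by
            rcases hβ with h | h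
            · exact h
            · exact absurd hlt (by rw [h.1]; exact lt_irrefl _)
          have hβP : β ∈ (T.P n x').cl ξ := (((hLle n).2.2.2 ξ hsp).2 β hβn).1 hβL
          have hβst : β ∈ (T.P n x').st := ((hrle n).2.1 β hβn).1 hβ'
          have hpm : restr (Set.Iio (Order.succ s.ζ)) (T.P n x') ∈ Rt :=
            restr_mem (isLowerSet_Iio _) (T.mem n x')
          exact Con.mono hadm.2 (hqle n) ⟨hsp, hs⟩ hβn ((hpm.2 ξ ⟨hsp, hs⟩).2 β ⟨hβP, hs⟩ hβst)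
        · -- the new point
          subst heq
          intro r' hr' hr'q c
          have hr'r : r' ≤ r := by
            rw [restr_addl hξζ.le, hξζ] at hr'q
            exact hr'q.trans (by
              have h1 : restr (Set.Iio s.ζ) r ≤ r := by
                refine ⟨le_rfl, fun _ _ => Iff.rfl, fun η hη => ⟨hη, hrl η hη⟩, fun η hη =>
                  ⟨fun γ _ => restr_dg (hrl η hη) γ, fun β _ => ⟨fun h => h.1, fun h => ⟨h, hrl η hη⟩⟩⟩⟩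
              exact h1)
          have hU : ξ ∈ T.U := ⟨n₁, x', hn₁⟩
          obtain ⟨N, hN⟩ := T.ev n₁ x' ξ hn₁
          obtain ⟨c', h1, h2, a, a', i, j, h3, h4, h5, h6, h7, h8, h9, h10, h11, h12⟩ :=
            hAy ξ hU hξζ hadm (Co.cut (A ξ) c) (Co.cut_in _ _) (max n₁ N)
          obtain ⟨e, he, he'⟩ := Co.amal h2 h1
          have key : ∀ b k, max n₁ N ≤ k → T.h k ≤ b → b < T.h (k + 1) → y ξ k ≠ ub k b ξ →
              q.dg ξ b = y ξ k := by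
            intro b k hk hb1 hb2 hne
            have hsp : ξ ∈ (T.P k x').sp := (hPm n₁ k ((le_max_left _ _).trans hk)).2.2.1 hn₁
            have hsp' : ξ ∈ (T.P (k + 1) x').sp := (T.le k x').2.2.1 hsp
            have hUk : ξ ∈ T.Us k := hN k ((le_max_right _ _).trans hk)
            have h13 : q.dg ξ b = (T.P (k + 1) x').dg ξ b := by
              rw [addl_dg hξζ]
              exact ((hLle (k + 1)).2.2.2 ξ hsp').1 b (by rw [T.hth]; exact hb2)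
            have h14 := hub k b hb1 hb2 x' ξ hsp hUk
            rw [hx'' ξ hU hξζ hadm] at h14
            rw [h13]
            exact h14.resolve_right hne
          refine ⟨r', hr', le_rfl, e, he, a, a', ?_, ?_⟩
          · exact hadm.2.mono _ _ _ _ _ _ _ h9 hr' hr'r he'
          · rw [key a i h3 h5 h6 h10, key a' j h4 h7 h8 h11]
            exact h12.mono he'
    · rintro ξ (hξ | ⟨_, hξ⟩)
      · exact (hrl ξ hξ).trans (Order.lt_succ _)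
      · rw [hξ]; exact Order.lt_succ _
  exact ⟨⟨q, x', Order.succ s.ζ, hqs, hal, hqle⟩, ⟨Order.le_succ _, hqr.trans hrs, hx'⟩, rfl⟩

/-- all the levels are reached -/
theorem reach (ζ : O) : ∀ s : T.QQ, ∃ t ≤ s, ζ ≤ t.ζ := by
  induction ζ using WellFoundedLT.induction with
  | ind ζ ih =>
    -- successors
    have hsucc : ∀ η < ζ, ∀ s : T.QQ, ∃ t ≤ s, Order.succ η ≤ t.ζ := by
      intro η hη s
      obtain ⟨t, ht, h1⟩ := ih η hη s
      rcases lt_or_eq_of_le h1 with h2 | h2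
      · exact ⟨t, ht, Order.succ_le_of_lt h2⟩
      · obtain ⟨t', ht', h3⟩ := T.step t
        exact ⟨t', ht'.trans ht, by rw [h3, h2]⟩
    intro s
    have hsz : Sz {η | η < ζ ∧ η ∈ Prod.fst '' T.U} :=
      (T.sz_U.image _).mono fun η hη => hη.2
    obtain ⟨t, ht, h1⟩ := dist T.clo_QQ hsz (fun η s => Order.succ η ≤ s.ζ)
      (fun η a b hba h => h.trans hba.1) (fun η hη s => hsucc η hη.1 s) s
    rcases le_total ζ t.ζ with h2 | h2
    · exact ⟨t, ht, h2⟩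
    · obtain ⟨t', ht', h3⟩ := T.jump t h2 fun ξ hξ hξζ =>
        Order.succ_le_iff.1 (h1 ξ.1 ⟨hξζ, ξ, hξ, rfl⟩)
      exact ⟨t', ht'.trans ht, h3.ge⟩

/-- the first partial limit -/
theorem exists_QQ : Nonempty T.QQ := by
  let B : Raw := lim (T.bran fun _ _ => 0)
  have hB : B ∈ Rt := T.lim_bran_mem _
  have hBh : B.ht = T.al := T.lim_bran_ht _
  have hle : ∀ n, B ≤ T.P n fun _ _ => 0 := T.lim_bran_le _
  refine ⟨⟨base T.al (insert T.al B.st), fun _ _ => 0, 0, mem_Rs.2 ⟨base_mem T.al_lt ?_,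
    fun ξ hξ => hξ.elim⟩, Set.mem_insert _ _, fun n => ?_⟩⟩
  · intro α hα
    rcases Set.mem_insert_iff.1 hα with rfl | hα
    · exact ⟨le_rfl, T.cof_al⟩
    · exact ⟨(hB.1.st_le α hα).trans hBh.le, hB.1.st_cof α hα⟩
  · refine ⟨?_, fun α hα => ?_, fun ξ hξ => ?_, fun ξ hξ => ?_⟩
    · show (T.P n fun _ _ => 0).ht ≤ T.al
      rw [T.hth]; exact T.h_le_al n
    · have hα' : α ≤ T.h n := by rw [← T.hth n fun _ _ => 0]; exact hα
      have hne : α ≠ T.al := fun e => absurd (T.h_lt_al n) (not_lt.2 (e ▸ hα'))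
      show α ∈ insert T.al B.st ↔ α ∈ (T.P n fun _ _ => 0).st
      rw [← (hle n).2.1 α hα, Set.mem_insert_iff, or_iff_right hne]
    · exact absurd hξ.2 (by simp)
    · exact absurd hξ.2 (by simp)

/-- the limit -/
theorem exists_limit : ∃ q ∈ Rt, ∃ x, T.al ∈ q.st ∧ ∀ n, q ≤ T.P n x := by
  obtain ⟨s⟩ := T.exists_QQ
  have hsz : Sz (Prod.fst '' T.U) := T.sz_U.image _
  obtain ⟨t, _, ht⟩ := T.reach (Order.succ (sSup (Prod.fst '' T.U))) s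
  have hlt : ∀ ξ ∈ T.U, ξ.1 < t.ζ := fun ξ hξ =>
    (Order.lt_succ_iff.2 (le_csSup hsz.bdd ⟨ξ, hξ, rfl⟩)).trans_le ht
  refine ⟨t.q, Rs_sub t.mem, t.x, t.al_mem, fun n => (t.le n).trans ?_⟩
  refine ⟨le_rfl, fun _ _ => Iff.rfl, fun ξ hξ => ⟨hξ, hlt ξ ⟨n, _, hξ⟩⟩, fun ξ hξ =>
    ⟨fun γ _ => restr_dg (hlt ξ ⟨n, _, hξ⟩) γ, fun β _ => ⟨fun h => h.1,
      fun h => ⟨h, hlt ξ ⟨n, _, hξ⟩⟩⟩⟩⟩

end Tower

/-- **The generic set of ordinals is stationary.** -/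
theorem stationary (D : O → Set Raw) (hop : ∀ γ, ∀ p ∈ D γ, ∀ q ∈ Rt, q ≤ p → q ∈ D γ)
    (hde : ∀ γ < θ, ∀ p ∈ Rt, ∃ q ∈ Rt, q ≤ p ∧ q ∈ D γ) (p : Raw) (hp : p ∈ Rt) :
    ∃ q ∈ Rt, q ≤ p ∧ ∃ α < θ, α.cof = ℵ₀ ∧ α ∈ q.st ∧ ∀ β < α, ∃ γ, β ≤ γ ∧
      ∃ r ∈ D γ, q ≤ r ∧ r.ht < α := by
  obtain ⟨T⟩ := exists_tower D hop hde p hp
  obtain ⟨q, hq, x, h1, h2⟩ := T.exists_limit
  refine ⟨q, hq, (T.zero x) ▸ h2 0, T.al, T.al_lt, T.cof_al, h1, fun β hβ => ?_⟩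
  obtain ⟨n, hn⟩ := T.lt_al hβ
  refine ⟨T.h n, hn.le, T.P (n + 1) x, T.dd n x, h2 (n + 1), ?_⟩
  rw [T.hth]
  exact T.h_lt_al (n + 1)

end Pool.Agent.Helper82.LG
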