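import Pool.Agent.Helper82.LG.Inj
import Pool.Agent.Helper82.LG.Step

set_option autoImplicit false

/-!
# The generic set of ordinals is stationary
-/

namespace Pool.Agent.Helper82.LG

open Cardinal
open Helper23
open Helper23.CK
open Helper23.WT (iffV bElim bOr bMP bImp bNot bAbs bAll bEx bIff bIff_mp bIff_mpr bLeft bRight bCases bContra)
open Helper23.CK.Nm

/-- the name of a set of ordinals below `t` -/
noncomputable def sbn (t : O) (v : O → RO PP) : Nm PP :=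
  mk (Set.Iio t) (fun β => ordn β.1) (fun β => v β.1)

theorem mem_sbn {t : O} {v : O → RO PP} {β : O} (hβ : β < t) : Nm.mem (ordn β) (sbn t v) = v β := by
  unfold sbn
  rw [mem_mk]
  refine le_antisymm (iSup_le fun γ => ?_) ?_
  · by_cases h : β = γ.1
    · rw [h]; exact inf_le_left
    · exact (eq_ordn h inf_le_right).trans bot_le
  · exact bEx ⟨β, hβ⟩ (le_inf le_rfl (bRefl _))

theorem sbn_sub {t : O} {v : O → RO PP} {x : Nm PP} {Γ : RO PP} (h : Γ ≤ Nm.mem x (sbn t v)) :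
    Γ ≤ Nm.mem x (ordn t) := by
  unfold sbn at h
  rw [mem_mk] at h
  refine bElim h fun γ Δ _ h2 => ?_
  rw [mem_ordn]
  exact bEx γ (bRight h2)

theorem sn_eq : Sn = sbn θ Sv := rfl

/-- elimination of the elements of an ordinal -/
theorem bOrd {x : Nm PP} {t : O} {Γ b : RO PP} (h : Γ ≤ Nm.mem x (ordn t))
    (h' : ∀ β < t, ∀ Δ ≤ Γ, Δ ≤ Nm.eq x (ordn β) → Δ ≤ b) : Γ ≤ b := by
  rw [mem_ordn] at h
  exact bElim h fun β Δ h1 h2 => h' β.1 β.2 Δ h1 h2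

/-- a name that respects the small sets of the first coordinate -/
theorem lower1 {b : RO PP} {r r' : RT} {c c' : Co} (h : (r, c) ∈ b.carrier) (hr : r' ≤ r)
    (hc : c' ≤ c) : (r', c') ∈ b.carrier := RO.lower _ (show (r', c') ≤ (r, c) from ⟨hr, hc⟩) h

theorem mem_of_le {b b' : RO PP} (h : b ≤ b') {x : PP} (hx : x ∈ b.carrier) : x ∈ b'.carrier := h hx

/-- an element of the club above `γ` is decided -/
theorem club_dense (C : Nm PP) {γ : O} (hγ : γ < θ) (r : RT) (c : Co) : ∃ r' ≤ r, ∃ c' ≤ c, ∃ w : O,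
    (r', c') ∈ ((ClubB (ordn θ) C)ᶜ).carrier ∨
      (w < θ ∧ γ < w ∧ (r', c') ∈ (Nm.mem (ordn w) C).carrier) := by
  obtain ⟨⟨r1, c1⟩, h1, h2⟩ := RO.decide (ClubB (ordn θ) C) (r, c)
  rcases h2 with h2 | h2
  · have h3 : cn (r1, c1) ≤ ClubB (ordn θ) C := cn_le.2 h2
    have h4 : cn (r1, c1) ≤ ⨆ w : {w : O // w < θ ∧ γ < w}, Nm.mem (ordn w.1) C := by
      refine bElim (bMP (bAll (bLeft (bRight h3)) (ordn γ)) (ordn_mem_ordn hγ)) fun n Δ h5 h6 => ?_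
      have h7 : Δ ≤ Nm.mem n (ordn θ) := bMP (bAll (bLeft (h5.trans h3)) n) (bLeft h6)
      refine bOrd h7 fun w hw Δ' h8 h9 => ?_
      by_cases h : γ < w
      · exact bEx ⟨w, hw, h⟩ (bMemL h9 (bLeft (h8.trans h6)))
      · exact (mem_ordn_lt h (bMemR h9 (bRight (h8.trans h6)))).trans bot_le
    obtain ⟨⟨r', c'⟩, hy, w, hw⟩ := mem_iSup_ex (cn_le.1 h4)
    exact ⟨r', hy.1.trans h1.1, c', hy.2.trans h1.2, w.1, Or.inr ⟨w.2.1, w.2.2, hw⟩⟩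
  · exact ⟨r1, h1.1, c1, h1.2, 0, Or.inl h2⟩

/-- the conditions that bound an element of the club above `γ` -/
def bdC (C : Nm PP) (c0 : Co) (γ : O) : Set Raw :=
  {r | ∃ h : r ∈ Rt, ((⟨r, h⟩ : RT), c0) ∈ (ClubB (ordn θ) C ⇨
    ⨆ δ : {δ : O // γ < δ ∧ δ ≤ r.ht}, Nm.mem (ordn δ.1) C).carrier}

theorem bdC_open (C : Nm PP) (c0 : Co) (γ : O) : ∀ p ∈ bdC C c0 γ, ∀ q ∈ Rt, q ≤ p →
    q ∈ bdC C c0 γ := by
  rintro p ⟨hp, h⟩ q hq hle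
  refine ⟨hq, ?_⟩
  have h1 := lower1 h (show (⟨q, hq⟩ : RT) ≤ ⟨p, hp⟩ from hle) (le_refl c0)
  refine mem_of_le (himp_le_himp_left ?_) h1
  refine iSup_le fun δ => ?_
  exact le_iSup (fun δ : {δ : O // γ < δ ∧ δ ≤ q.ht} => Nm.mem (ordn δ.1) C)
    ⟨δ.1, δ.2.1, δ.2.2.trans hle.1⟩

theorem bdC_dense (C : Nm PP) (c0 : Co) {γ : O} (hγ : γ < θ) : ∀ p ∈ Rt, ∃ q ∈ Rt, q ≤ p ∧
    q ∈ bdC C c0 γ := by
  intro p hp
  let D : ℕ → RT → Co → O → Prop := fun _ r c w => (r, c) ∈ ((ClubB (ordn θ) C)ᶜ).carrier ∨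
      (w < θ ∧ γ < w ∧ (r, c) ∈ (Nm.mem (ordn w) C).carrier)
  obtain ⟨r, hr, A, hA⟩ := closeoff (R := RT) clo_RT (W := O) (sup := fun _ => ∅) (D := D)
    (by
      rintro m r r' c w h (h1 | ⟨h1, h2, h3⟩)
      · exact Or.inl (lower1 h1 h le_rfl)
      · exact Or.inr ⟨h1, h2, lower1 h3 h le_rfl⟩)
    (fun m r c => club_dense C hγ r c) ⟨p, hp⟩
  have hex : ∀ c : Co, ∃ w : O, c.In A → ∃ c' ≤ c, c'.In A ∧ D 0 r c' w := by
    intro c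
    by_cases hc : c.In A
    · obtain ⟨c', h1, h2, w, _, h3⟩ := hA.2.2 0 c hc
      exact ⟨w, fun _ => ⟨c', h1, h2, h3⟩⟩
    · exact ⟨0, fun h => (hc h).elim⟩
  choose w hw using hex
  obtain ⟨b, hb, hb'⟩ := (sz_countable (((Co.countable_in hA.1).image w).mono
    (Set.inter_subset_left (t := Set.Iio θ)))).exists_bound (fun a ha => ha.2)
  obtain ⟨q, hq, hqr, hqh, _⟩ := exists_ht r.2 (le_max_left r.1.ht b) (max_lt r.2.1.ht_lt hb)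
  refine ⟨q, hq, hqr.trans hr, hq, ?_⟩
  rw [RO.mem_himp]
  rintro ⟨q', c⟩ hx hC
  rw [RO.mem_iSup]
  rintro ⟨q'', c''⟩ hx'
  have hq''r : q'' ≤ r := hx'.1.trans (hx.1.trans hqr)
  obtain ⟨c', h1, h2, h3⟩ := hw (Co.cut A c'') (Co.cut_in _ _)
  obtain ⟨e, he, he'⟩ := Co.amal h2 h1
  refine ⟨(q'', e), ⟨le_rfl, he⟩, ?_⟩
  rcases h3 with h3 | ⟨h3, h4, h5⟩
  · exact (RO.mem_compl.1 h3 (q'', e) ⟨hq''r, he'⟩ (lower1 hC hx'.1 (he.trans hx'.2))).elim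
  · refine ⟨⟨w (Co.cut A c''), h4, ?_⟩, lower1 h5 hq''r he'⟩
    rw [hqh]
    exact (hb' _ ⟨⟨_, Co.cut_in _ _, rfl⟩, h3⟩).trans (le_max_right _ _)

/-- the generic set of ordinals is stationary -/
theorem Sn_stat {Γ : RO PP} : Γ ≤ ⨅ C, ClubB (ordn θ) C ⇨ ⨆ x, mem x Sn ⊓ mem x C := by
  refine le_iInf fun C => bImp fun Δ _ hΔ => hΔ.trans ?_
  rintro ⟨p0, c0⟩ hp0
  rw [RO.mem_iSup]
  rintro ⟨p1, c1⟩ hp1
  obtain ⟨q, hq, hqp, α, hα, hcof, hst, hacc⟩ := stationary (bdC C c1)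
    (fun γ => bdC_open C c1 γ) (fun γ hγ => bdC_dense C c1 hγ) p1.1 p1.2
  have hqp' : (⟨q, hq⟩ : RT) ≤ p1 := hqp
  refine ⟨(⟨q, hq⟩, c1), ⟨hqp', le_rfl⟩, ordn α, ?_, ?_⟩
  · rw [sn_eq, mem_sbn hα]
    exact RO.subset_hull ⟨hq.1.st_le α hst, hst⟩
  · have hC : ((⟨q, hq⟩ : RT), c1) ∈ (ClubB (ordn θ) C).carrier :=
      RO.lower _ (show ((⟨q, hq⟩ : RT), c1) ≤ (p0, c0) from ⟨hqp'.trans hp1.1, hp1.2⟩) hp0
    have hC' := cn_le.2 hC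
    have h0 : 0 < α := by
      rw [pos_iff_ne_zero]
      rintro rfl
      rw [Ordinal.cof_zero] at hcof
      exact aleph0_ne_zero hcof.symm
    refine cn_le.1 ?_
    refine bMP (bMP (bMP (bAll (bRight (bRight hC')) (ordn α)) (ordn_mem_ordn hα))
      (bEx (ordn 0) (ordn_mem_ordn h0))) ?_
    refine le_iInf fun b => bImp fun Δ' h1 h2 => ?_
    refine bOrd h2 fun β hβ Δ₂ h3 h4 => ?_
    obtain ⟨γ, hβγ, r, ⟨hr, h5⟩, hqr, hrα⟩ := hacc β hβ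
    have h6 : ((⟨q, hq⟩ : RT), c1) ∈ (⨆ δ : {δ : O // γ < δ ∧ δ ≤ r.ht}, Nm.mem (ordn δ.1) C).carrier :=
      RO.mem_himp.1 h5 (⟨q, hq⟩, c1) ⟨hqr, le_rfl⟩ hC
    refine bElim ((h3.trans h1).trans (cn_le.2 h6)) fun δ Δ₃ h7 h8 => ?_
    refine bEx (ordn δ.1) (le_inf h8 (le_inf ?_ (ordn_mem_ordn (δ.2.2.trans_lt hrα))))
    exact bMemL (bSymm (h7.trans h4)) (ordn_mem_ordn (hβγ.trans_lt δ.2.1))

end Pool.Agent.Helper82.LG
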