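import Pool.Agent.Helper82.LG.Seq

/-!
# The limit of a tower
-/

set_option autoImplicit false

namespace Pool.Agent.Helper82.LG

open Cardinal Raw

/-! ### the choice of the digits -/

theorem exists_fun_steps (T : ℕ → (ℕ → ℕ) → ℕ → Prop)
    (hloc : ∀ (n : ℕ) (y y' : ℕ → ℕ) (N : ℕ), (∀ k < N, y' k = y k) → T n y N → T n y' N)
    (hstep : ∀ (n : ℕ) (y : ℕ → ℕ) (N : ℕ), ∃ (y' : ℕ → ℕ) (N' : ℕ), N ≤ N' ∧
      (∀ k < N, y' k = y k) ∧ T n y' N') :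
    ∃ y, ∀ n, ∃ N, T n y N := by
  obtain ⟨s, _, hs⟩ := exists_steps (A := (ℕ → ℕ) × ℕ) (fun n a => n ≤ a.2)
    (fun n a b => (∀ k < a.2, b.1 k = a.1 k) ∧ a.2 ≤ b.2 ∧ T n b.1 b.2) (fun _ => 0, 0) le_rfl
    (fun n a ha => by
      obtain ⟨y', N', h1, h2, h3⟩ := hstep n a.1 (a.2 + 1)
      exact ⟨(y', N'), by have : n ≤ a.2 := ha
                          show n + 1 ≤ N'
                          omega, fun k hk => h2 k (Nat.lt_succ_of_lt hk), by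
        show a.2 ≤ N'
        omega, h3⟩)
  have hst : ∀ n m, n ≤ m → (s n).2 ≤ (s m).2 ∧ ∀ k < (s n).2, (s m).1 k = (s n).1 k := by
    intro n m hnm
    induction m, hnm using Nat.le_induction with
    | base => exact ⟨le_rfl, fun _ _ => rfl⟩
    | succ m _ ih =>
      refine ⟨ih.1.trans (hs m).2.2.1, fun k hk => ?_⟩
      rw [(hs m).2.1 k (hk.trans_le ih.1), ih.2 k hk]
  refine ⟨fun k => (s (k + 1)).1 k, fun n => ⟨(s (n + 1)).2, ?_⟩⟩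
  refine hloc n (s (n + 1)).1 _ _ (fun k hk => ?_) (hs n).2.2.2
  rcases le_total k n with h | h
  · exact ((hst (k + 1) (n + 1) (by omega)).2 k ((hs (k + 1)).1)).symm
  · exact (hst (n + 1) (k + 1) (by omega)).2 k hk

theorem exists_digits {A : Set Bit} (hA : A.Countable) (hAk : ∀ x ∈ A, ∀ k, (x.1, k) ∈ A)
    (Q : Co → O → O → Prop) (mono : ∀ c c' a a', c' ≤ c → Q c a a' → Q c' a a') {α : O}
    (hα : α < θ) (h : ℕ → O) (hmono : Monotone h)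
    (hblk : ∀ γ, h 0 ≤ γ → γ < α → ∃ n, h n ≤ γ ∧ γ < h (n + 1)) (bad : O → ℕ)
    (hQ : ∀ m c, c.In A → ∃ c' ≤ c, c'.In A ∧ ∃ a a', (a, 0) ∈ A ∧ (a', 0) ∈ A ∧ h m < a ∧
      h m < a' ∧ a < α ∧ a' < α ∧ a ≠ a' ∧ Q c' a a') :
    ∃ y : ℕ → ℕ, ∀ c, c.In A → ∀ m, ∃ c' ≤ c, c'.In A ∧ ∃ a a' i j, m ≤ i ∧ m ≤ j ∧ h i ≤ a ∧
      a < h (i + 1) ∧ h j ≤ a' ∧ a' < h (j + 1) ∧ Q c' a a' ∧ y i ≠ bad a ∧ y j ≠ bad a' ∧
      Co.Diff c' (a, y i) (a', y j) := by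
  classical
  have hc : Countable {c : Co // c.In A} := (Co.countable_in hA).to_subtype
  have hne : Nonempty ({c : Co // c.In A} × ℕ) := ⟨⟨⟨Co.emp, Co.emp_in A⟩, 0⟩⟩
  obtain ⟨en, hen⟩ := exists_surjective_nat ({c : Co // c.In A} × ℕ)
  let T : ℕ → (ℕ → ℕ) → ℕ → Prop := fun n y N => ∃ c' ≤ (en n).1.1, c'.In A ∧ ∃ a a' i j,
      i < N ∧ j < N ∧ (en n).2 ≤ i ∧ (en n).2 ≤ j ∧ h i ≤ a ∧
      a < h (i + 1) ∧ h j ≤ a' ∧ a' < h (j + 1) ∧ Q c' a a' ∧ y i ≠ bad a ∧ y j ≠ bad a' ∧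
      Co.Diff c' (a, y i) (a', y j)
  have hloc : ∀ (n : ℕ) (y y' : ℕ → ℕ) (N : ℕ), (∀ k < N, y' k = y k) → T n y N → T n y' N := by
    rintro n y y' N hyy ⟨c', h1, h2, a, a', i, j, hi, hj, h5⟩
    refine ⟨c', h1, h2, a, a', i, j, hi, hj, ?_⟩
    rw [hyy i hi, hyy j hj]
    exact h5
  have hstep : ∀ (n : ℕ) (y : ℕ → ℕ) (N : ℕ), ∃ (y' : ℕ → ℕ) (N' : ℕ), N ≤ N' ∧
      (∀ k < N, y' k = y k) ∧ T n y' N' := by
    intro n y N
    obtain ⟨c', h1, h2, a, a', h3, h4, h5, h6, h7, h8, h9, h10⟩ :=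
      hQ (max (en n).2 N) (en n).1.1 (en n).1.2
    have hb : ∀ b, h (max (en n).2 N) < b → b < α → ∃ i, max (en n).2 N ≤ i ∧ h i ≤ b ∧
        b < h (i + 1) := by
      intro b hb1 hb2
      obtain ⟨i, hi1, hi2⟩ := hblk b ((hmono (Nat.zero_le _)).trans hb1.le) hb2
      refine ⟨i, ?_, hi1, hi2⟩
      by_contra hcon
      push Not at hcon
      exact absurd (hb1.trans hi2) (not_lt.2 (hmono hcon))
    obtain ⟨i, hi0, hi1, hi2⟩ := hb a h5 h7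
    obtain ⟨j, hj0, hj1, hj2⟩ := hb a' h6 h8
    obtain ⟨k, hk⟩ := Infinite.exists_notMem_finset
      ({bad a, bad a'} ∪ (c'.one ∪ c'.zer).image Prod.snd)
    have hka : k ≠ bad a := fun e => hk (by simp [e])
    have hka' : k ≠ bad a' := fun e => hk (by simp [e])
    have hdom : ∀ b, (b, k) ∉ c'.one ∧ (b, k) ∉ c'.zer := by
      intro b
      refine ⟨fun e => hk ?_, fun e => hk ?_⟩
      · exact Finset.mem_union_right _ (Finset.mem_image.2 ⟨(b, k), Finset.mem_union_left _ e, rfl⟩)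
      · exact Finset.mem_union_right _ (Finset.mem_image.2 ⟨(b, k), Finset.mem_union_right _ e, rfl⟩)
    obtain ⟨d, hd, hdiff, hdA⟩ := Co.exists_diff c' (x := (a, k)) (y := (a', k)) (h7.trans hα)
      (h8.trans hα) (fun e => h9 (congrArg Prod.fst e)) (hdom a).2 (hdom a').1
    have hmi := (le_max_left (en n).2 N).trans hi0
    have hmj := (le_max_left (en n).2 N).trans hj0
    have hNi := (le_max_right (en n).2 N).trans hi0
    have hNj := (le_max_right (en n).2 N).trans hj0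
    have hii := le_max_left i j
    have hjj := le_max_right i j
    refine ⟨fun t => if t = i ∨ t = j then k else y t, max i j + 1, by omega, fun t ht => ?_, d,
      hd.trans h1, hdA A h2 (hAk _ h3 k) (hAk _ h4 k), a, a', i, j, by omega, by omega, hmi, hmj,
      hi1, hi2, hj1, hj2, mono _ _ _ _ hd h10, ?_, ?_, ?_⟩
    · exact if_neg (by omega)
    · simp only [true_or, if_true]; exact hka
    · simp only [or_true, if_true]; exact hka'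
    · simp only [true_or, or_true, if_true]; exact hdiff
  obtain ⟨y, hy⟩ := exists_fun_steps T hloc hstep
  refine ⟨y, fun c hcA m => ?_⟩
  obtain ⟨n, hn⟩ := hen (⟨c, hcA⟩, m)
  obtain ⟨N, c', h1, h2, a, a', i, j, _, _, h5⟩ := hy n
  rw [hn] at h1 h5
  exact ⟨c', h1, h2, a, a', i, j, h5⟩

theorem le_restr_sup {q p : Raw} {Z : Set O} (hne : Z.Nonempty)
    (hZ : ∀ ζ ∈ Z, q ≤ restr (Set.Iio ζ) p) {ζ' : O} (h : ∀ η < ζ', ∃ ζ ∈ Z, η < ζ) :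
    q ≤ restr (Set.Iio ζ') p := by
  obtain ⟨ζ, hζ⟩ := hne
  refine ⟨(hZ ζ hζ).1, (hZ ζ hζ).2.1, fun ξ hξ => ?_, fun ξ hξ => ?_⟩
  · obtain ⟨ζ, hζ, h1⟩ := h ξ.1 hξ.2
    exact (hZ ζ hζ).2.2.1 ⟨hξ.1, h1⟩
  · obtain ⟨ζ, hζ, h1⟩ := h ξ.1 hξ.2
    obtain ⟨h2, h3⟩ := (hZ ζ hζ).2.2.2 ξ ⟨hξ.1, h1⟩
    refine ⟨fun γ hγ => ?_, fun β hβ => ?_⟩
    · rw [h2 γ hγ, restr_dg (show ξ.1 ∈ Set.Iio ζ from h1), restr_dg hξ.2]
    · rw [h3 β hβ]
      simp only [mem_restr_cl, Set.mem_Iio]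
      exact and_congr_right fun _ => ⟨fun _ => hξ.2, fun _ => h1⟩

/-! ### the limit of a tower -/

namespace Tower

variable {p₀ : Raw} {D : O → Set Raw} (T : Tower p₀ D)

/-- the limit of the heights -/
noncomputable def al : O := ⨆ n, T.h n

theorem h_lt (n : ℕ) : T.h n < θ := by
  rw [← T.hth n fun _ _ => 0]
  exact (T.mem n _).1.ht_lt

theorem h_mono : StrictMono T.h := strictMono_nat_of_lt_succ T.hlt

theorem h_le_al (n : ℕ) : T.h n ≤ T.al := le_ciSup Ordinal.bddAbove_of_small n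

theorem h_lt_al (n : ℕ) : T.h n < T.al := (T.hlt n).trans_le (T.h_le_al _)

theorem lt_al {β : O} (hβ : β < T.al) : ∃ n, β < T.h n := by
  by_contra hc
  push Not at hc
  exact absurd (ciSup_le hc) (not_le.2 hβ)

theorem al_lt : T.al < θ := by
  have h : Sz (Set.range T.h) := sz_countable (Set.countable_range _)
  refine h.sSup_lt ?_
  rintro _ ⟨n, rfl⟩
  exact T.h_lt n

theorem cof_al : T.al.cof = ℵ₀ := by
  unfold al
  rw [Ordinal.cof_iSup T.h_mono]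
  exact Order.cof_nat

theorem al_pos : 0 < T.al := lt_of_le_of_lt (zero_le) (T.h_lt_al 0)

theorem block (γ : O) (h0 : T.h 0 ≤ γ) (h1 : γ < T.al) : ∃ n, T.h n ≤ γ ∧ γ < T.h (n + 1) := by
  classical
  have hex := T.lt_al h1
  have hf := Nat.find_spec hex
  have hne : Nat.find hex ≠ 0 := fun h => by
    rw [h] at hf
    exact absurd hf (not_lt.2 h0)
  obtain ⟨n, hn⟩ := Nat.exists_eq_succ_of_ne_zero hne
  refine ⟨n, ?_, ?_⟩
  · exact not_lt.1 (Nat.find_min hex (by omega))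
  · rw [hn] at hf; exact hf

theorem P_anti (x : Br) : Antitone fun n => T.P n x := antitone_nat_of_succ_le fun n => T.le n x

/-- all the coordinates -/
def U : Set X := {ξ | ∃ n x, ξ ∈ (T.P n x).sp}

theorem sz_U : Sz T.U := by
  refine (sz_iUnion_nat (fun n => Wsp (T.P n)) T.sz).mono ?_
  rintro ξ ⟨n, x, h⟩
  exact Set.mem_iUnion.2 ⟨n, x, h⟩

/-- the branch -/
def bran (x : Br) : Set Raw := Set.range fun n => T.P n x

theorem bran_chain (x : Br) : IsChain (· ≤ ·) (T.bran x) := by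
  rintro _ ⟨n, rfl⟩ _ ⟨m, rfl⟩ _
  rcases le_total n m with h | h
  · exact Or.inr (T.P_anti x h)
  · exact Or.inl (T.P_anti x h)

theorem bran_sz (x : Br) : Sz (T.bran x) := sz_countable (Set.countable_range _)

theorem bran_sub (x : Br) : T.bran x ⊆ Rt := by
  rintro _ ⟨n, rfl⟩
  exact T.mem n x

theorem lim_bran_mem (x : Br) : lim (T.bran x) ∈ Rt :=
  lim_mem (T.bran_chain x) (T.bran_sz x) (T.bran_sub x)

theorem lim_bran_le (x : Br) (n : ℕ) : lim (T.bran x) ≤ T.P n x :=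
  lim_le (T.bran_chain x) (T.bran_sz x) (fun _ hp => (T.bran_sub x hp).1) ⟨n, rfl⟩

theorem lim_bran_ht (x : Br) : (lim (T.bran x)).ht = T.al := by
  show hts (T.bran x) = ⨆ n, T.h n
  unfold hts bran
  rw [← Set.range_comp, iSup]
  congr 1
  ext α
  simp only [Set.mem_range, Function.comp, T.hth]

/-- the partial limits -/
structure QQ : Type 1 where
  q : Raw
  x : Br
  ζ : O
  mem : q ∈ Rs ζ
  al_mem : T.al ∈ q.st
  le : ∀ n, q ≤ restr (Set.Iio ζ) (T.P n x)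

instance : Preorder T.QQ where
  le b a := a.ζ ≤ b.ζ ∧ b.q ≤ a.q ∧ ∀ ξ : X, ξ.1 < a.ζ → b.x ξ = a.x ξ
  le_refl a := ⟨le_rfl, le_rfl, fun _ _ => rfl⟩
  le_trans c b a h h' := ⟨h'.1.trans h.1, h.2.1.trans h'.2.1, fun ξ hξ => by
    rw [h.2.2 ξ (hξ.trans_le h'.1), h'.2.2 ξ hξ]⟩

theorem coh' {n : ℕ} {ζ : O} {x y : Br} (h : ∀ ξ : X, ξ.1 < ζ → x ξ = y ξ) :
    restr (Set.Iio ζ) (T.P n x) = restr (Set.Iio ζ) (T.P n y) :=
  T.coh n _ (isLowerSet_Iio ζ) x y fun i _ ξ _ hG => by rw [h ξ hG]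

theorem clo_QQ : Clo T.QQ := by
  classical
  intro K hK hsz hne
  -- the limit
  let ζ' : O := sSup (QQ.ζ '' K)
  have hζ : ∀ s ∈ K, s.ζ ≤ ζ' := fun s hs => le_csSup (hsz.image _).bdd ⟨s, hs, rfl⟩
  have hζ' : ∀ η < ζ', ∃ s ∈ K, η < s.ζ := by
    intro η hη
    by_contra hc
    push Not at hc
    refine absurd hη (not_lt.2 (csSup_le (hne.image _) ?_))
    rintro _ ⟨s, hs, rfl⟩
    exact hc s hs
  let x' : Br := fun ξ => if h : ∃ s ∈ K, ξ.1 < s.ζ then h.choose.x ξ else fun _ => 0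
  have hx' : ∀ s ∈ K, ∀ ξ : X, ξ.1 < s.ζ → x' ξ = s.x ξ := by
    intro s hs ξ hξ
    have h : ∃ s ∈ K, ξ.1 < s.ζ := ⟨s, hs, hξ⟩
    have h1 : x' ξ = h.choose.x ξ := dif_pos h
    rw [h1]
    have h2 := h.choose_spec
    set t := h.choose
    by_cases hts : t = s
    · rw [hts]
    rcases hK h2.1 hs hts with h3 | h3
    · exact h3.2.2 ξ hξ
    · exact (h3.2.2 ξ h2.2).symm
  have hch : IsChain (· ≤ ·) (QQ.q '' K) := by
    rintro _ ⟨s, hs, rfl⟩ _ ⟨t, ht, rfl⟩ hne'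
    rcases hK hs ht (fun h => hne' (by rw [h])) with h | h
    · exact Or.inl h.2.1
    · exact Or.inr h.2.1
  have hsub : QQ.q '' K ⊆ Rs ζ' := by
    rintro _ ⟨s, hs, rfl⟩
    exact Rs_mono (hζ s hs) s.mem
  have hle : ∀ s ∈ K, lim (QQ.q '' K) ≤ s.q := fun s hs =>
    lim_le hch (hsz.image _) (fun p hp => (Rs_sub (hsub hp)).1) ⟨s, hs, rfl⟩
  refine ⟨⟨lim (QQ.q '' K), x', ζ', lim_mem_Rs hch (hsz.image _) hsub, ?_, fun n => ?_⟩,
    fun s hs => ⟨hζ s hs, hle s hs, hx' s hs⟩⟩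
  · obtain ⟨s, hs⟩ := hne
    exact ⟨s.q, ⟨s, hs, rfl⟩, s.al_mem⟩
  · refine le_restr_sup (Z := QQ.ζ '' K) (hne.image _) ?_ ?_
    · rintro _ ⟨s, hs, rfl⟩
      rw [T.coh' (hx' s hs)]
      exact (hle s hs).trans (s.le n)
    · intro η hη
      obtain ⟨s, hs, h⟩ := hζ' η hη
      exact ⟨_, ⟨s, hs, rfl⟩, h⟩

theorem al_le (s : T.QQ) : T.al ≤ s.q.ht := (Rs_sub s.mem).1.st_le _ s.al_mem

/-- the level can be raised if there are no coordinates in between -/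
theorem jump (s : T.QQ) {ζ : O} (hζ : s.ζ ≤ ζ) (hno : ∀ ξ ∈ T.U, ξ.1 < ζ → ξ.1 < s.ζ) :
    ∃ t ≤ s, t.ζ = ζ := by
  refine ⟨⟨s.q, s.x, ζ, Rs_mono hζ s.mem, s.al_mem, fun n => ?_⟩, ⟨hζ, le_rfl, fun _ _ => rfl⟩, rfl⟩
  have h := s.le n
  refine ⟨h.1, h.2.1, fun ξ hξ => ?_, fun ξ hξ => ?_⟩
  · exact h.2.2.1 ⟨hξ.1, hno ξ ⟨n, _, hξ.1⟩ hξ.2⟩
  · have hξ' : ξ.1 < s.ζ := hno ξ ⟨n, _, hξ.1⟩ hξ.2
    obtain ⟨h2, h3⟩ := h.2.2.2 ξ ⟨hξ.1, hξ'⟩
    refine ⟨fun γ hγ => ?_, fun β hβ => ?_⟩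
    · rw [h2 γ hγ, restr_dg (show ξ.1 ∈ Set.Iio s.ζ from hξ'), restr_dg hξ.2]
    · rw [h3 β hβ]
      simp only [mem_restr_cl, Set.mem_Iio]
      exact and_congr_right fun _ => ⟨fun _ => hξ.2, fun _ => hξ'⟩

end Tower

end Pool.Agent.Helper82.LG
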