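import Pool.Agent.Helper82.LG.Lim

/-!
# Coherent systems of conditions
-/

set_option autoImplicit false

namespace Pool.Agent.Helper82.LG

open Cardinal Raw

/-- families of digit sequences -/
abbrev Br : Type 1 := X → ℕ → ℕ

/-- `x` and `y` agree at the coordinates with level in `G`, up to `n` -/
def Agr (Us : ℕ → Set X) (n : ℕ) (G : Set O) (x y : Br) : Prop :=
  ∀ i < n, ∀ ξ ∈ Us i, ξ.1 ∈ G → x ξ i = y ξ i

theorem Agr.mono {Us : ℕ → Set X} {n m : ℕ} {G H : Set O} {x y : Br} (h : Agr Us n G x y)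
    (hm : m ≤ n) (hH : H ⊆ G) : Agr Us m H x y :=
  fun i hi ξ hξ hG => h i (hi.trans_le hm) ξ hξ (hH hG)

theorem Agr.symm {Us : ℕ → Set X} {n : ℕ} {G : Set O} {x y : Br} (h : Agr Us n G x y) :
    Agr Us n G y x := fun i hi ξ hξ hG => (h i hi ξ hξ hG).symm

theorem agr_trc (Us : ℕ → Set X) (n : ℕ) (G : Set O) (x : Br) : Agr Us n G x (trc Us n x) := by
  classical
  intro i hi ξ hξ _
  exact (if_pos ⟨hi, hξ⟩ : (if i < n ∧ ξ ∈ Us i then x ξ i else 0) = x ξ i).symm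

theorem restr_univ (p : Raw) : restr Set.univ p = p := by
  refine Raw.ext' rfl rfl ?_ ?_ ?_
  · ext x; simp
  · funext x γ; exact restr_dg (Set.mem_univ _) γ
  · funext x; ext α; simp

/-- coherent systems of conditions of the same height -/
structure Sys (Us : ℕ → Set X) (n : ℕ) : Type 1 where
  P : Br → Raw
  h : O
  mem : ∀ x, P x ∈ Rt
  hth : ∀ x, (P x).ht = h
  coh : ∀ G, IsLowerSet G → ∀ x y, Agr Us (n + 1) G x y → restr G (P x) = restr G (P y)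

namespace Sys

variable {Us : ℕ → Set X} {n : ℕ}

instance : Preorder (Sys Us n) where
  le Q S := S.h ≤ Q.h ∧ (∀ x, Q.P x ≤ S.P x) ∧ ∀ γ, S.h ≤ γ → γ < Q.h → ∃ t : X → ℕ,
    ∀ x, ∀ ξ ∈ (S.P x).sp, ξ ∈ Us n → (Q.P x).dg ξ γ = x ξ n ∨ x ξ n = t ξ
  le_refl S := ⟨le_rfl, fun _ => le_rfl, fun γ h1 h2 => absurd h1 (not_le.2 h2)⟩
  le_trans R Q S h h' := ⟨h'.1.trans h.1, fun x => (h.2.1 x).trans (h'.2.1 x), fun γ h1 h2 => by
    rcases lt_or_ge γ Q.h with h3 | h3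
    · obtain ⟨t, ht⟩ := h'.2.2 γ h1 h3
      refine ⟨t, fun x ξ hξ hξ' => ?_⟩
      have h4 := ((h.2.1 x).2.2.2 ξ ((h'.2.1 x).2.2.1 hξ)).1 γ (by rw [Q.hth]; exact h3)
      rw [h4]
      exact ht x ξ hξ hξ'
    · obtain ⟨t, ht⟩ := h.2.2 γ h3 h2
      exact ⟨t, fun x ξ hξ hξ' => ht x ξ ((h'.2.1 x).2.2.1 hξ) hξ'⟩⟩

theorem clo : Clo (Sys Us n) := by
  intro K hK hsz hne
  have hch : ∀ x, IsChain (· ≤ ·) ((fun S : Sys Us n => S.P x) '' K) := by
    rintro x _ ⟨S, hS, rfl⟩ _ ⟨T, hT, rfl⟩ hne'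
    rcases hK hS hT (fun h => hne' (by rw [h])) with h | h
    · exact Or.inl (h.2.1 x)
    · exact Or.inr (h.2.1 x)
  have hmem : ∀ x, (fun S : Sys Us n => S.P x) '' K ⊆ Rt := by
    rintro x _ ⟨S, _, rfl⟩
    exact S.mem x
  have hh : ∀ x, hts ((fun S : Sys Us n => S.P x) '' K) = sSup (Sys.h '' K) := by
    intro x
    unfold hts
    congr 1
    ext α
    constructor
    · rintro ⟨_, ⟨S, hS, rfl⟩, rfl⟩
      exact ⟨S, hS, (S.hth x).symm⟩
    · rintro ⟨S, hS, rfl⟩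
      exact ⟨_, ⟨S, hS, rfl⟩, S.hth x⟩
  let L : Sys Us n :=
    { P := fun x => lim ((fun S : Sys Us n => S.P x) '' K)
      h := sSup (Sys.h '' K)
      mem := fun x => lim_mem (hch x) (hsz.image _) (hmem x)
      hth := hh
      coh := fun G hG x y hxy => by
        rw [restr_lim, restr_lim]
        congr 1
        ext p
        constructor
        · rintro ⟨_, ⟨S, hS, rfl⟩, rfl⟩
          exact ⟨_, ⟨S, hS, rfl⟩, (S.coh G hG x y hxy).symm⟩
        · rintro ⟨_, ⟨S, hS, rfl⟩, rfl⟩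
          exact ⟨_, ⟨S, hS, rfl⟩, S.coh G hG x y hxy⟩ }
  have hle : ∀ S ∈ K, ∀ x, L.P x ≤ S.P x := fun S hS x =>
    lim_le (hch x) (hsz.image _) (fun p hp => (hmem x hp).1) ⟨S, hS, rfl⟩
  refine ⟨L, fun S hS => ⟨?_, hle S hS, fun γ h1 h2 => ?_⟩⟩
  · exact le_csSup (hsz.image _).bdd ⟨S, hS, rfl⟩
  · have : ∃ T ∈ K, γ < T.h := by
      by_contra hc
      push Not at hc
      refine absurd h2 (not_lt.2 (csSup_le (hne.image _) ?_))
      rintro _ ⟨T, hT, rfl⟩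
      exact hc T hT
    obtain ⟨T, hT, hγ⟩ := this
    have hTS : T ≤ S := by
      by_cases h : T = S
      · exact h ▸ le_rfl
      rcases hK hT hS h with h | h
      · exact h
      · exact absurd (hγ.trans_le h.1) (not_lt.2 h1)
    obtain ⟨t, ht⟩ := hTS.2.2 γ h1 hγ
    refine ⟨t, fun x ξ hξ hξ' => ?_⟩
    have h4 := ((hle T hT x).2.2.2 ξ ((hTS.2.1 x).2.2.1 hξ)).1 γ (by rw [T.hth]; exact hγ)
    rw [h4]
    exact ht x ξ hξ hξ'

theorem mrg_eq {G : Set O} {q p : Raw} {u : X → ℕ} (h : ∀ η, η ∈ G) : mrg G q p u = q := by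
  have hG : G = Set.univ := Set.eq_univ_of_forall h
  subst hG
  rw [← restr_univ (mrg Set.univ q p u), restr_mrg subset_rfl, restr_univ]

/-- one node of the system is treated -/
theorem treat (S : Sys Us n) (t : Br) {q : Raw} (hq : q ∈ Rt) (hqt : q ≤ S.P t) :
    ∃ S' ≤ S, S'.P t = q := by
  classical
  let G : Br → Set O := fun x => {η | ∀ i < n + 1, ∀ ξ ∈ Us i, ξ.1 ≤ η → x ξ i = t ξ i}
  have hG : ∀ x, IsLowerSet (G x) := fun x η η' hη h i hi ξ hξ hξη => h i hi ξ hξ (hξη.trans hη)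
  have hagr : ∀ x, Agr Us (n + 1) (G x) x t := fun x i hi ξ hξ hξG => hξG i hi ξ hξ le_rfl
  have hle : ∀ x, restr (G x) q ≤ restr (G x) (S.P x) := fun x => by
    rw [S.coh (G x) (hG x) x t (hagr x)]
    exact restr_mono _ hqt
  let u : Br → X → ℕ := fun x ξ => if ξ ∈ Us n then x ξ n else 0
  let S' : Sys Us n :=
    { P := fun x => mrg (G x) q (S.P x) (u x)
      h := q.ht
      mem := fun x => mrg_mem (hG x) hq (S.mem x) (hle x)
      hth := fun x => rfl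
      coh := fun H hH x y hxy => by
        have hGH : ∀ η ∈ H, (η ∈ G x ↔ η ∈ G y) := by
          intro η hη
          have key : ∀ x y : Br, Agr Us (n + 1) H x y → η ∈ G x → η ∈ G y := by
            intro x y hxy h i hi ξ hξ hξη
            rw [← hxy i hi ξ hξ (hH hξη hη)]
            exact h i hi ξ hξ hξη
          exact ⟨key x y hxy, key y x hxy.symm⟩
        have hc := S.coh H hH x y hxy
        have hsp : ∀ ξ : X, ξ.1 ∈ H → (ξ ∈ (S.P x).sp ↔ ξ ∈ (S.P y).sp) := by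
          intro ξ hξ
          have : ξ ∈ (restr H (S.P x)).sp ↔ ξ ∈ (restr H (S.P y)).sp := by rw [hc]
          simpa [hξ] using this
        have hcl : ∀ ξ : X, ξ.1 ∈ H → ∀ α, (α ∈ (S.P x).cl ξ ↔ α ∈ (S.P y).cl ξ) := by
          intro ξ hξ α
          have : α ∈ (restr H (S.P x)).cl ξ ↔ α ∈ (restr H (S.P y)).cl ξ := by rw [hc]
          simpa [hξ] using this
        have hdg : ∀ ξ : X, ξ.1 ∈ H → ∀ γ, (S.P x).dg ξ γ = (S.P y).dg ξ γ := by
          intro ξ hξ γ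
          rw [← restr_dg (G := H) hξ, hc, restr_dg hξ]
        refine Raw.ext' rfl rfl ?_ ?_ ?_
        · ext ξ
          simp only [mem_restr_sp]
          refine and_congr_left fun hξ => ?_
          show (ξ ∈ q.sp ∧ ξ.1 ∈ G x) ∨ (ξ ∈ (S.P x).sp ∧ ξ.1 ∉ G x) ↔
            (ξ ∈ q.sp ∧ ξ.1 ∈ G y) ∨ (ξ ∈ (S.P y).sp ∧ ξ.1 ∉ G y)
          rw [hGH _ hξ, hsp ξ hξ]
        · funext ξ γ
          by_cases hξ : ξ.1 ∈ H
          · rw [restr_dg hξ, restr_dg hξ]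
            have hu : u x ξ = u y ξ := by
              show (if ξ ∈ Us n then x ξ n else 0) = if ξ ∈ Us n then y ξ n else 0
              split_ifs with h1
              · exact hxy n (Nat.lt_succ_self n) ξ h1 hξ
              · rfl
            show (mrg (G x) q (S.P x) (u x)).dg ξ γ = (mrg (G y) q (S.P y) (u y)).dg ξ γ
            unfold mrg
            simp only [hGH _ hξ, hsp ξ hξ, S.hth, hu, hdg ξ hξ]
          · rw [restr_dg' hξ, restr_dg' hξ]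
        · funext ξ
          ext α
          simp only [mem_restr_cl]
          refine and_congr_left fun hξ => ?_
          show (α ∈ q.cl ξ ∧ ξ.1 ∈ G x) ∨ (α ∈ (S.P x).cl ξ ∧ ξ.1 ∉ G x) ↔
            (α ∈ q.cl ξ ∧ ξ.1 ∈ G y) ∨ (α ∈ (S.P y).cl ξ ∧ ξ.1 ∉ G y)
          rw [hGH _ hξ, hcl ξ hξ α] }
  refine ⟨S', ⟨?_, fun x => mrg_le (hle x), fun γ h1 h2 => ⟨fun ξ => t ξ n, fun x ξ hξ hξ' => ?_⟩⟩,
    mrg_eq fun η i _ ξ _ _ => rfl⟩
  · rw [← S.hth t]
    exact hqt.1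
  · by_cases hξG : ξ.1 ∈ G x
    · exact Or.inr (hagr x n (Nat.lt_succ_self n) ξ hξ' hξG)
    · refine Or.inl ?_
      show (mrg (G x) q (S.P x) (u x)).dg ξ γ = _
      rw [mrg_dg_new hξG hξ (by rw [S.hth]; exact h1) h2]
      exact if_pos hξ'

/-- all the nodes of the system are treated -/
theorem treat_all (S : Sys Us n) (hsz : Sz (Set.range (trc Us (n + 1)))) (D : Set Raw)
    (hop : ∀ p ∈ D, ∀ q ∈ Rt, q ≤ p → q ∈ D) (hde : ∀ p ∈ Rt, ∃ q ∈ Rt, q ≤ p ∧ q ∈ D) :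
    ∃ S' ≤ S, ∀ x, S'.P x ∈ D := by
  obtain ⟨S', h1, h2⟩ := dist (clo (Us := Us) (n := n)) hsz (fun t S => S.P t ∈ D)
    (fun t S S' hS h => hop _ h _ (S'.mem t) (hS.2.1 t)) (fun t _ S => by
      obtain ⟨q, hq, hle, hD⟩ := hde (S.P t) (S.mem t)
      obtain ⟨S', h1, h2⟩ := treat S t hq hle
      exact ⟨S', h1, by rw [h2]; exact hD⟩) S
  refine ⟨S', h1, fun x => ?_⟩
  have h3 := S'.coh Set.univ isLowerSet_univ x _ (agr_trc Us (n + 1) Set.univ x)
  rw [restr_univ, restr_univ] at h3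
  rw [h3]
  exact h2 _ ⟨x, rfl⟩

end Sys

end Pool.Agent.Helper82.LG
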